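import Mathlib
import Pool.Agent.Lib.MP_ae5b4e_an_hopf.Det

/-!
If `det (Γ x, Γ y, Γ' y)` is symmetric in `x` and `y` on an interval then this arc of the curve is
on a conic.
-/

noncomputable section

namespace Pool.Agent.MP_ae5b4e_an_P3

open Set Filter Topology
open scoped ContDiff
open Pool.Agent.MP_ae5b4e_an_hopf

variable {Γ : ℝ → Fin 3 → ℝ} {T : ℝ}

/-- three points of an arc which are not on a line -/
lemma exists_three_points (h : Curve T Γ) {a b : ℝ} (hab : a < b) (hT : b < a + T) :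
    ∃ y₁ ∈ Ioo a b, ∃ y₂ ∈ Ioo a b, ∃ y₃ ∈ Ioo a b, det3 (Γ y₁) (Γ y₂) (Γ y₃) ≠ 0 := by
  obtain ⟨y₁, h1a, h1b⟩ := exists_between hab
  obtain ⟨y₂, h2a, h2b⟩ := exists_between h1b
  have hpos : 0 < dd Γ y₁ y₂ := h.dd_pos_right h2a (by linarith)
  by_contra hneg
  push Not at hneg
  have hz : ∀ᶠ y in 𝓝 y₂, det3 (Γ y₁) (Γ y₂) (Γ y) = 0 := by
    filter_upwards [isOpen_Ioo.mem_nhds (show y₂ ∈ Ioo a b from ⟨h1a.trans h2a, h2b⟩)] with y hy
    exact hneg y₁ ⟨h1a, h1b⟩ y₂ ⟨h1a.trans h2a, h2b⟩ y hy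
  have hd : HasDerivAt (fun y => det3 (Γ y₁) (Γ y₂) (Γ y)) (dd Γ y₁ y₂) y₂ := by
    refine (hasDerivAt_det3 (hasDerivAt_const y₂ (Γ y₁)) (hasDerivAt_const y₂ (Γ y₂))
      (h.hd0 y₂)).congr_deriv ?_
    unfold dd det3
    simp
  have h0 : HasDerivAt (fun y => det3 (Γ y₁) (Γ y₂) (Γ y)) 0 y₂ :=
    (hasDerivAt_const y₂ (0:ℝ)).congr_of_eventuallyEq hz
  exact hpos.ne' (hd.unique h0)

/-- the symmetric bilinear function on the arc comes from a quadratic form -/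
theorem arc_on_conic (h : Curve T Γ) {a b : ℝ} (hab : a < b) (hT : b < a + T)
    (hsym : ∀ x ∈ Ioo a b, ∀ y ∈ Ioo a b, x < y → dd Γ x y = dd Γ y x) :
    ∃ C : QuadraticForm ℝ (Fin 3 → ℝ), C ≠ 0 ∧ ∀ x ∈ Ioo a b, C (Γ x) = 0 := by
  obtain ⟨y₁, m1, y₂, m2, y₃, m3, hD⟩ := exists_three_points h hab hT
  have hs : ∀ x ∈ Ioo a b, ∀ y ∈ Ioo a b, dd Γ x y = dd Γ y x := by
    intro x hx y hy
    rcases lt_trichotomy x y with h1 | h1 | h1
    · exact hsym x hx y hy h1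
    · rw [h1]
    · exact (hsym y hy x hx h1).symm
  set D := det3 (Γ y₁) (Γ y₂) (Γ y₃) with hDdef
  -- the functionals `v ↦ det (v, Γ y, Γ' y)`
  let ℓ : ℝ → ((Fin 3 → ℝ) →ₗ[ℝ] ℝ) := fun y =>
    { toFun := fun v => det3 v (Γ y) (deriv Γ y)
      map_add' := fun v w => by
        simp only [det3, Pi.add_apply]
        ring
      map_smul' := fun r v => by
        simp only [det3, Pi.smul_apply, smul_eq_mul, RingHom.id_apply]
        ring }
  -- the coordinates in the basis `Γ y₁, Γ y₂, Γ y₃`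
  let k : Fin 3 → ((Fin 3 → ℝ) →ₗ[ℝ] ℝ) := fun i =>
    { toFun := fun v => ![det3 v (Γ y₂) (Γ y₃), det3 (Γ y₁) v (Γ y₃), det3 (Γ y₁) (Γ y₂) v] i / D
      map_add' := fun v w => by
        fin_cases i <;> simp [det3] <;> ring
      map_smul' := fun r v => by
        fin_cases i <;> simp [det3] <;> ring }
  have hexp : ∀ v : Fin 3 → ℝ, v = k 0 v • Γ y₁ + k 1 v • Γ y₂ + k 2 v • Γ y₃ := by
    intro v
    have key : ∀ i, det3 v (Γ y₂) (Γ y₃) * Γ y₁ i + det3 (Γ y₁) v (Γ y₃) * Γ y₂ i +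
        det3 (Γ y₁) (Γ y₂) v * Γ y₃ i = D * v i := by
      intro i
      rw [hDdef]
      fin_cases i <;> simp [det3] <;> ring
    funext i
    have := key i
    show v i = det3 v (Γ y₂) (Γ y₃) / D * Γ y₁ i + det3 (Γ y₁) v (Γ y₃) / D * Γ y₂ i +
        det3 (Γ y₁) (Γ y₂) v / D * Γ y₃ i
    field_simp
    linarith
  let B : LinearMap.BilinMap ℝ (Fin 3 → ℝ) ℝ :=
    LinearMap.mk₂ ℝ (fun v w => ℓ y₁ v * k 0 w + ℓ y₂ v * k 1 w + ℓ y₃ v * k 2 w)
      (fun v v' w => by simp only [map_add]; ring)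
      (fun r v w => by simp only [map_smul, smul_eq_mul]; ring)
      (fun v w w' => by simp only [map_add]; ring)
      (fun r v w => by simp only [map_smul, smul_eq_mul]; ring)
  -- on the arc the bilinear form is `det (Γ y, Γ x, Γ' x)`
  have hB : ∀ x ∈ Ioo a b, ∀ w, B (Γ x) w = det3 w (Γ x) (deriv Γ x) := by
    intro x hx w
    show ℓ y₁ (Γ x) * k 0 w + ℓ y₂ (Γ x) * k 1 w + ℓ y₃ (Γ x) * k 2 w = ℓ x w
    have e1 : ℓ y₁ (Γ x) = ℓ x (Γ y₁) := hs x hx y₁ m1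
    have e2 : ℓ y₂ (Γ x) = ℓ x (Γ y₂) := hs x hx y₂ m2
    have e3 : ℓ y₃ (Γ x) = ℓ x (Γ y₃) := hs x hx y₃ m3
    conv_rhs => rw [hexp w]
    rw [map_add, map_add, map_smul, map_smul, map_smul, e1, e2, e3]
    simp only [smul_eq_mul]
    ring
  refine ⟨B.toQuadraticMap, ?_, ?_⟩
  · intro h0
    have hz : ∀ v, B v v = 0 := fun v => by
      have := congrArg (fun q : QuadraticForm ℝ (Fin 3 → ℝ) => q v) h0
      simpa using this
    obtain ⟨x, hxa, hxb⟩ := exists_between hab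
    obtain ⟨y, hya, hyb⟩ := exists_between hxb
    have hx : x ∈ Ioo a b := ⟨hxa, hxb⟩
    have hy : y ∈ Ioo a b := ⟨hxa.trans hya, hyb⟩
    have e := hz (Γ x + Γ y)
    simp only [map_add, LinearMap.add_apply] at e
    rw [hz, hz, hB x hx, hB y hy] at e
    have p1 := h.dd_pos_right hya (by linarith)
    have p2 := h.dd_pos_left hya (by linarith)
    unfold dd at p1 p2
    linarith
  · intro x hx
    show B (Γ x) (Γ x) = 0
    rw [hB x hx, det3_self_left]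

end Pool.Agent.MP_ae5b4e_an_P3
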