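import Mathlib
import Pool.Agent.Lib.MP_ae5b4e_an_ALT.TotS

/-!
# MP_ae5b4e_an, project P3 (leaves up to a leaf of 3-periodic points), module Green

The derivative of a line integral along a smooth family of graphs.
-/

noncomputable section

namespace Pool.Agent.MP_ae5b4e_an_P3.Mn

open Set Filter Topology Real MeasureTheory intervalIntegral
open scoped ContDiff
open Pool.Agent.MP_ae5b4e_an_hopf

/-- chain rule for a function of two variables -/
lemma comp2 {S : Set (ℝ × ℝ)} (hS : IsOpen S) {F : ℝ × ℝ → ℝ} (hF : ContDiffOn ℝ ∞ F S)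
    {α β : ℝ → ℝ} {a b r : ℝ} (h1 : HasDerivAt α a r) (h2 : HasDerivAt β b r)
    (hm : (α r, β r) ∈ S) :
    HasDerivAt (fun s => F (α s, β s)) (P1 F (α r, β r) * a + P2 F (α r, β r) * b) r := by
  have h3 : HasFDerivAt F (fderiv ℝ F (α r, β r)) (α r, β r) :=
    ((hF.contDiffAt (hS.mem_nhds hm)).differentiableAt (by simp)).hasFDerivAt
  have h4 := h3.comp_hasDerivAt r (h1.prodMk h2)
  refine h4.congr_deriv ?_
  have e : ((a, b) : ℝ × ℝ) = a • ((1, 0) : ℝ × ℝ) + b • ((0, 1) : ℝ × ℝ) := by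
    ext <;> simp
  rw [e, map_add, map_smul, map_smul]
  simp only [smul_eq_mul, P1, P2]
  ring

lemma contDiffOn_P1 {S : Set (ℝ × ℝ)} (hS : IsOpen S) {F : ℝ × ℝ → ℝ}
    (hF : ContDiffOn ℝ ∞ F S) : ContDiffOn ℝ ∞ (P1 F) S :=
  (hF.fderiv_of_isOpen hS (by simp)).clm_apply contDiffOn_const

lemma contDiffOn_P2 {S : Set (ℝ × ℝ)} (hS : IsOpen S) {F : ℝ × ℝ → ℝ}
    (hF : ContDiffOn ℝ ∞ F S) : ContDiffOn ℝ ∞ (P2 F) S :=
  (hF.fderiv_of_isOpen hS (by simp)).clm_apply contDiffOn_const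

lemma P1_P2_comm {S : Set (ℝ × ℝ)} (hS : IsOpen S) {F : ℝ × ℝ → ℝ} (hF : ContDiffOn ℝ ∞ F S)
    {p : ℝ × ℝ} (hp : p ∈ S) : P1 (P2 F) p = P2 (P1 F) p := by
  have h1 : ContDiffAt ℝ ∞ F p := hF.contDiffAt (hS.mem_nhds hp)
  have h2 := h1.isSymmSndFDerivAt (by
    rw [minSmoothness_of_isRCLikeNormedField]
    exact WithTop.coe_le_coe.2 (le_top : (2 : ℕ∞) ≤ ⊤))
  have h3 : DifferentiableAt ℝ (fderiv ℝ F) p :=
    (h1.fderiv_right (m := ∞) (by simp)).differentiableAt (by simp)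
  have e1 : P1 (P2 F) p = fderiv ℝ (fderiv ℝ F) p (1, 0) (0, 1) := by
    unfold P1 P2
    rw [fderiv_clm_apply h3 (differentiableAt_const _)]
    simp
  have e2 : P2 (P1 F) p = fderiv ℝ (fderiv ℝ F) p (0, 1) (1, 0) := by
    unfold P1 P2
    rw [fderiv_clm_apply h3 (differentiableAt_const _)]
    simp
  rw [e1, e2]
  exact h2 _ _

/-- The change of a line integral along a smooth family of graphs. -/
theorem green {S : Set (ℝ × ℝ)} (hS : IsOpen S) {P Q : ℝ × ℝ → ℝ} (hP : ContDiffOn ℝ ∞ P S)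
    (hQ : ContDiffOn ℝ ∞ Q S) {T : ℝ} (hT : 0 < T)
    (hQp : ∀ t s : ℝ, Q (t + T, s + T) = Q (t, s))
    {f : ℝ × ℝ → ℝ} {I : Set ℝ} (hI : IsOpen I) (hf : ContDiffOn ℝ ∞ f (I ×ˢ univ))
    (hfp : ∀ c ∈ I, ∀ t, f (c, t + T) = f (c, t) + T)
    (hmem : ∀ c ∈ I, ∀ t, (t, f (c, t)) ∈ S)
    {c₁ c₂ : ℝ} (h12 : c₁ ≤ c₂) (hI12 : Icc c₁ c₂ ⊆ I) :
    (∫ t in (0)..T, (P (t, f (c₂, t)) + Q (t, f (c₂, t)) * P2 f (c₂, t))) -
      (∫ t in (0)..T, (P (t, f (c₁, t)) + Q (t, f (c₁, t)) * P2 f (c₁, t))) =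
    ∫ c in c₁..c₂, ∫ t in (0)..T, P1 f (c, t) * (P2 P (t, f (c, t)) - P1 Q (t, f (c, t))) := by
  have hJ : IsOpen (I ×ˢ (univ : Set ℝ)) := hI.prod isOpen_univ
  have f1 := contDiffOn_P1 hJ hf
  have f2 := contDiffOn_P2 hJ hf
  have f12 := contDiffOn_P1 hJ f2
  -- the derivative in the parameter
  set g : ℝ → ℝ → ℝ := fun c t => P (t, f (c, t)) + Q (t, f (c, t)) * P2 f (c, t) with hg
  set dg : ℝ → ℝ → ℝ := fun c t => P2 P (t, f (c, t)) * P1 f (c, t) +
    (P2 Q (t, f (c, t)) * P1 f (c, t) * P2 f (c, t) + Q (t, f (c, t)) * P1 (P2 f) (c, t)) with hdg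
  have hd : ∀ c ∈ I, ∀ t, HasDerivAt (fun c => g c t) (dg c t) c := by
    intro c hc t
    have k0 : HasDerivAt (fun c => f (c, t)) (P1 f (c, t)) c := by
      have := comp2 hJ hf (hasDerivAt_id c) (hasDerivAt_const c t) ⟨hc, mem_univ _⟩
      simpa using this
    have k1 : HasDerivAt (fun c => P2 f (c, t)) (P1 (P2 f) (c, t)) c := by
      have := comp2 hJ f2 (hasDerivAt_id c) (hasDerivAt_const c t) ⟨hc, mem_univ _⟩
      simpa using this
    have k2 := comp2 hS hP (hasDerivAt_const c t) k0 (hmem c hc t)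
    have k3 := comp2 hS hQ (hasDerivAt_const c t) k0 (hmem c hc t)
    refine (k2.add (k3.mul k1)).congr_deriv ?_
    simp only [hdg]
    ring
  -- the derivative in the time
  have ht : ∀ c ∈ I, ∀ t, HasDerivAt (fun t => Q (t, f (c, t)) * P1 f (c, t))
      (dg c t - P1 f (c, t) * (P2 P (t, f (c, t)) - P1 Q (t, f (c, t)))) t := by
    intro c hc t
    have k0 : HasDerivAt (fun t => f (c, t)) (P2 f (c, t)) t := by
      have := comp2 hJ hf (hasDerivAt_const t c) (hasDerivAt_id t) ⟨hc, mem_univ _⟩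
      simpa using this
    have k1 : HasDerivAt (fun t => P1 f (c, t)) (P2 (P1 f) (c, t)) t := by
      have := comp2 hJ f1 (hasDerivAt_const t c) (hasDerivAt_id t) ⟨hc, mem_univ _⟩
      simpa using this
    have k3 := comp2 hS hQ (hasDerivAt_id t) k0 (hmem c hc t)
    refine (k3.mul k1).congr_deriv ?_
    simp only [hdg, id]
    rw [P1_P2_comm hJ hf (⟨hc, mem_univ _⟩ : (c, t) ∈ I ×ˢ univ)]
    ring
  -- continuity
  have cg : ContinuousOn (fun q : ℝ × ℝ => (q.2, f q)) (I ×ˢ univ) :=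
    continuousOn_snd.prodMk hf.continuousOn
  have mg : MapsTo (fun q : ℝ × ℝ => (q.2, f q)) (I ×ˢ univ) S := fun q hq => hmem q.1 hq.1 q.2
  have cdg : ContinuousOn (fun q : ℝ × ℝ => dg q.1 q.2) (I ×ˢ univ) := by
    have e1 := (contDiffOn_P2 hS hP).continuousOn.comp cg mg
    have e2 := (contDiffOn_P2 hS hQ).continuousOn.comp cg mg
    have e3 := hQ.continuousOn.comp cg mg
    exact (e1.mul f1.continuousOn).add
      (((e2.mul f1.continuousOn).mul f2.continuousOn).add (e3.mul f12.continuousOn))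
  have cF : ContinuousOn (fun q : ℝ × ℝ => P1 f q * (P2 P (q.2, f q) - P1 Q (q.2, f q)))
      (I ×ˢ univ) := by
    have e1 := (contDiffOn_P2 hS hP).continuousOn.comp cg mg
    have e2 := (contDiffOn_P1 hS hQ).continuousOn.comp cg mg
    exact f1.continuousOn.mul (e1.sub e2)
  have slice : ∀ {F : ℝ × ℝ → ℝ}, ContinuousOn F (I ×ˢ univ) → ∀ c ∈ I,
      Continuous fun t => F (c, t) := fun hF c hc =>
    hF.comp_continuous (by fun_prop) fun t => ⟨hc, mem_univ _⟩
  -- integration in the time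
  have hleaf : ∀ c ∈ I, ∫ t in (0)..T, dg c t =
      ∫ t in (0)..T, P1 f (c, t) * (P2 P (t, f (c, t)) - P1 Q (t, f (c, t))) := by
    intro c hc
    have i1 : IntervalIntegrable (fun t => dg c t) volume 0 T :=
      (slice cdg c hc).intervalIntegrable _ _
    have i2 : IntervalIntegrable (fun t => P1 f (c, t) *
        (P2 P (t, f (c, t)) - P1 Q (t, f (c, t)))) volume 0 T :=
      (slice cF c hc).intervalIntegrable _ _
    have k := intervalIntegral.integral_eq_sub_of_hasDerivAt (fun t _ => ht c hc t) (i1.sub i2)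
    rw [intervalIntegral.integral_sub i1 i2] at k
    have hp1 : P1 f (c, T) = P1 f (c, 0) := by
      have k0 : HasDerivAt (fun c => f (c, T)) (P1 f (c, T)) c := by
        have := comp2 hJ hf (hasDerivAt_id c) (hasDerivAt_const c T) ⟨hc, mem_univ _⟩
        simpa using this
      have k1 : HasDerivAt (fun c => f (c, 0)) (P1 f (c, 0)) c := by
        have := comp2 hJ hf (hasDerivAt_id c) (hasDerivAt_const c 0) ⟨hc, mem_univ _⟩
        simpa using this
      refine k0.unique ((k1.add_const T).congr_of_eventuallyEq ?_)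
      filter_upwards [hI.mem_nhds hc] with r hr
      have := hfp r hr 0
      rwa [zero_add] at this
    have hp2 : Q (T, f (c, T)) = Q (0, f (c, 0)) := by
      have e1 := hfp c hc 0
      have e2 := hQp 0 (f (c, 0))
      rw [zero_add] at e1 e2
      rw [e1, e2]
    rw [hp1, hp2, sub_self] at k
    linarith
  -- Fubini
  have hsub : Icc c₁ c₂ ×ˢ Icc 0 T ⊆ I ×ˢ (univ : Set ℝ) :=
    fun q hq => ⟨hI12 hq.1, mem_univ _⟩
  have hint : IntegrableOn (Function.uncurry fun c t => dg c t) (uIoc c₁ c₂ ×ˢ uIoc 0 T) := by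
    have h3 : IntegrableOn (Function.uncurry fun c t => dg c t) (Icc c₁ c₂ ×ˢ Icc 0 T) :=
      ContinuousOn.integrableOn_compact (isCompact_Icc.prod isCompact_Icc) (cdg.mono hsub)
    refine h3.mono_set ?_
    rw [uIoc_of_le h12, uIoc_of_le hT.le]
    exact prod_mono Ioc_subset_Icc_self Ioc_subset_Icc_self
  have e1 := MeasureTheory.intervalIntegral_intervalIntegral_swap hint
  have hc1 : c₁ ∈ I := hI12 (left_mem_Icc.2 h12)
  have hc2 : c₂ ∈ I := hI12 (right_mem_Icc.2 h12)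
  have e2 : ∫ t in (0)..T, (∫ c in c₁..c₂, dg c t) = ∫ t in (0)..T, (g c₂ t - g c₁ t) := by
    refine intervalIntegral.integral_congr fun t _ => ?_
    have hcc : ContinuousOn (fun c => dg c t) (uIcc c₁ c₂) := by
      rw [uIcc_of_le h12]
      exact cdg.comp (f := fun c : ℝ => (c, t)) (by fun_prop) fun c hc => ⟨hI12 hc, mem_univ _⟩
    exact intervalIntegral.integral_eq_sub_of_hasDerivAt
      (fun c hc => hd c (hI12 (by rwa [uIcc_of_le h12] at hc)) t) hcc.intervalIntegrable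
  have e3 : ∫ c in c₁..c₂, (∫ t in (0)..T, dg c t) =
      ∫ c in c₁..c₂, ∫ t in (0)..T, P1 f (c, t) * (P2 P (t, f (c, t)) - P1 Q (t, f (c, t))) := by
    refine intervalIntegral.integral_congr fun c hc => ?_
    rw [uIcc_of_le h12] at hc
    exact hleaf c (hI12 hc)
  have cgg : ContinuousOn (fun q : ℝ × ℝ => g q.1 q.2) (I ×ˢ univ) :=
    (hP.continuousOn.comp cg mg).add ((hQ.continuousOn.comp cg mg).mul f2.continuousOn)
  have j1 : IntervalIntegrable (fun t => g c₁ t) volume 0 T :=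
    (slice cgg c₁ hc1).intervalIntegrable _ _
  have j2 : IntervalIntegrable (fun t => g c₂ t) volume 0 T :=
    (slice cgg c₂ hc2).intervalIntegrable _ _
  rw [← e3, e1, e2, intervalIntegral.integral_sub j2 j1]

end Pool.Agent.MP_ae5b4e_an_P3.Mn
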