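import Mathlib
import Pool.Agent.Lib.MP_ae5b4e_an_P3.Green

/-!
# MP_ae5b4e_an, project P3, module MonA

For the fields of a quadratic form, the leaf integral is nondecreasing in the parameter of the leaf.
-/

noncomputable section

namespace Pool.Agent.MP_ae5b4e_an_P3.Mn

open Set Filter Topology Real MeasureTheory intervalIntegral
open scoped ContDiff
open Pool.Agent.MP_ae5b4e_an_total (integral_comp_tau)
open Pool.Agent.MP_ae5b4e_an_hopf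
open Pool.Agent.MP_ae5b4e_an_hopf.Sys (nt nc)
open Pool.Agent.MP_ae5b4e_an_ALT

/-- The data of a quadratic form: the number `u ^ 2 + D t` is the value of the form at the point
with the coordinate `u` on the tangent line at `t`. -/
structure QD (T : ℝ) (Γ : ℝ → Fin 3 → ℝ) (D : ℝ → ℝ) : Prop where
  smooth : ContDiff ℝ ∞ D
  per : ∀ t, D (t + T) = D t
  rel : ∀ t s, t < s → s < t + T →
    dd Γ s t ^ 2 * (L1 Γ s t ^ 2 + D s) = dd Γ t s ^ 2 * (L1 Γ t s ^ 2 + D t)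

variable {Γ : ℝ → Fin 3 → ℝ} {T : ℝ} {U : ℝ → ℝ → ℝ} {D : ℝ → ℝ}

/-- the value of the quadratic form at the intersection point -/
def WW (Γ : ℝ → Fin 3 → ℝ) (D : ℝ → ℝ) (p : ℝ × ℝ) : ℝ := L1 Γ p.1 p.2 ^ 2 + D p.1

/-- the domain of the computation -/
def Dm (T : ℝ) (Γ : ℝ → Fin 3 → ℝ) (D : ℝ → ℝ) : Set (ℝ × ℝ) := {p | p ∈ Rg T ∧ 0 < WW Γ D p}

/-- the coefficients of the line integral -/
def PP (Γ : ℝ → Fin 3 → ℝ) (D : ℝ → ℝ) (p : ℝ × ℝ) : ℝ :=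
  (log (WW Γ D p) / 2 - dl Γ p.1 p.2) * (L1 Γ p.1 p.2 - L2 Γ p.2 p.1)

/-- the coefficients of the line integral -/
def QQ (Γ : ℝ → Fin 3 → ℝ) (D : ℝ → ℝ) (p : ℝ × ℝ) : ℝ :=
  log (WW Γ D p) / 2 * (L2 Γ p.1 p.2 - L1 Γ p.2 p.1)

section curve

variable (hC : Curve T Γ) (hD : QD T Γ D)
include hC hD

lemma isOpen_Dm : IsOpen (Dm T Γ D) := by
  have hc : ContinuousOn (WW Γ D) (Rg T) :=
    (hC.cont_L1.pow 2).add (hD.smooth.continuous.comp continuous_fst).continuousOn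
  exact hc.isOpen_inter_preimage (isOpen_Rg T) isOpen_Ioi

omit hD in
lemma contDiffAt_swap {F : ℝ × ℝ → ℝ} {p : ℝ × ℝ} (hF : ContDiffAt ℝ ∞ F (p.2, p.1)) :
    ContDiffAt ℝ ∞ (fun p : ℝ × ℝ => F (p.2, p.1)) p :=
  ContDiffAt.comp (f := fun p : ℝ × ℝ => (p.2, p.1)) (g := F) p hF
    (contDiff_snd.prodMk contDiff_fst).contDiffAt

lemma contDiffAt_WW {p : ℝ × ℝ} (hp : p ∈ Rg T) : ContDiffAt ℝ ∞ (WW Γ D) p :=
  ((hC.contDiffAt_L1 (hC.ne_right hp)).pow 2).add (hD.smooth.comp contDiff_fst).contDiffAt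

lemma contDiffOn_PP : ContDiffOn ℝ ∞ (PP Γ D) (Dm T Γ D) := by
  intro p hp
  have n1 := hC.ne_right hp.1
  have n2 := hC.ne_left hp.1
  have e1 := (contDiffAt_WW hC hD hp.1).log hp.2.ne'
  have e2 : ContDiffAt ℝ ∞ (fun p : ℝ × ℝ => dl Γ p.1 p.2) p :=
    (hC.contDiff_dd.contDiffAt.log n1).sub (hC.contDiff_dd'.contDiffAt.log n2)
  have e3 := hC.contDiffAt_L1 (p := p) n1
  have e4 : ContDiffAt ℝ ∞ (fun p : ℝ × ℝ => L2 Γ p.2 p.1) p :=
    contDiffAt_swap hC (F := fun p : ℝ × ℝ => L2 Γ p.1 p.2) (hC.contDiffAt_L2 (p := (p.2, p.1)) n2)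
  exact (((e1.div_const 2).sub e2).mul (e3.sub e4)).contDiffWithinAt

lemma contDiffOn_QQ : ContDiffOn ℝ ∞ (QQ Γ D) (Dm T Γ D) := by
  intro p hp
  have n1 := hC.ne_right hp.1
  have n2 := hC.ne_left hp.1
  have e1 := (contDiffAt_WW hC hD hp.1).log hp.2.ne'
  have e3 := hC.contDiffAt_L2 (p := p) n1
  have e4 : ContDiffAt ℝ ∞ (fun p : ℝ × ℝ => L1 Γ p.2 p.1) p :=
    contDiffAt_swap hC (F := fun p : ℝ × ℝ => L1 Γ p.1 p.2) (hC.contDiffAt_L1 (p := (p.2, p.1)) n2)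
  exact ((e1.div_const 2).mul (e3.sub e4)).contDiffWithinAt

lemma QQ_per (t s : ℝ) : QQ Γ D (t + T, s + T) = QQ Γ D (t, s) := by
  unfold QQ WW
  simp only [hC.L1_per_left, hC.L1_per_right, hC.L2_per_left, hC.L2_per_right, hD.per]

/-- the value of the form on the two lines -/
lemma WW_swap_pos {t s : ℝ} (hp : (t, s) ∈ Dm T Γ D) : 0 < WW Γ D (s, t) := by
  have h1 := hC.dd_pos_right hp.1.1 hp.1.2
  have h2 := hC.dd_pos_left hp.1.1 hp.1.2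
  have h3 := hD.rel t s hp.1.1 hp.1.2
  have h4 : 0 < dd Γ s t ^ 2 * WW Γ D (s, t) := by
    have h5 : dd Γ s t ^ 2 * WW Γ D (s, t) = dd Γ t s ^ 2 * WW Γ D (t, s) := h3
    rw [h5]
    exact mul_pos (pow_pos h1 2) hp.2
  exact pos_of_mul_pos_right h4 (sq_nonneg _)

lemma log_rel {t s : ℝ} (hp : (t, s) ∈ Dm T Γ D) :
    log (WW Γ D (s, t)) / 2 - log (WW Γ D (t, s)) / 2 = dl Γ t s := by
  have h1 := hC.dd_pos_right hp.1.1 hp.1.2
  have h2 := hC.dd_pos_left hp.1.1 hp.1.2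
  have h3 : dd Γ s t ^ 2 * WW Γ D (s, t) = dd Γ t s ^ 2 * WW Γ D (t, s) :=
    hD.rel t s hp.1.1 hp.1.2
  have h4 := WW_swap_pos hC hD hp
  have h5 := congrArg Real.log h3
  rw [log_mul (pow_pos h2 2).ne' h4.ne', log_mul (pow_pos h1 2).ne' hp.2.ne', log_pow,
    log_pow] at h5
  unfold dl
  push_cast at h5
  linarith

/-- derivatives of the logarithm of the form -/
lemma hasDerivAt_a_left {t s : ℝ} (hn : dd Γ t s ≠ 0) (hw : WW Γ D (t, s) ≠ 0) :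
    HasDerivAt (fun x => log (WW Γ D (x, s)) / 2)
      ((L1 Γ t s * L11 Γ t s + deriv D t / 2) / WW Γ D (t, s)) t := by
  have h1 := hC.hasDerivAt_L1_left hn
  have h2 : HasDerivAt D (deriv D t) t := (hD.smooth.differentiable (by simp) t).hasDerivAt
  have h3 : HasDerivAt (fun x => WW Γ D (x, s)) (2 * L1 Γ t s * L11 Γ t s + deriv D t) t := by
    refine ((h1.pow 2).add h2).congr_deriv ?_
    simp
  refine ((h3.log hw).div_const 2).congr_deriv ?_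
  field_simp

lemma hasDerivAt_a_right {t s : ℝ} (hn : dd Γ t s ≠ 0) (hw : WW Γ D (t, s) ≠ 0) :
    HasDerivAt (fun y => log (WW Γ D (t, y)) / 2) (L1 Γ t s * KK Γ t s / WW Γ D (t, s)) s := by
  have h1 := hC.hasDerivAt_L1_right hn
  have h3 : HasDerivAt (fun y => WW Γ D (t, y)) (2 * L1 Γ t s * KK Γ t s) s := by
    refine ((h1.pow 2).add_const (D t)).congr_deriv ?_
    simp
  refine ((h3.log hw).div_const 2).congr_deriv ?_
  field_simp

omit hD in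
lemma hasDerivAt_dl_right {t s : ℝ} (hn : dd Γ t s ≠ 0) (hn' : dd Γ s t ≠ 0) :
    HasDerivAt (fun y => dl Γ t y) (L2 Γ t s - L1 Γ s t) s :=
  (hC.hasDerivAt_log_right hn).sub (hC.hasDerivAt_log_left hn')

omit hD in
lemma hasDerivAt_dl_left {t s : ℝ} (hn : dd Γ t s ≠ 0) (hn' : dd Γ s t ≠ 0) :
    HasDerivAt (fun x => dl Γ x s) (L1 Γ t s - L2 Γ s t) t :=
  (hC.hasDerivAt_log_left hn).sub (hC.hasDerivAt_log_right hn')

/-- the derivatives of the relation between the two logarithms -/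
lemma rel_left {t s : ℝ} (hp : (t, s) ∈ Dm T Γ D) :
    L1 Γ s t * KK Γ s t / WW Γ D (s, t) -
      (L1 Γ t s * L11 Γ t s + deriv D t / 2) / WW Γ D (t, s) = L1 Γ t s - L2 Γ s t := by
  have n1 := (hC.dd_pos_right hp.1.1 hp.1.2).ne'
  have n2 := (hC.dd_pos_left hp.1.1 hp.1.2).ne'
  have k1 := hasDerivAt_a_left hC hD n1 hp.2.ne'
  have k2 := hasDerivAt_a_right hC hD n2 (WW_swap_pos hC hD hp).ne'
  have k3 := hasDerivAt_dl_left hC n1 n2
  refine (k2.sub k1).unique (k3.congr_of_eventuallyEq ?_)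
  have ho : ∀ᶠ x in 𝓝 t, (x, s) ∈ Dm T Γ D :=
    (continuous_id.prodMk continuous_const).continuousAt.preimage_mem_nhds
      ((isOpen_Dm hC hD).mem_nhds hp)
  filter_upwards [ho] with x hx
  exact log_rel hC hD hx

lemma rel_right {t s : ℝ} (hp : (t, s) ∈ Dm T Γ D) :
    (L1 Γ s t * L11 Γ s t + deriv D s / 2) / WW Γ D (s, t) -
      L1 Γ t s * KK Γ t s / WW Γ D (t, s) = L2 Γ t s - L1 Γ s t := by
  have n1 := (hC.dd_pos_right hp.1.1 hp.1.2).ne'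
  have n2 := (hC.dd_pos_left hp.1.1 hp.1.2).ne'
  have k1 := hasDerivAt_a_right hC hD n1 hp.2.ne'
  have k2 := hasDerivAt_a_left hC hD n2 (WW_swap_pos hC hD hp).ne'
  have k3 := hasDerivAt_dl_right hC n1 n2
  refine (k2.sub k1).unique (k3.congr_of_eventuallyEq ?_)
  have ho : ∀ᶠ y in 𝓝 s, (t, y) ∈ Dm T Γ D :=
    (continuous_const.prodMk continuous_id).continuousAt.preimage_mem_nhds
      ((isOpen_Dm hC hD).mem_nhds hp)
  filter_upwards [ho] with y hy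
  exact log_rel hC hD hy

lemma P2_PP {t s : ℝ} (hp : (t, s) ∈ Dm T Γ D) :
    P2 (PP Γ D) (t, s) = (L1 Γ t s * KK Γ t s / WW Γ D (t, s) - (L2 Γ t s - L1 Γ s t)) *
      (L1 Γ t s - L2 Γ s t) + (log (WW Γ D (t, s)) / 2 - dl Γ t s) * (KK Γ t s - KK Γ s t) := by
  have n1 := (hC.dd_pos_right hp.1.1 hp.1.2).ne'
  have n2 := (hC.dd_pos_left hp.1.1 hp.1.2).ne'
  have k1 := comp2 (isOpen_Dm hC hD) (contDiffOn_PP hC hD) (hasDerivAt_const s t)
    (hasDerivAt_id s) hp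
  have k2 := ((hasDerivAt_a_right hC hD n1 hp.2.ne').sub (hasDerivAt_dl_right hC n1 n2)).mul
    ((hC.hasDerivAt_L1_right n1).sub (hC.hasDerivAt_L2_left n2))
  have k3 := k1.unique k2
  simp only [mul_zero, zero_add, mul_one, id, Pi.sub_apply] at k3
  exact k3

lemma P1_QQ {t s : ℝ} (hp : (t, s) ∈ Dm T Γ D) :
    P1 (QQ Γ D) (t, s) = (L1 Γ t s * L11 Γ t s + deriv D t / 2) / WW Γ D (t, s) *
      (L2 Γ t s - L1 Γ s t) + log (WW Γ D (t, s)) / 2 * (KK Γ t s - KK Γ s t) := by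
  have n1 := (hC.dd_pos_right hp.1.1 hp.1.2).ne'
  have n2 := (hC.dd_pos_left hp.1.1 hp.1.2).ne'
  have k1 := comp2 (isOpen_Dm hC hD) (contDiffOn_QQ hC hD) (hasDerivAt_id t)
    (hasDerivAt_const t s) hp
  have k2 := (hasDerivAt_a_left hC hD n1 hp.2.ne').mul
    ((hC.hasDerivAt_L2_left n1).sub (hC.hasDerivAt_L1_right n2))
  have k3 := k1.unique k2
  simp only [mul_zero, add_zero, mul_one, id, Pi.sub_apply] at k3
  exact k3

end curve

/-- the density of the leaf integral, to be compared with the limit and with the periodic leaf -/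
def BI (Γ : ℝ → Fin 3 → ℝ) (T : ℝ) (U : ℝ → ℝ → ℝ) (D : ℝ → ℝ) (c t : ℝ) : ℝ :=
  dl Γ t (nxt Γ T U c t) * (KK Γ t (nxt Γ T U c t) * U c t / (U c t ^ 2 + D t) * nt Γ T U c t -
    KK Γ (nxt Γ T U c t) t * U c (nxt Γ T U c t) /
      (U c (nxt Γ T U c t) ^ 2 + D (nxt Γ T U c t)))

/-- the leaf integral -/
def BB (Γ : ℝ → Fin 3 → ℝ) (T : ℝ) (U : ℝ → ℝ → ℝ) (D : ℝ → ℝ) (c : ℝ) : ℝ :=
  ∫ t in (0)..T, BI Γ T U D c t

/-- the density of the derivative of the leaf integral -/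
def EI (Γ : ℝ → Fin 3 → ℝ) (T : ℝ) (U : ℝ → ℝ → ℝ) (D : ℝ → ℝ) (c t : ℝ) : ℝ :=
  nc Γ T U c t * ((KK Γ t (nxt Γ T U c t) * U c t / (U c t ^ 2 + D t) * nt Γ T U c t -
    KK Γ (nxt Γ T U c t) t * U c (nxt Γ T U c t) /
      (U c (nxt Γ T U c t) ^ 2 + D (nxt Γ T U c t))) ^ 2 / nt Γ T U c t +
    dl Γ t (nxt Γ T U c t) * (KK Γ (nxt Γ T U c t) t - KK Γ t (nxt Γ T U c t)))

/-- the transfer density -/
def HI (U : ℝ → ℝ → ℝ) (D : ℝ → ℝ) (c t : ℝ) : ℝ :=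
  (U c t ^ 2 * Ut U (c, t) + U c t * deriv D t / 2) / (U c t ^ 2 + D t) ^ 2

section leaf

variable (h : SSys T Γ U) (hD : QD T Γ D)
include h hD

omit hD in
lemma contDiffOn_nxt : ContDiffOn ℝ ∞ (fun q : ℝ × ℝ => nxt Γ T U q.1 q.2)
    (Ioo 0 1 ×ˢ univ) := by
  have k : ContDiffOn ℝ ∞ (fun q : ℝ × ℝ => (q.2, Uf U q)) (Ioo 0 1 ×ˢ univ) :=
    contDiffOn_snd.prodMk h.contDiffOn
  exact h.curve.contDiff_nx.comp_contDiffOn k

omit hD in
lemma P1_nxt {c : ℝ} (hc : c ∈ Ioo (0:ℝ) 1) (t : ℝ) :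
    P1 (fun q : ℝ × ℝ => nxt Γ T U q.1 q.2) (c, t) = nc Γ T U c t := by
  have k1 := comp2 (isOpen_Ioo.prod isOpen_univ) (contDiffOn_nxt h) (hasDerivAt_id c)
    (hasDerivAt_const c t) ⟨hc, mem_univ _⟩
  have k2 := k1.unique (h.hasDerivAt_nxt_c hc t)
  simpa using k2

omit hD in
lemma P2_nxt {c : ℝ} (hc : c ∈ Ioo (0:ℝ) 1) (t : ℝ) :
    P2 (fun q : ℝ × ℝ => nxt Γ T U q.1 q.2) (c, t) = nt Γ T U c t := by
  have k1 := comp2 (isOpen_Ioo.prod isOpen_univ) (contDiffOn_nxt h) (hasDerivAt_const t c)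
    (hasDerivAt_id t) ⟨hc, mem_univ _⟩
  have k2 := k1.unique (h.hasDerivAt_nxt_t hc t)
  simpa using k2

omit hD in
lemma WW_leaf (c t : ℝ) : WW Γ D (t, nxt Γ T U c t) = U c t ^ 2 + D t := by
  unfold WW
  simp only [(h.nxt_spec c t).2.2, neg_sq]

omit hD in
lemma WW_leaf' {c : ℝ} (hc : c ∈ Ioo (0:ℝ) 1) (t : ℝ) : WW Γ D (nxt Γ T U c t, t) =
    U c (nxt Γ T U c t) ^ 2 + D (nxt Γ T U c t) := by
  unfold WW
  simp only
  rw [← h.feq' hc t]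
  rfl

omit hD in
lemma mem_Dm {c t : ℝ} (hp : 0 < U c t ^ 2 + D t) : (t, nxt Γ T U c t) ∈ Dm T Γ D :=
  ⟨⟨(h.nxt_spec c t).1, (h.nxt_spec c t).2.1⟩, by rw [WW_leaf h]; exact hp⟩

/-- the pointwise identity behind the monotonicity -/
lemma pointwise {c : ℝ} (hc : c ∈ Ioo (0:ℝ) 1) {t : ℝ} (hp : 0 < U c t ^ 2 + D t)
    (hq : 0 < U c (nxt Γ T U c t) ^ 2 + D (nxt Γ T U c t)) :
    nc Γ T U c t * (P2 (PP Γ D) (t, nxt Γ T U c t) - P1 (QQ Γ D) (t, nxt Γ T U c t)) =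
      -(Uc U (c, t) * HI U D c t) + Uc U (c, nxt Γ T U c t) * HI U D c (nxt Γ T U c t) *
        nt Γ T U c t + EI Γ T U D c t := by
  have hm := mem_Dm h hp
  have r1 := rel_left h.curve hD hm
  have r2 := rel_right h.curve hD hm
  rw [P2_PP h.curve hD hm, P1_QQ h.curve hD hm, ← r1, ← r2, WW_leaf h, WW_leaf' h hc]
  obtain ⟨a1, a2, a3⟩ := h.nxt_spec c t
  have hK := (h.curve.KK_pos_right a1 a2).ne'
  have hK' := (h.curve.KK_pos_left a1 a2).ne'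
  have hn := (h.nt_pos hc t).ne'
  have e1 := h.eq_t hc t
  have e2 := h.eq_c hc t
  have e3 : nt Γ T U c t * KK Γ t (nxt Γ T U c t) =
      -(L11 Γ t (nxt Γ T U c t) + Ut U (c, t)) := by
    unfold nt; field_simp
  have e4 : nc Γ T U c t * KK Γ t (nxt Γ T U c t) = -Uc U (c, t) := by
    unfold nc; field_simp
  have e5 : L1 Γ (nxt Γ T U c t) t = U c (nxt Γ T U c t) := (h.feq' hc t).symm
  unfold EI HI
  rw [a3, e5]
  set s := nxt Γ T U c t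
  set n := nt Γ T U c t
  set m := nc Γ T U c t
  set K := KK Γ t s
  set K' := KK Γ s t
  set p := Ut U (c, t)
  set q := Ut U (c, s)
  set w := Uc U (c, t)
  set v := Uc U (c, s)
  set X := U c t
  set Y := U c s
  set V := X ^ 2 + D t with hV
  set V' := Y ^ 2 + D s with hV'
  have hVn : V ≠ 0 := hp.ne'
  have hVn' : V' ≠ 0 := hq.ne'
  have f1 : L11 Γ t s = -p - n * K := by linarith
  have f2 : L11 Γ s t = q - K' / n := by
    field_simp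
    linarith
  have f3 : w = -(m * K) := by linarith
  have f4 : v = -((q - L11 Γ s t) * m) := by linarith
  have f5 : v = -(K' / n * m) := by rw [f4, f2]; ring
  rw [f1, f2, f3, f5]
  field_simp
  ring

end leaf

end Pool.Agent.MP_ae5b4e_an_P3.Mn
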