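import Mathlib
import Pool.Agent.Lib.MP_ae5b4e_an_P3.MonA

/-!
# MP_ae5b4e_an, project P3, module MonB

The monotonicity of the leaf integral.
-/

noncomputable section

namespace Pool.Agent.MP_ae5b4e_an_P3.Mn

open Set Filter Topology Real MeasureTheory intervalIntegral
open scoped ContDiff
open Pool.Agent.MP_ae5b4e_an_total (integral_comp_tau)
open Pool.Agent.MP_ae5b4e_an_hopf
open Pool.Agent.MP_ae5b4e_an_hopf.Sys (nt nc)
open Pool.Agent.MP_ae5b4e_an_ALT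

variable {Γ : ℝ → Fin 3 → ℝ} {T : ℝ} {U : ℝ → ℝ → ℝ} {D : ℝ → ℝ}

variable (h : SSys T Γ U) (hD : QD T Γ D)
include h hD

omit hD in
lemma nt_per {c : ℝ} (hc : c ∈ Ioo (0:ℝ) 1) (t : ℝ) : nt Γ T U c (t + T) = nt Γ T U c t := by
  unfold nt
  rw [h.nxt_per hc, h.curve.L11_per_left, h.curve.L11_per_right, h.curve.KK_per_left,
    h.curve.KK_per_right, h.Ut_per hc]

omit hD in
lemma nc_per {c : ℝ} (hc : c ∈ Ioo (0:ℝ) 1) (t : ℝ) : nc Γ T U c (t + T) = nc Γ T U c t := by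
  unfold nc
  rw [h.nxt_per hc, h.curve.KK_per_left, h.curve.KK_per_right, h.Uc_per hc]

lemma deriv_D_per (t : ℝ) : deriv D (t + T) = deriv D t := by
  have h1 : (fun x => D (x + T)) = D := funext hD.per
  have h2 := congrFun (congrArg deriv h1) t
  rwa [deriv_comp_add_const] at h2

lemma HI_per {c : ℝ} (hc : c ∈ Ioo (0:ℝ) 1) (t : ℝ) : HI U D c (t + T) = HI U D c t := by
  unfold HI
  rw [h.per c hc, h.Ut_per hc, deriv_D_per h hD, hD.per]

lemma EI_per {c : ℝ} (hc : c ∈ Ioo (0:ℝ) 1) (t : ℝ) : EI Γ T U D c (t + T) = EI Γ T U D c t := by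
  unfold EI
  rw [nt_per h hc, nc_per h hc, h.nxt_per hc, h.curve.KK_per_left, h.curve.KK_per_right,
    h.curve.KK_per_left, h.curve.KK_per_right, h.per c hc, h.per c hc, hD.per, hD.per,
    h.curve.dl_per_left, h.curve.dl_per_right]

lemma continuousOn_HI {b : ℝ} (hb : b ≤ 1) (hp : ∀ c ∈ Ioo 0 b, ∀ t, 0 < U c t ^ 2 + D t) :
    ContinuousOn (fun q : ℝ × ℝ => HI U D q.1 q.2) (Ioo 0 b ×ˢ univ) := by
  have hs : Ioo 0 b ×ˢ (univ : Set ℝ) ⊆ Ioo (0:ℝ) 1 ×ˢ univ :=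
    prod_mono (Ioo_subset_Ioo_right hb) Subset.rfl
  have k1 : ContinuousOn (fun q : ℝ × ℝ => U q.1 q.2) (Ioo 0 b ×ˢ univ) :=
    h.smooth.continuousOn.mono hs
  have k2 := h.continuousOn_Ut.mono hs
  have k3 : ContinuousOn (fun q : ℝ × ℝ => D q.2) (Ioo 0 b ×ˢ univ) :=
    (hD.smooth.continuous.comp continuous_snd).continuousOn
  have k4 : ContinuousOn (fun q : ℝ × ℝ => deriv D q.2) (Ioo 0 b ×ˢ univ) :=
    (((contDiff_infty_iff_deriv.1 hD.smooth).2.continuous).comp continuous_snd).continuousOn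
  refine (((k1.pow 2).mul k2).add ((k1.mul k4).div_const 2)).div (((k1.pow 2).add k3).pow 2) ?_
  rintro ⟨c, t⟩ ⟨hc, -⟩
  exact pow_ne_zero 2 (hp c hc t).ne'

omit hD in
lemma leaf_cont {b : ℝ} (hb : b ≤ 1) {g : ℝ × ℝ → ℝ} (hg : ContinuousOn g (Rg T)) :
    ContinuousOn (fun q : ℝ × ℝ => g (q.2, nxt Γ T U q.1 q.2)) (Ioo 0 b ×ˢ univ) := by
  have m : MapsTo (fun q : ℝ × ℝ => (q.2, nxt Γ T U q.1 q.2)) (Ioo 0 b ×ˢ univ) (Rg T) :=
    fun q _ => ⟨(h.nxt_spec q.1 q.2).1, (h.nxt_spec q.1 q.2).2.1⟩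
  exact hg.comp (h.continuousOn_nxt.mono (prod_mono (Ioo_subset_Ioo_right hb) Subset.rfl)) m

omit hD in
lemma continuousOn_nt {b : ℝ} (hb : b ≤ 1) :
    ContinuousOn (fun q : ℝ × ℝ => nt Γ T U q.1 q.2) (Ioo 0 b ×ˢ univ) := by
  have k1 := leaf_cont h hb (g := fun p => L11 Γ p.1 p.2) h.curve.cont_L11
  have k2 := leaf_cont h hb (g := fun p => KK Γ p.1 p.2) h.curve.cont_KK
  have k3 := h.continuousOn_Ut.mono (prod_mono (Ioo_subset_Ioo_right hb) Subset.rfl)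
  exact ((k1.add k3).neg).div k2 fun q _ =>
    (h.curve.KK_pos_right (h.nxt_spec q.1 q.2).1 (h.nxt_spec q.1 q.2).2.1).ne'

omit hD in
lemma continuousOn_nc {b : ℝ} (hb : b ≤ 1) :
    ContinuousOn (fun q : ℝ × ℝ => nc Γ T U q.1 q.2) (Ioo 0 b ×ˢ univ) := by
  have k2 := leaf_cont h hb (g := fun p => KK Γ p.1 p.2) h.curve.cont_KK
  have k3 := h.continuousOn_Uc.mono (prod_mono (Ioo_subset_Ioo_right hb) Subset.rfl)
  exact (k3.neg).div k2 fun q _ =>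
    (h.curve.KK_pos_right (h.nxt_spec q.1 q.2).1 (h.nxt_spec q.1 q.2).2.1).ne'

/-- the bracket -/
lemma continuousOn_br {b : ℝ} (hb : b ≤ 1) (hp : ∀ c ∈ Ioo 0 b, ∀ t, 0 < U c t ^ 2 + D t) :
    ContinuousOn (fun q : ℝ × ℝ => KK Γ q.2 (nxt Γ T U q.1 q.2) * U q.1 q.2 /
      (U q.1 q.2 ^ 2 + D q.2) * nt Γ T U q.1 q.2 -
      KK Γ (nxt Γ T U q.1 q.2) q.2 * U q.1 (nxt Γ T U q.1 q.2) /
      (U q.1 (nxt Γ T U q.1 q.2) ^ 2 + D (nxt Γ T U q.1 q.2))) (Ioo 0 b ×ˢ univ) := by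
  have hs : Ioo 0 b ×ˢ (univ : Set ℝ) ⊆ Ioo (0:ℝ) 1 ×ˢ univ :=
    prod_mono (Ioo_subset_Ioo_right hb) Subset.rfl
  have k1 : ContinuousOn (fun q : ℝ × ℝ => U q.1 q.2) (Ioo 0 b ×ˢ univ) :=
    h.smooth.continuousOn.mono hs
  have k2 : ContinuousOn (fun q : ℝ × ℝ => D q.2) (Ioo 0 b ×ˢ univ) :=
    (hD.smooth.continuous.comp continuous_snd).continuousOn
  have k3 := leaf_cont h hb (g := fun p => KK Γ p.1 p.2) h.curve.cont_KK
  have k4 := leaf_cont h hb (g := fun p => KK Γ p.2 p.1) h.curve.cont_KK'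
  have k5 := continuousOn_nt h hb
  have k6 : ContinuousOn (fun q : ℝ × ℝ => (q.1, nxt Γ T U q.1 q.2)) (Ioo 0 b ×ˢ univ) :=
    continuousOn_fst.prodMk ((contDiffOn_nxt h).continuousOn.mono hs)
  have m6 : MapsTo (fun q : ℝ × ℝ => (q.1, nxt Γ T U q.1 q.2)) (Ioo 0 b ×ˢ univ)
      (Ioo 0 b ×ˢ univ) := fun q hq => ⟨hq.1, mem_univ _⟩
  have k7 := k1.comp k6 m6
  have k8 := k2.comp k6 m6
  refine (((k3.mul k1).div ((k1.pow 2).add k2) ?_).mul k5).sub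
    ((k4.mul k7).div ((k7.pow 2).add k8) ?_)
  · rintro ⟨c, t⟩ ⟨hc, -⟩
    exact (hp c hc t).ne'
  · rintro ⟨c, t⟩ ⟨hc, -⟩
    exact (hp c hc _).ne'

lemma continuousOn_BI {b : ℝ} (hb : b ≤ 1) (hp : ∀ c ∈ Ioo 0 b, ∀ t, 0 < U c t ^ 2 + D t) :
    ContinuousOn (fun q : ℝ × ℝ => BI Γ T U D q.1 q.2) (Ioo 0 b ×ˢ univ) :=
  (leaf_cont h hb (g := fun p => dl Γ p.1 p.2) h.curve.cont_dl).mul (continuousOn_br h hD hb hp)

lemma continuousOn_EI {b : ℝ} (hb : b ≤ 1) (hp : ∀ c ∈ Ioo 0 b, ∀ t, 0 < U c t ^ 2 + D t) :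
    ContinuousOn (fun q : ℝ × ℝ => EI Γ T U D q.1 q.2) (Ioo 0 b ×ˢ univ) := by
  have k1 := leaf_cont h hb (g := fun p => dl Γ p.1 p.2) h.curve.cont_dl
  have k3 := leaf_cont h hb (g := fun p => KK Γ p.1 p.2) h.curve.cont_KK
  have k4 := leaf_cont h hb (g := fun p => KK Γ p.2 p.1) h.curve.cont_KK'
  refine (continuousOn_nc h hb).mul ((((continuousOn_br h hD hb hp).pow 2).div
    (continuousOn_nt h hb) ?_).add (k1.mul (k4.sub k3)))
  rintro ⟨c, t⟩ ⟨hc, -⟩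
  exact (h.nt_pos ⟨hc.1, hc.2.trans_le hb⟩ t).ne'

omit h hD in
lemma slice {b : ℝ} {F : ℝ × ℝ → ℝ} (hF : ContinuousOn F (Ioo 0 b ×ˢ univ)) {c : ℝ}
    (hc : c ∈ Ioo 0 b) : Continuous fun t => F (c, t) :=
  hF.comp_continuous (by fun_prop) fun t => ⟨hc, mem_univ _⟩

/-- the identity on a leaf -/
lemma leaf_id {b : ℝ} (hb : b ≤ 1) (hp : ∀ c ∈ Ioo 0 b, ∀ t, 0 < U c t ^ 2 + D t) {c : ℝ}
    (hc : c ∈ Ioo 0 b) :
    ∫ t in (0)..T, P1 (fun q : ℝ × ℝ => nxt Γ T U q.1 q.2) (c, t) *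
      (P2 (PP Γ D) (t, nxt Γ T U c t) - P1 (QQ Γ D) (t, nxt Γ T U c t)) =
    ∫ t in (0)..T, EI Γ T U D c t := by
  have hc1 : c ∈ Ioo (0:ℝ) 1 := ⟨hc.1, hc.2.trans_le hb⟩
  have e : ∀ t, P1 (fun q : ℝ × ℝ => nxt Γ T U q.1 q.2) (c, t) *
      (P2 (PP Γ D) (t, nxt Γ T U c t) - P1 (QQ Γ D) (t, nxt Γ T U c t)) =
      (-(Uc U (c, t) * HI U D c t) + Uc U (c, nxt Γ T U c t) * HI U D c (nxt Γ T U c t) *
        nt Γ T U c t) + EI Γ T U D c t := by
    intro t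
    rw [P1_nxt h hc1, pointwise h hD hc1 (hp c hc t) (hp c hc _)]
  have cF : Continuous fun t => Uc U (c, t) * HI U D c t :=
    (h.continuous_Uc hc1).mul (slice (continuousOn_HI h hD hb hp) hc)
  have cG : Continuous fun t => Uc U (c, nxt Γ T U c t) * HI U D c (nxt Γ T U c t) *
      nt Γ T U c t := (cF.comp (h.continuous_nxt hc1)).mul (h.continuous_nt hc1)
  have cE : Continuous fun t => EI Γ T U D c t := slice (continuousOn_EI h hD hb hp) hc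
  have h1 := integral_comp_tau (F := fun t => Uc U (c, t) * HI U D c t)
    (h.hasDerivAt_nxt_t hc1) (h.continuous_nt hc1) (h.nxt_T hc1) cF
    (fun t => by simp only [h.Uc_per hc1, HI_per h hD hc1])
  rw [intervalIntegral.integral_congr (fun t _ => e t)]
  have i1 : IntervalIntegrable (fun t => -(Uc U (c, t) * HI U D c t)) volume 0 T :=
    cF.neg.intervalIntegrable _ _
  have i2 : IntervalIntegrable (fun t => Uc U (c, nxt Γ T U c t) * HI U D c (nxt Γ T U c t) *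
      nt Γ T U c t) volume 0 T := cG.intervalIntegrable _ _
  have i3 : IntervalIntegrable (fun t => EI Γ T U D c t) volume 0 T := cE.intervalIntegrable _ _
  rw [intervalIntegral.integral_add (i1.add i2) i3, intervalIntegral.integral_add i1 i2,
    intervalIntegral.integral_neg, h1]
  ring

/-- the line integral is the leaf integral -/
lemma line_eq_BB {b : ℝ} (hb : b ≤ 1) (hp : ∀ c ∈ Ioo 0 b, ∀ t, 0 < U c t ^ 2 + D t) {c : ℝ}
    (hc : c ∈ Ioo 0 b) :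
    ∫ t in (0)..T, (PP Γ D (t, nxt Γ T U c t) + QQ Γ D (t, nxt Γ T U c t) *
      P2 (fun q : ℝ × ℝ => nxt Γ T U q.1 q.2) (c, t)) = BB Γ T U D c := by
  have hc1 : c ∈ Ioo (0:ℝ) 1 := ⟨hc.1, hc.2.trans_le hb⟩
  set φ : ℝ → ℝ := fun t => log (U c t ^ 2 + D t) / 2 * dl Γ t (nxt Γ T U c t) with hφ
  set F : ℝ → ℝ := fun t => PP Γ D (t, nxt Γ T U c t) + QQ Γ D (t, nxt Γ T U c t) *
      P2 (fun q : ℝ × ℝ => nxt Γ T U q.1 q.2) (c, t) with hF
  have hd : ∀ t, HasDerivAt φ (F t - BI Γ T U D c t) t := by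
    intro t
    have hm := mem_Dm h (hp c hc t)
    obtain ⟨a1, a2, a3⟩ := h.nxt_spec c t
    have n1 := (h.curve.dd_pos_right a1 a2).ne'
    have n2 := (h.curve.dd_pos_left a1 a2).ne'
    have hK := (h.curve.KK_pos_right a1 a2).ne'
    have k1 : HasDerivAt (fun t => U c t) (Ut U (c, t)) t := h.hasDerivAt_t hc1 t
    have k2 : HasDerivAt D (deriv D t) t := (hD.smooth.differentiable (by simp) t).hasDerivAt
    have k3 := (((k1.pow 2).add k2).log (hp c hc t).ne').div_const 2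
    have k4 := h.hasDerivAt_nxt_t hc1 t
    have k5 := (h.curve.hasDerivAt_log_comp (hasDerivAt_id t) k4 n1).sub
      (h.curve.hasDerivAt_log_comp k4 (hasDerivAt_id t) n2)
    refine (k3.mul k5).congr_deriv ?_
    have r1 := rel_left h.curve hD hm
    have e3 : nt Γ T U c t * KK Γ t (nxt Γ T U c t) =
        -(L11 Γ t (nxt Γ T U c t) + Ut U (c, t)) := by
      unfold nt; field_simp
    have e5 : L1 Γ (nxt Γ T U c t) t = U c (nxt Γ T U c t) := (h.feq' hc1 t).symm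
    have f1 : L11 Γ t (nxt Γ T U c t) = -Ut U (c, t) -
      nt Γ T U c t * KK Γ t (nxt Γ T U c t) := by linarith
    have hV := (hp c hc t).ne'
    have hV' := (hp c hc (nxt Γ T U c t)).ne'
    rw [WW_leaf h, WW_leaf' h hc1, e5, f1, a3] at r1
    have hb : KK Γ (nxt Γ T U c t) t * U c (nxt Γ T U c t) /
        (U c (nxt Γ T U c t) ^ 2 + D (nxt Γ T U c t)) =
        (-U c t * (-Ut U (c, t) - nt Γ T U c t * KK Γ t (nxt Γ T U c t)) + deriv D t / 2) /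
          (U c t ^ 2 + D t) + (-U c t - L2 Γ (nxt Γ T U c t) t) := by
      rw [← r1]; ring
    simp only [hF, BI, PP, QQ]
    rw [P2_nxt h hc1, WW_leaf h, e5, a3, hb]
    simp only [id, dl, Pi.sub_apply, Pi.add_apply, Pi.pow_apply]
    rw [e5, a3]
    field_simp
    ring
  have cB : Continuous fun t => BI Γ T U D c t := slice (continuousOn_BI h hD hb hp) hc
  have hmem : ∀ t, (t, nxt Γ T U c t) ∈ Dm T Γ D := fun t => mem_Dm h (hp c hc t)
  have cl : Continuous fun t => (t, nxt Γ T U c t) :=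
    continuous_id.prodMk (h.continuous_nxt hc1)
  have cF : Continuous F := by
    have e1 := (contDiffOn_PP h.curve hD).continuousOn.comp_continuous cl hmem
    have e2 := (contDiffOn_QQ h.curve hD).continuousOn.comp_continuous cl hmem
    have e3 : Continuous fun t => P2 (fun q : ℝ × ℝ => nxt Γ T U q.1 q.2) (c, t) := by
      have : (fun t => P2 (fun q : ℝ × ℝ => nxt Γ T U q.1 q.2) (c, t)) = nt Γ T U c :=
        funext fun t => P2_nxt h hc1 t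
      rw [this]
      exact h.continuous_nt hc1
    exact e1.add (e2.mul e3)
  have i1 : IntervalIntegrable F volume 0 T := cF.intervalIntegrable _ _
  have i2 : IntervalIntegrable (fun t => BI Γ T U D c t) volume 0 T := cB.intervalIntegrable _ _
  have k := intervalIntegral.integral_eq_sub_of_hasDerivAt (fun t _ => hd t) (i1.sub i2)
  rw [intervalIntegral.integral_sub i1 i2] at k
  have hφT : φ T = φ 0 := by
    simp only [hφ]
    have e1 := h.per c hc1 0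
    have e2 := hD.per 0
    have e3 := h.nxt_per hc1 0
    have e4 := h.curve.dl_per_left 0 (nxt Γ T U c 0 + T)
    rw [zero_add] at e1 e2 e3 e4
    rw [e1, e2, e3, e4, h.curve.dl_per_right]
  rw [hφT, sub_self] at k
  unfold BB
  linarith

/-- **The monotonicity formula.** -/
theorem BB_sub {b : ℝ} (hb : b ≤ 1) (hp : ∀ c ∈ Ioo 0 b, ∀ t, 0 < U c t ^ 2 + D t)
    {c₁ c₂ : ℝ} (h1 : 0 < c₁) (h12 : c₁ ≤ c₂) (h2 : c₂ < b) :
    BB Γ T U D c₂ - BB Γ T U D c₁ =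
      ∫ c in c₁..c₂, ∫ t in (0)..T, EI Γ T U D c t := by
  have hs : Icc c₁ c₂ ⊆ Ioo 0 b := fun c hc => ⟨h1.trans_le hc.1, hc.2.trans_lt h2⟩
  have hs1 : Ioo 0 b ⊆ Ioo (0:ℝ) 1 := Ioo_subset_Ioo_right hb
  have k := green (isOpen_Dm h.curve hD) (contDiffOn_PP h.curve hD) (contDiffOn_QQ h.curve hD)
    h.T_pos (fun t s => QQ_per h.curve hD t s) (f := fun q : ℝ × ℝ => nxt Γ T U q.1 q.2)
    isOpen_Ioo ((contDiffOn_nxt h).mono (prod_mono hs1 Subset.rfl))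
    (fun c hc t => h.nxt_per (hs1 hc) t) (fun c hc t => mem_Dm h (hp c hc t)) h12 hs
  rw [line_eq_BB h hD hb hp (hs (left_mem_Icc.2 h12)),
    line_eq_BB h hD hb hp (hs (right_mem_Icc.2 h12))] at k
  rw [k]
  refine intervalIntegral.integral_congr fun c hc => ?_
  rw [uIcc_of_le h12] at hc
  exact leaf_id h hD hb hp (hs hc)

end Pool.Agent.MP_ae5b4e_an_P3.Mn
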