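import Mathlib
import Pool.Agent.Lib.MP_ae5b4e_an_P3.MonB

/-!
# MP_ae5b4e_an, project P3, module Lim

The leaf integral tends to zero at the curve; consequences of the monotonicity.
-/

noncomputable section

namespace Pool.Agent.MP_ae5b4e_an_P3.Mn

open Set Filter Topology Real MeasureTheory intervalIntegral
open scoped ContDiff
open Pool.Agent.MP_ae5b4e_an_total (integral_comp_tau)
open Pool.Agent.MP_ae5b4e_an_hopf
open Pool.Agent.MP_ae5b4e_an_hopf.Sys (nt nc)
open Pool.Agent.MP_ae5b4e_an_ALT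

variable {Γ : ℝ → Fin 3 → ℝ} {T : ℝ} {U : ℝ → ℝ → ℝ} {D : ℝ → ℝ}

/-- leaves with a small parameter are close to the curve -/
lemma exists_close (h : SSys T Γ U) {ε : ℝ} (hε : 0 < ε) (hε' : ε < T) :
    ∃ c ∈ Ioo (0:ℝ) 1, ∀ t, nxt Γ T U c t < t + ε := by
  have hT := h.T_pos
  -- bound for the coordinates at distance `ε`
  have hcont : Continuous fun t => -L1 Γ t (t + ε) :=
    (h.curve.cont_L1.comp_continuous (f := fun t : ℝ => (t, t + ε)) (by fun_prop)
      fun t => ⟨by simpa using hε, by simpa using hε'⟩).neg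
  obtain ⟨M, hM⟩ := (isCompact_Icc (a := (0:ℝ)) (b := T)).exists_bound_of_continuousOn
    hcont.continuousOn
  have hM' : ∀ t, -L1 Γ t (t + ε) ≤ M := by
    intro t
    have hper : Function.Periodic (fun t => -L1 Γ t (t + ε)) T := by
      intro t
      have e : t + T + ε = (t + ε) + T := by ring
      simp only [e, h.curve.L1_per_left, h.curve.L1_per_right]
    obtain ⟨z, hz, hz'⟩ := hper.exists_mem_Ico₀ hT t
    rw [hz']
    exact (le_abs_self _).trans (hM z ⟨hz.1, hz.2.le⟩)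
  -- a leaf with larger coordinates
  set cn : ℕ → ℝ := fun n => 1 / ((n:ℝ) + 2) with hcn
  have hcn1 : ∀ n, cn n ∈ Ioo (0:ℝ) 1 := by
    intro n
    simp only [hcn]
    have : (0:ℝ) ≤ n := n.cast_nonneg
    constructor
    · positivity
    · rw [div_lt_one (by positivity)]; linarith
  have hcn0 : Tendsto cn atTop (𝓝[>] 0) := by
    refine tendsto_nhdsWithin_of_tendsto_nhds_of_eventually_within _ ?_
      (Eventually.of_forall fun n => (hcn1 n).1)
    have k : Tendsto (fun n : ℕ => 1 / (((n + 1 : ℕ) : ℝ) + 1)) atTop (𝓝 0) :=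
      (tendsto_one_div_add_atTop_nhds_zero_nat (𝕜 := ℝ)).comp (tendsto_add_atTop_nat 1)
    refine k.congr fun n => ?_
    simp only [hcn]
    push_cast
    ring_nf
  have hanti : ∀ m n, m ≤ n → cn n ≤ cn m := by
    intro m n hmn
    simp only [hcn]
    have : (m:ℝ) ≤ n := by exact_mod_cast hmn
    have : (0:ℝ) ≤ m := m.cast_nonneg
    exact one_div_le_one_div_of_le (by positivity) (by linarith)
  set V : ℕ → Set ℝ := fun n => {t | M < Uf U (cn n, t)} with hV
  have hVo : ∀ n, IsOpen (V n) := fun n => isOpen_lt continuous_const (h.continuous_Uf (hcn1 n))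
  have hVmono : ∀ m n, m ≤ n → V m ⊆ V n := by
    intro m n hmn t ht
    have h1 : M < Uf U (cn m, t) := ht
    have h2 : Uf U (cn m, t) ≤ Uf U (cn n, t) :=
      (h.strictAnti t).antitoneOn (hcn1 n) (hcn1 m) (hanti m n hmn)
    exact h1.trans_le h2
  have hcov : Icc 0 T ⊆ ⋃ n, V n := by
    intro t _
    have k1 : ∀ᶠ n in atTop, M < U (cn n) t := ((h.lim0 t).comp hcn0).eventually_gt_atTop M
    obtain ⟨n, hn⟩ := k1.exists
    exact mem_iUnion.2 ⟨n, hn⟩
  obtain ⟨n, hn⟩ := (isCompact_Icc (a := (0:ℝ)) (b := T)).elim_directed_cover V hVo hcov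
    (fun m n => ⟨max m n, hVmono _ _ (le_max_left _ _), hVmono _ _ (le_max_right _ _)⟩)
  refine ⟨cn n, hcn1 n, fun t => ?_⟩
  have hper : Function.Periodic (fun t => Uf U (cn n, t)) T := h.Uf_per (hcn1 n)
  obtain ⟨z, hz, hz'⟩ := hper.exists_mem_Ico₀ hT t
  have k1 : M < Uf U (cn n, t) := by
    rw [hz']
    exact hn ⟨hz.1, hz.2.le⟩
  obtain ⟨a1, a2, a3⟩ := h.nxt_spec (cn n) t
  refine ((h.curve.strictMono_L1 t).lt_iff_lt ⟨a1, a2⟩ ⟨by linarith, by linarith⟩).1 ?_
  show L1 Γ t _ < L1 Γ t (t + ε)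
  rw [a3]
  have k2 := hM' t
  have k3 : Uf U (cn n, t) = U (cn n) t := rfl
  linarith

/-- the leaves are strictly increasing in the parameter -/
lemma nxt_strictMono (h : SSys T Γ U) {c c' : ℝ} (hc : c ∈ Ioo (0:ℝ) 1) (hc' : c' ∈ Ioo (0:ℝ) 1)
    (hcc : c < c') (t : ℝ) : nxt Γ T U c t < nxt Γ T U c' t :=
  h.curve.nx_strictAnti t (h.strictAnti t hc hc' hcc)

/-- bounds near the diagonal -/
lemma near_dl (hC : Curve T Γ) (hW : ∀ y, Wr Γ y = 1) :
    ∃ C, 0 ≤ C ∧ ∀ x y : ℝ, x ≠ y → |x - y| ≤ T / 2 → |dl Γ x y| ≤ C * (x - y) ^ 2 := by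
  have hT := hC.T_pos
  obtain ⟨C, hC0, hq⟩ := hC.nice_el.quad hT (c := Real.log (1 / 2))
    (fun x => by rw [hC.el_diag, hW]) (fun x => hC.el_P2_zero hW x)
  refine ⟨2 * C, by positivity, fun x y hne hxy => ?_⟩
  have hlt : |x - y| < T := by linarith
  have hlt' : |y - x| < T := by rwa [abs_sub_comm]
  have e : dl Γ x y = (el Γ (x, y) - Real.log (1 / 2)) - (el Γ (y, x) - Real.log (1 / 2)) := by
    unfold dl
    rw [hC.log_dd hne hlt, hC.log_dd hne.symm hlt']
    have e2 : Real.log (y - x) = Real.log (x - y) := by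
      rw [← Real.log_neg_eq_log (x - y)]
      congr 1
      ring
    rw [e2]
    ring
  have h1 := hq x y hxy
  have h2 := hq y x (by rwa [abs_sub_comm])
  have e3 : (y - x) ^ 2 = (x - y) ^ 2 := by ring
  rw [e3] at h2
  rw [e]
  have h3 := abs_sub (el Γ (x, y) - Real.log (1 / 2)) (el Γ (y, x) - Real.log (1 / 2))
  linarith

/-- bound of the quotient near the diagonal -/
lemma near_W (hC : Curve T Γ) (hD : QD T Γ D) :
    ∃ η, 0 < η ∧ η ≤ T / 2 ∧ ∀ x y : ℝ, x ≠ y → |x - y| ≤ η →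
      |KK Γ x y * L1 Γ x y / (L1 Γ x y ^ 2 + D x)| ≤ 18 / |x - y| := by
  have hT := hC.T_pos
  obtain ⟨C1, hC1, b1⟩ := hC.nice_el.P1.bounded hT
  obtain ⟨C2, hC2, b2⟩ := hC.KK_bound
  obtain ⟨C3, hC3⟩ := (isCompact_Icc (a := (0:ℝ)) (b := T)).exists_bound_of_continuousOn
    hD.smooth.continuous.continuousOn
  have hDb : ∀ t, |D t| ≤ C3 := by
    intro t
    obtain ⟨z, hz, hz'⟩ := (show Function.Periodic D T from hD.per).exists_mem_Ico₀ hT t
    rw [hz']
    exact hC3 z ⟨hz.1, hz.2.le⟩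
  have hC30 : 0 ≤ C3 := (abs_nonneg _).trans (hDb 0)
  set η := min (T / 2) (1 / (1 + C1 + C2 + 2 * C3)) with hη
  have hM : 0 < 1 + C1 + C2 + 2 * C3 := by positivity
  have hη0 : 0 < η := lt_min (by positivity) (by positivity)
  refine ⟨η, hη0, min_le_left _ _, fun x y hne hxy => ?_⟩
  set z := |x - y| with hz
  have hz0 : 0 < z := abs_pos.2 (sub_ne_zero.2 hne)
  have hzT : z ≤ T / 2 := hxy.trans (min_le_left _ _)
  have hzM : z * (1 + C1 + C2 + 2 * C3) ≤ 1 := by
    have := hxy.trans (min_le_right _ _)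
    rwa [le_div_iff₀ hM] at this
  have hz1 : z ≤ 1 := by
    nlinarith [mul_nonneg hz0.le hC1, mul_nonneg hz0.le hC2, mul_nonneg hz0.le hC30]
  have hzC1 : z * C1 ≤ 1 := by nlinarith [mul_nonneg hz0.le hC2, mul_nonneg hz0.le hC30]
  have hzC2 : z * C2 ≤ 1 := by nlinarith [mul_nonneg hz0.le hC1, mul_nonneg hz0.le hC30]
  have hzC3 : z * (2 * C3) ≤ 1 := by nlinarith [mul_nonneg hz0.le hC1, mul_nonneg hz0.le hC2]
  have hlt : |x - y| < T := by rw [← hz]; linarith
  -- the first logarithmic derivative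
  have hL : |L1 Γ x y - 2 / (x - y)| ≤ C1 := by
    rw [hC.L1_eq hne hlt]
    have := b1 (x, y) hzT
    rwa [add_sub_cancel_left]
  have h2z : |2 / (x - y)| = 2 / z := by rw [abs_div, abs_two]
  have hL1 : |L1 Γ x y| ≤ 3 / z := by
    have h3 : |L1 Γ x y| ≤ |L1 Γ x y - 2 / (x - y)| + |2 / (x - y)| := by
      have := abs_add_le (L1 Γ x y - 2 / (x - y)) (2 / (x - y))
      rwa [sub_add_cancel] at this
    have h4 : C1 ≤ 1 / z := by rw [le_div_iff₀ hz0]; linarith
    have h5 : 3 / z = 1 / z + 2 / z := by ring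
    rw [h5]
    rw [h2z] at h3
    linarith
  have hL2 : 1 / z ≤ |L1 Γ x y| := by
    have h3 : |2 / (x - y)| ≤ |L1 Γ x y - 2 / (x - y)| + |L1 Γ x y| := by
      have := abs_sub (L1 Γ x y) (L1 Γ x y - 2 / (x - y))
      rw [sub_sub_cancel] at this
      linarith
    have h4 : C1 ≤ 1 / z := by rw [le_div_iff₀ hz0]; linarith
    have h5 : 2 / z = 1 / z + 1 / z := by ring
    rw [h2z, h5] at h3
    linarith
  have hKp := hC.KK_pos hne hlt
  have hK : KK Γ x y ≤ 3 / z ^ 2 := by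
    have h3 := b2 x y hne hzT
    rw [← sq_abs (x - y), ← hz] at h3
    have h4 : C2 ≤ 1 / z ^ 2 := by
      rw [le_div_iff₀ (by positivity)]
      nlinarith [mul_nonneg hz0.le hC2]
    have h5 : 3 / z ^ 2 = 2 / z ^ 2 + 1 / z ^ 2 := by ring
    rw [h5]
    linarith
  have hV : 1 / (2 * z ^ 2) ≤ L1 Γ x y ^ 2 + D x := by
    have h3 : (1 / z) ^ 2 ≤ L1 Γ x y ^ 2 := by
      rw [← sq_abs (L1 Γ x y)]
      exact pow_le_pow_left₀ (by positivity) hL2 2
    have h4 : C3 ≤ 1 / (2 * z ^ 2) := by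
      rw [le_div_iff₀ (by positivity)]
      nlinarith [mul_nonneg hz0.le hC30]
    have h5 := (abs_le.1 (hDb x)).1
    have h6 : (1 / z) ^ 2 = 1 / (2 * z ^ 2) + 1 / (2 * z ^ 2) := by field_simp; norm_num
    linarith
  have hVp : 0 < L1 Γ x y ^ 2 + D x := lt_of_lt_of_le (by positivity) hV
  rw [abs_div, abs_mul, abs_of_pos hKp, abs_of_pos hVp, div_le_div_iff₀ hVp hz0]
  have h7 : KK Γ x y * |L1 Γ x y| ≤ 3 / z ^ 2 * (3 / z) :=
    mul_le_mul hK hL1 (abs_nonneg _) (by positivity)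
  have h8 : KK Γ x y * |L1 Γ x y| * z ≤ 9 / z ^ 2 := by
    calc KK Γ x y * |L1 Γ x y| * z ≤ 3 / z ^ 2 * (3 / z) * z :=
          mul_le_mul_of_nonneg_right h7 hz0.le
      _ = 9 / z ^ 2 := by field_simp; norm_num
  have h9 : 9 / z ^ 2 = 18 * (1 / (2 * z ^ 2)) := by field_simp; norm_num
  rw [h9] at h8
  exact h8.trans (mul_le_mul_of_nonneg_left hV (by norm_num))

variable (h : SSys T Γ U) (hD : QD T Γ D)
include h hD

/-- The leaf integral of a leaf near the curve is small. -/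
lemma BB_small (hW : ∀ y, Wr Γ y = 1) {b : ℝ} (hb : b ≤ 1) :
    ∃ C η, 0 ≤ C ∧ 0 < η ∧ ∀ c ∈ Ioo 0 b, ∀ ε ≤ η, (∀ t, nxt Γ T U c t < t + ε) →
      |BB Γ T U D c| ≤ C * ε := by
  have hT := h.T_pos
  obtain ⟨C1, hC1, b1⟩ := near_dl h.curve hW
  obtain ⟨η, hη0, hηT, b2⟩ := near_W h.curve hD
  refine ⟨36 * C1 * T, η, by positivity, hη0, fun c hc ε hε hclose => ?_⟩
  have hc1 : c ∈ Ioo (0:ℝ) 1 := ⟨hc.1, hc.2.trans_le hb⟩
  have hbd : ∀ t, |BI Γ T U D c t| ≤ 18 * C1 * ε * (nt Γ T U c t + 1) := by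
    intro t
    obtain ⟨a1, a2, a3⟩ := h.nxt_spec c t
    have hcl := hclose t
    have hnt := h.nt_pos hc1 t
    set s := nxt Γ T U c t with hs
    have habs : |t - s| = s - t := by rw [abs_sub_comm, abs_of_pos (by linarith)]
    have habs' : |s - t| = s - t := abs_of_pos (by linarith)
    have h1 := b1 t s a1.ne (by rw [habs]; linarith)
    have h2 := b2 t s a1.ne (by rw [habs]; linarith)
    have h3 := b2 s t a1.ne' (by rw [habs']; linarith)
    have e5 : L1 Γ s t = U c s := (h.feq' hc1 t).symm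
    rw [a3, habs] at h2
    rw [e5, habs'] at h3
    have hz : 0 < s - t := by linarith
    have e6 : KK Γ t s * U c t / (U c t ^ 2 + D t) =
        -(KK Γ t s * -U c t / ((-U c t) ^ 2 + D t)) := by
      rw [neg_sq]; ring
    have h4 : |KK Γ t s * U c t / (U c t ^ 2 + D t)| ≤ 18 / (s - t) := by
      rw [e6, abs_neg]; exact h2
    unfold BI
    rw [← hs, abs_mul]
    have h5 : |KK Γ t s * U c t / (U c t ^ 2 + D t) * nt Γ T U c t -
        KK Γ s t * U c s / (U c s ^ 2 + D s)| ≤ 18 / (s - t) * (nt Γ T U c t + 1) := by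
      refine (abs_sub _ _).trans ?_
      rw [abs_mul, abs_of_pos hnt]
      have := mul_le_mul_of_nonneg_right h4 hnt.le
      linarith
    have h6 : |dl Γ t s| * |KK Γ t s * U c t / (U c t ^ 2 + D t) * nt Γ T U c t -
        KK Γ s t * U c s / (U c s ^ 2 + D s)| ≤
        C1 * (t - s) ^ 2 * (18 / (s - t) * (nt Γ T U c t + 1)) :=
      mul_le_mul h1 h5 (abs_nonneg _) (by positivity)
    refine h6.trans ?_
    have e7 : C1 * (t - s) ^ 2 * (18 / (s - t) * (nt Γ T U c t + 1)) =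
        18 * C1 * (s - t) * (nt Γ T U c t + 1) := by
      have : s - t ≠ 0 := hz.ne'
      field_simp
      ring
    rw [e7]
    refine mul_le_mul_of_nonneg_right ?_ (by linarith)
    exact mul_le_mul_of_nonneg_left (by linarith) (by positivity)
  have cn := h.continuous_nt hc1
  have i1 : IntervalIntegrable (fun t => 18 * C1 * ε * (nt Γ T U c t + 1)) volume 0 T :=
    (continuous_const.mul (cn.add continuous_const)).intervalIntegrable _ _
  have k1 : ‖∫ t in (0)..T, BI Γ T U D c t‖ ≤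
      |∫ t in (0)..T, 18 * C1 * ε * (nt Γ T U c t + 1)| :=
    intervalIntegral.norm_integral_le_abs_of_norm_le
      (Eventually.of_forall fun t => hbd t) i1
  have k2 : ∫ t in (0)..T, nt Γ T U c t = T := by
    rw [intervalIntegral.integral_eq_sub_of_hasDerivAt (fun t _ => h.hasDerivAt_nxt_t hc1 t)
      (cn.intervalIntegrable _ _), h.nxt_T hc1]
    ring
  have k3 : ∫ t in (0)..T, 18 * C1 * ε * (nt Γ T U c t + 1) = 36 * C1 * T * ε := by
    rw [intervalIntegral.integral_const_mul, intervalIntegral.integral_add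
      (cn.intervalIntegrable _ _) intervalIntegrable_const, k2]
    simp
    ring
  have hε0 : 0 < ε := by
    have h1 := hclose 0
    have h2 := (h.nxt_spec c 0).1
    linarith
  rw [k3, abs_of_nonneg (by positivity)] at k1
  exact k1

end Pool.Agent.MP_ae5b4e_an_P3.Mn
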