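import Mathlib
import Pool.Agent.Lib.MP_ae5b4e_an_P3.Lim

/-!
# MP_ae5b4e_an, project P3, module Concl

If the leaf integral of one leaf is not positive, then the curve is symmetric below this leaf.
-/

noncomputable section

namespace Pool.Agent.MP_ae5b4e_an_P3.Mn

open Set Filter Topology Real MeasureTheory intervalIntegral
open scoped ContDiff
open Pool.Agent.MP_ae5b4e_an_hopf
open Pool.Agent.MP_ae5b4e_an_hopf.Sys (nt nc)
open Pool.Agent.MP_ae5b4e_an_ALT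

variable {Γ : ℝ → Fin 3 → ℝ} {T : ℝ} {U : ℝ → ℝ → ℝ} {D : ℝ → ℝ}

/-- the sign of the density -/
lemma dl_KK (hC : Curve T Γ) (hW : ∀ y, Wr Γ y = 1) {t s : ℝ} (h1 : t < s) (h2 : s < t + T) :
    0 ≤ dl Γ t s * (KK Γ s t - KK Γ t s) ∧
      (dl Γ t s * (KK Γ s t - KK Γ t s) = 0 → dd Γ t s = dd Γ s t) := by
  have hA := hC.dd_pos_right h1 h2
  have hB := hC.dd_pos_left h1 h2
  have e : KK Γ s t - KK Γ t s =
      (dd Γ t s ^ 3 - dd Γ s t ^ 3) / (dd Γ s t ^ 2 * dd Γ t s ^ 2) := by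
    unfold KK
    rw [hW, hW]
    field_simp
  have hden : 0 < dd Γ s t ^ 2 * dd Γ t s ^ 2 := by positivity
  unfold dl
  rw [e]
  rcases lt_trichotomy (dd Γ t s) (dd Γ s t) with hlt | heq | hgt
  · have k1 : log (dd Γ t s) < log (dd Γ s t) := log_lt_log hA hlt
    have k2 : dd Γ t s ^ 3 < dd Γ s t ^ 3 := pow_lt_pow_left₀ hlt hA.le (by norm_num)
    have k3 : (dd Γ t s ^ 3 - dd Γ s t ^ 3) / (dd Γ s t ^ 2 * dd Γ t s ^ 2) < 0 :=
      div_neg_of_neg_of_pos (by linarith) hden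
    have k4 := mul_pos_of_neg_of_neg (by linarith : log (dd Γ t s) - log (dd Γ s t) < 0) k3
    exact ⟨k4.le, fun h0 => absurd h0 k4.ne'⟩
  · rw [heq]
    simp
  · have k1 : log (dd Γ s t) < log (dd Γ t s) := log_lt_log hB hgt
    have k2 : dd Γ s t ^ 3 < dd Γ t s ^ 3 := pow_lt_pow_left₀ hgt hB.le (by norm_num)
    have k3 : 0 < (dd Γ t s ^ 3 - dd Γ s t ^ 3) / (dd Γ s t ^ 2 * dd Γ t s ^ 2) :=
      div_pos (by linarith) hden
    have k4 := mul_pos (by linarith : 0 < log (dd Γ t s) - log (dd Γ s t)) k3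
    exact ⟨k4.le, fun h0 => absurd h0 k4.ne'⟩

variable (h : SSys T Γ U) (hD : QD T Γ D)
include h

lemma EI_nonneg (hW : ∀ y, Wr Γ y = 1) {c : ℝ} (hc : c ∈ Ioo (0:ℝ) 1) (t : ℝ) :
    0 ≤ EI Γ T U D c t := by
  obtain ⟨a1, a2, -⟩ := h.nxt_spec c t
  have h1 := h.nc_pos hc t
  have h2 := h.nt_pos hc t
  have h3 := (dl_KK h.curve hW a1 a2).1
  unfold EI
  positivity

include hD

lemma BB_mono (hW : ∀ y, Wr Γ y = 1) {b : ℝ} (hb : b ≤ 1)
    (hp : ∀ c ∈ Ioo 0 b, ∀ t, 0 < U c t ^ 2 + D t) {c₁ c₂ : ℝ} (h1 : 0 < c₁) (h12 : c₁ ≤ c₂)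
    (h2 : c₂ < b) : BB Γ T U D c₁ ≤ BB Γ T U D c₂ := by
  have k := BB_sub h hD hb hp h1 h12 h2
  have k2 : 0 ≤ ∫ c in c₁..c₂, ∫ t in (0)..T, EI Γ T U D c t := by
    refine intervalIntegral.integral_nonneg h12 fun c hc => ?_
    exact intervalIntegral.integral_nonneg h.T_pos.le fun t _ =>
      EI_nonneg h hW ⟨h1.trans_le hc.1, (hc.2.trans_lt h2).trans_le hb⟩ t
  linarith

/-- The leaf integral is nonnegative. -/
theorem BB_nonneg (hW : ∀ y, Wr Γ y = 1) {b : ℝ} (hb : b ≤ 1)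
    (hp : ∀ c ∈ Ioo 0 b, ∀ t, 0 < U c t ^ 2 + D t) {c : ℝ} (hc : c ∈ Ioo 0 b) :
    0 ≤ BB Γ T U D c := by
  obtain ⟨C, η, hC, hη, hs⟩ := BB_small h hD hW hb
  have hT := h.T_pos
  have hc1 : c ∈ Ioo (0:ℝ) 1 := ⟨hc.1, hc.2.trans_le hb⟩
  by_contra hneg
  push Not at hneg
  -- a small number
  set ε : ℝ := min (min η (T / 2)) (-BB Γ T U D c / (2 * (C + 1))) with hε
  have hε0 : 0 < ε := lt_min (lt_min hη (by positivity)) (div_pos (by linarith) (by positivity))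
  have hε1 : ε ≤ η := (min_le_left _ _).trans (min_le_left _ _)
  have hε2 : ε ≤ T / 2 := (min_le_left _ _).trans (min_le_right _ _)
  have hε3 : ε * (2 * (C + 1)) ≤ -BB Γ T U D c := by
    have := min_le_right (min η (T / 2)) (-BB Γ T U D c / (2 * (C + 1)))
    rwa [← hε, le_div_iff₀ (by positivity)] at this
  obtain ⟨c₁, hc₁, hcl⟩ := exists_close h hε0 (by linarith)
  -- a smaller parameter
  obtain ⟨c₂, h20, h2c, h2c₁⟩ : ∃ c₂, 0 < c₂ ∧ c₂ ≤ c ∧ c₂ ≤ c₁ :=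
    ⟨min c c₁, lt_min hc.1 hc₁.1, min_le_left _ _, min_le_right _ _⟩
  have hc₂ : c₂ ∈ Ioo 0 b := ⟨h20, h2c.trans_lt hc.2⟩
  have hc₂1 : c₂ ∈ Ioo (0:ℝ) 1 := ⟨h20, h2c.trans_lt hc1.2⟩
  have hcl2 : ∀ t, nxt Γ T U c₂ t < t + ε := by
    intro t
    rcases h2c₁.eq_or_lt with he | hlt
    · rw [he]; exact hcl t
    · exact (nxt_strictMono h hc₂1 hc₁ hlt t).trans (hcl t)
  have k1 := hs c₂ hc₂ ε hε1 hcl2
  have k2 := BB_mono h hD hW hb hp h20 h2c hc.2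
  have k3 := (abs_le.1 k1).1
  nlinarith [mul_nonneg hC hε0.le]

/-- If the leaf integral of one leaf is not positive, then all smaller leaves are as in the case of
conics. -/
theorem leaf_rigid (hW : ∀ y, Wr Γ y = 1) {b : ℝ} (hb : b ≤ 1)
    (hp : ∀ c ∈ Ioo 0 b, ∀ t, 0 < U c t ^ 2 + D t) {c₀ : ℝ} (hc₀ : c₀ ∈ Ioo 0 b)
    (hB : BB Γ T U D c₀ ≤ 0) {c : ℝ} (hc : c ∈ Ioo 0 c₀) (t : ℝ) :
    dd Γ t (nxt Γ T U c t) = dd Γ (nxt Γ T U c t) t ∧
      KK Γ t (nxt Γ T U c t) * U c t / (U c t ^ 2 + D t) * nt Γ T U c t =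
      KK Γ (nxt Γ T U c t) t * U c (nxt Γ T U c t) /
      (U c (nxt Γ T U c t) ^ 2 + D (nxt Γ T U c t)) := by
  have hT := h.T_pos
  have hcb : c ∈ Ioo 0 b := ⟨hc.1, hc.2.trans hc₀.2⟩
  have hc1 : c ∈ Ioo (0:ℝ) 1 := ⟨hc.1, hcb.2.trans_le hb⟩
  have h2c : 0 < c / 2 := half_pos hc.1
  have h2c0 : c / 2 < c₀ := by linarith [hc.1, hc.2]
  have hcE := continuousOn_EI h hD hb hp
  -- the inner integral
  have hφ0 : ∀ c' ∈ Icc (c / 2) c₀, 0 ≤ ∫ t in (0)..T, EI Γ T U D c' t := fun c' hc' =>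
    intervalIntegral.integral_nonneg hT.le fun t _ =>
      EI_nonneg h hW ⟨h2c.trans_le hc'.1, (hc'.2.trans_lt hc₀.2).trans_le hb⟩ t
  have hφc : ContinuousOn (fun c' => ∫ t in (0)..T, EI Γ T U D c' t) (Icc (c / 2) c₀) := by
    set pr : ℝ → ℝ := fun x => max (c / 2) (min x c₀) with hpr
    have hprc : Continuous pr := by simp only [hpr]; fun_prop
    have hprm : ∀ x, pr x ∈ Ioo 0 b := by
      intro x
      simp only [hpr]
      exact ⟨lt_max_of_lt_left h2c, max_lt (h2c0.trans hc₀.2) ((min_le_right _ _).trans_lt hc₀.2)⟩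
    have k : Continuous fun x => ∫ t in (0)..T, EI Γ T U D (pr x) t := by
      refine intervalIntegral.continuous_parametric_intervalIntegral_of_continuous' ?_ 0 T
      refine hcE.comp_continuous (f := fun q : ℝ × ℝ => (pr q.1, q.2)) ?_ ?_
      · exact (hprc.comp continuous_fst).prodMk continuous_snd
      · intro q
        exact ⟨hprm _, mem_univ _⟩
    refine k.continuousOn.congr ?_
    intro x hx
    have : pr x = x := by
      simp only [hpr]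
      rw [min_eq_left hx.2, max_eq_right hx.1]
    simp only [this]
  have hzero : ∫ c' in (c / 2)..c₀, ∫ t in (0)..T, EI Γ T U D c' t = 0 := by
    have k1 := BB_sub h hD hb hp h2c h2c0.le hc₀.2
    have k2 := BB_nonneg h hD hW hb hp (c := c / 2) ⟨h2c, h2c0.trans hc₀.2⟩
    have k3 := intervalIntegral.integral_nonneg (μ := volume) h2c0.le hφ0
    linarith
  have hφz : ∫ t in (0)..T, EI Γ T U D c t = 0 := by
    by_contra hne
    have hcc : c ∈ Icc (c / 2) c₀ := ⟨by linarith [hc.1], hc.2.le⟩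
    have hpos : 0 < ∫ t in (0)..T, EI Γ T U D c t := lt_of_le_of_ne (hφ0 c hcc) (Ne.symm hne)
    have := intervalIntegral.integral_pos h2c0 hφc
      (fun x hx => hφ0 x (Ioc_subset_Icc_self hx)) ⟨c, hcc, hpos⟩
    linarith
  have hE0 : ∀ x ∈ Icc 0 T, EI Γ T U D c x = 0 := by
    intro x hx
    by_contra hne
    have hpos : 0 < EI Γ T U D c x := lt_of_le_of_ne (EI_nonneg h hW hc1 x) (Ne.symm hne)
    have := intervalIntegral.integral_pos hT (slice hcE hcb).continuousOn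
      (fun x _ => EI_nonneg h hW hc1 x) ⟨x, hx, hpos⟩
    linarith
  have hE : EI Γ T U D c t = 0 := by
    have hper : Function.Periodic (fun t => EI Γ T U D c t) T := fun t => EI_per h hD hc1 t
    obtain ⟨z, hz, hz'⟩ := hper.exists_mem_Ico₀ hT t
    have hz'' : EI Γ T U D c t = EI Γ T U D c z := hz'
    rw [hz'']
    exact hE0 z ⟨hz.1, hz.2.le⟩
  obtain ⟨a1, a2, -⟩ := h.nxt_spec c t
  have h1 := h.nc_pos hc1 t
  have h2 := h.nt_pos hc1 t
  obtain ⟨h3, h4⟩ := dl_KK h.curve hW a1 a2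
  unfold EI at hE
  have h5 := (mul_eq_zero.1 hE).resolve_left h1.ne'
  set br := KK Γ t (nxt Γ T U c t) * U c t / (U c t ^ 2 + D t) * nt Γ T U c t -
      KK Γ (nxt Γ T U c t) t * U c (nxt Γ T U c t) /
      (U c (nxt Γ T U c t) ^ 2 + D (nxt Γ T U c t)) with hbr
  have h6 : 0 ≤ br ^ 2 / nt Γ T U c t := by positivity
  have h7 : br ^ 2 / nt Γ T U c t = 0 := by linarith
  have h8 : br = 0 := by
    rcases div_eq_zero_iff.1 h7 with h9 | h9
    · exact pow_eq_zero_iff (two_ne_zero) |>.1 h9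
    · exact absurd h9 h2.ne'
  refine ⟨h4 (by linarith), ?_⟩
  rw [hbr] at h8
  linarith

/-- every point below a leaf lies on a smaller leaf -/
lemma exists_leaf {c₀ : ℝ} (hc₀ : c₀ ∈ Ioo (0:ℝ) 1) {t s : ℝ} (h1 : t < s)
    (h2 : s < nxt Γ T U c₀ t) : ∃ c ∈ Ioo 0 c₀, nxt Γ T U c t = s := by
  have k1 : ∀ᶠ c in 𝓝[>] (0:ℝ), nxt Γ T U c t < s :=
    (h.tendsto_nxt_zero t).eventually (gt_mem_nhds h1)
  have k2 : ∀ᶠ c in 𝓝[>] (0:ℝ), c ∈ Ioo (0:ℝ) c₀ := Ioo_mem_nhdsGT hc₀.1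
  obtain ⟨a, ha1, ha2⟩ := (k1.and k2).exists
  have hsub : Icc a c₀ ⊆ Ioo (0:ℝ) 1 := fun c hc => ⟨ha2.1.trans_le hc.1, hc.2.trans_lt hc₀.2⟩
  have hcont : ContinuousOn (fun c => nxt Γ T U c t) (Icc a c₀) := fun c hc =>
    (h.hasDerivAt_nxt_c (hsub hc) t).continuousAt.continuousWithinAt
  obtain ⟨c, hc, hc'⟩ := intermediate_value_Icc ha2.2.le hcont ⟨ha1.le, h2.le⟩
  refine ⟨c, ⟨ha2.1.trans_le hc.1, lt_of_le_of_ne hc.2 ?_⟩, hc'⟩
  rintro rfl
  exact absurd hc' h2.ne'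

/-- **The curve is symmetric below a leaf whose leaf integral is not positive.** -/
theorem dd_symm (hW : ∀ y, Wr Γ y = 1) {b : ℝ} (hb : b ≤ 1)
    (hp : ∀ c ∈ Ioo 0 b, ∀ t, 0 < U c t ^ 2 + D t) {c₀ : ℝ} (hc₀ : c₀ ∈ Ioo 0 b)
    (hB : BB Γ T U D c₀ ≤ 0) {t s : ℝ} (h1 : t < s) (h2 : s < nxt Γ T U c₀ t) :
    dd Γ t s = dd Γ s t := by
  obtain ⟨c, hc, rfl⟩ := exists_leaf h hD ⟨hc₀.1, hc₀.2.trans_le hb⟩ h1 h2
  exact (leaf_rigid h hD hW hb hp hc₀ hB hc t).1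

/-- On the smaller leaves the value of the quadratic form is constant. -/
theorem leaf_level (hW : ∀ y, Wr Γ y = 1) {b : ℝ} (hb : b ≤ 1)
    (hp : ∀ c ∈ Ioo 0 b, ∀ t, 0 < U c t ^ 2 + D t) {c₀ : ℝ} (hc₀ : c₀ ∈ Ioo 0 b)
    (hB : BB Γ T U D c₀ ≤ 0) {c : ℝ} (hc : c ∈ Ioo 0 c₀) (t t' : ℝ) :
    U c t ^ 2 + D t = U c t' ^ 2 + D t' := by
  have hcb : c ∈ Ioo 0 b := ⟨hc.1, hc.2.trans hc₀.2⟩
  have hc1 : c ∈ Ioo (0:ℝ) 1 := ⟨hc.1, hcb.2.trans_le hb⟩
  have hc01 : c₀ ∈ Ioo (0:ℝ) 1 := ⟨hc₀.1, hc₀.2.trans_le hb⟩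
  have hd : ∀ t, HasDerivAt (fun t => U c t ^ 2 + D t) 0 t := by
    intro t
    have k1 : HasDerivAt (fun t => U c t) (Ut U (c, t)) t := h.hasDerivAt_t hc1 t
    have k2 : HasDerivAt D (deriv D t) t := (hD.smooth.differentiable (by simp) t).hasDerivAt
    refine ((k1.pow 2).add k2).congr_deriv ?_
    obtain ⟨a1, a2, a3⟩ := h.nxt_spec c t
    have n1 := (h.curve.dd_pos_right a1 a2).ne'
    have n2 := (h.curve.dd_pos_left a1 a2).ne'
    have hm := mem_Dm h (hp c hcb t)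
    have r1 := rel_left h.curve hD hm
    have hlt := nxt_strictMono h hc1 hc01 hc.2 t
    -- the derivative of `dl` in the first variable vanishes
    have hz : L1 Γ t (nxt Γ T U c t) - L2 Γ (nxt Γ T U c t) t = 0 := by
      have k3 := hasDerivAt_dl_left h.curve n1 n2
      refine k3.unique ((hasDerivAt_const t (0:ℝ)).congr_of_eventuallyEq ?_)
      set s := nxt Γ T U c t
      have e1 : ∀ᶠ x in 𝓝 t, x < s := gt_mem_nhds a1
      have e2 : ∀ᶠ x in 𝓝 t, s < nxt Γ T U c₀ x :=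
        ((h.continuous_nxt hc01).continuousAt).eventually (lt_mem_nhds hlt)
      filter_upwards [e1, e2] with x hx1 hx2
      have k4 := dd_symm h hD hW hb hp hc₀ hB hx1 hx2
      unfold dl
      rw [k4, sub_self]
    have hr := (leaf_rigid h hD hW hb hp hc₀ hB hc t).2
    have e3 : nt Γ T U c t * KK Γ t (nxt Γ T U c t) =
        -(L11 Γ t (nxt Γ T U c t) + Ut U (c, t)) := by
      have hK := (h.curve.KK_pos_right a1 a2).ne'
      unfold nt; field_simp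
    have e5 : L1 Γ (nxt Γ T U c t) t = U c (nxt Γ T U c t) := (h.feq' hc1 t).symm
    have f1 : L11 Γ t (nxt Γ T U c t) = -Ut U (c, t) -
      nt Γ T U c t * KK Γ t (nxt Γ T U c t) := by linarith
    have hV := (hp c hcb t).ne'
    have hV' := (hp c hcb (nxt Γ T U c t)).ne'
    rw [hz, WW_leaf h, WW_leaf' h hc1, e5, f1, a3] at r1
    have hr' : U c (nxt Γ T U c t) * KK Γ (nxt Γ T U c t) t /
        (U c (nxt Γ T U c t) ^ 2 + D (nxt Γ T U c t)) =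
        KK Γ t (nxt Γ T U c t) * U c t / (U c t ^ 2 + D t) * nt Γ T U c t := by
      rw [hr]; ring
    rw [hr'] at r1
    have r2 : (U c t * Ut U (c, t) + deriv D t / 2) / (U c t ^ 2 + D t) = 0 := by
      have e6 : (U c t * Ut U (c, t) + deriv D t / 2) / (U c t ^ 2 + D t) =
        -(KK Γ t (nxt Γ T U c t) * U c t / (U c t ^ 2 + D t) * nt Γ T U c t -
        (-U c t * (-Ut U (c, t) - nt Γ T U c t * KK Γ t (nxt Γ T U c t)) + deriv D t / 2) /
          (U c t ^ 2 + D t)) := by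
        field_simp
        ring
      rw [e6, r1, neg_zero]
    rcases div_eq_zero_iff.1 r2 with h9 | h9
    · have : ((2:ℕ):ℝ) * U c t ^ (2 - 1) * Ut U (c, t) + deriv D t =
        2 * (U c t * Ut U (c, t) + deriv D t / 2) := by
        push_cast; ring
      rw [this, h9, mul_zero]
    · exact absurd h9 hV
  exact is_const_of_deriv_eq_zero (fun x => (hd x).differentiableAt) (fun x => (hd x).deriv) t t'

end Pool.Agent.MP_ae5b4e_an_P3.Mn
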