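import Mathlib

/-!
A monotone family of circle maps which starts at the identity and for which three steps from one
point go at least once around has a member with a three-periodic point.
-/

noncomputable section

namespace Pool.Agent.MP_ae5b4e_an_P3

open Set Filter Topology

/-- Intermediate value theorem for the third iterate. -/
theorem exists_three {f : ℝ → ℝ → ℝ} {T : ℝ} (hT : 0 < T)
    (hc : ContinuousOn (fun q : ℝ × ℝ => f q.1 q.2) (Ioo 0 1 ×ˢ univ))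
    (hm : ∀ c ∈ Ioo (0:ℝ) 1, Monotone (f c))
    (h0 : ∀ x, Tendsto (fun c => f c x) (𝓝[>] 0) (𝓝 x))
    {c₁ x : ℝ} (hc₁ : c₁ ∈ Ioo (0:ℝ) 1) (h3 : x + T ≤ f c₁ (f c₁ (f c₁ x))) :
    ∃ c ∈ Ioc 0 c₁, f c (f c (f c x)) = x + T := by
  have k1 : ∀ᶠ c in 𝓝[>] (0:ℝ), f c x < x + T / 4 :=
    (h0 x).eventually (gt_mem_nhds (by linarith))
  have k2 : ∀ᶠ c in 𝓝[>] (0:ℝ), f c (x + T / 4) < x + T / 4 + T / 4 :=
    (h0 (x + T / 4)).eventually (gt_mem_nhds (by linarith))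
  have k3 : ∀ᶠ c in 𝓝[>] (0:ℝ), f c (x + T / 4 + T / 4) < x + T / 4 + T / 4 + T / 4 :=
    (h0 (x + T / 4 + T / 4)).eventually (gt_mem_nhds (by linarith))
  have k4 : ∀ᶠ c in 𝓝[>] (0:ℝ), c ∈ Ioo (0:ℝ) c₁ := Ioo_mem_nhdsGT hc₁.1
  obtain ⟨a, ha1, ha2, ha3, ha4⟩ := (k1.and (k2.and (k3.and k4))).exists
  have ha : a ∈ Ioo (0:ℝ) 1 := ⟨ha4.1, ha4.2.trans hc₁.2⟩
  have hlow : f a (f a (f a x)) ≤ x + T := by
    have e1 : f a (f a x) ≤ f a (x + T / 4) := hm a ha ha1.le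
    have e2 : f a (f a (f a x)) ≤ f a (x + T / 4 + T / 4) := hm a ha (e1.trans ha2.le)
    linarith
  have hsub : Icc a c₁ ⊆ Ioo (0:ℝ) 1 := fun c hc => ⟨ha.1.trans_le hc.1, hc.2.trans_lt hc₁.2⟩
  have g1 : ContinuousOn (fun c => f c x) (Icc a c₁) :=
    hc.comp (f := fun c : ℝ => (c, x)) (by fun_prop) fun c h => ⟨hsub h, mem_univ _⟩
  have g2 : ContinuousOn (fun c => f c (f c x)) (Icc a c₁) :=
    hc.comp (f := fun c : ℝ => (c, f c x)) (continuousOn_id.prodMk g1)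
      fun c h => ⟨hsub h, mem_univ _⟩
  have g3 : ContinuousOn (fun c => f c (f c (f c x))) (Icc a c₁) :=
    hc.comp (f := fun c : ℝ => (c, f c (f c x))) (continuousOn_id.prodMk g2)
      fun c h => ⟨hsub h, mem_univ _⟩
  obtain ⟨c, hc, he⟩ := intermediate_value_Icc ha4.2.le g3 ⟨hlow, h3⟩
  exact ⟨c, ⟨ha.1.trans_le hc.1, hc.2⟩, he⟩

end Pool.Agent.MP_ae5b4e_an_P3
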