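import Mathlib

/-!
A circle map with a positive continuous invariant density is conjugate to a rotation: if one point
is `k`-periodic then all points are.
-/

noncomputable section

namespace Pool.Agent.MP_ae5b4e_an_P3

open Set Filter Topology MeasureTheory intervalIntegral

/-- A lift `f` of a circle map which preserves a positive continuous density `w` is conjugate to a
translation. -/
theorem exists_conj {f f' w : ℝ → ℝ} {T : ℝ} (hf : ∀ x, HasDerivAt f (f' x) x)
    (hw : Continuous w) (hpos : ∀ x, 0 < w x) (hwper : ∀ x, w (x + T) = w x)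
    (hinv : ∀ x, w (f x) * f' x = w x) :
    ∃ h : ℝ → ℝ, StrictMono h ∧ (∀ x, h (x + T) = h x + h T) ∧ ∃ r, ∀ x, h (f x) = h x + r := by
  have hd : ∀ x, HasDerivAt (fun x => ∫ s in (0)..x, w s) (w x) x := fun x =>
    intervalIntegral.integral_hasDerivAt_right (hw.intervalIntegrable _ _)
      (hw.stronglyMeasurableAtFilter _ _) hw.continuousAt
  have h0 : ∀ g : ℝ → ℝ, (∀ x, HasDerivAt g 0 x) → ∀ x, g x = g 0 := fun g hg x =>
    is_const_of_deriv_eq_zero (fun x => (hg x).differentiableAt) (fun x => (hg x).deriv) x 0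
  refine ⟨fun x => ∫ s in (0)..x, w s, ?_, ?_, (∫ s in (0)..(f 0), w s), ?_⟩
  · exact strictMono_of_hasDerivAt_pos hd hpos
  · intro x
    have k := h0 (fun x => (∫ s in (0)..(x + T), w s) - ∫ s in (0)..x, w s) (fun x => by
      have := ((hd (x + T)).comp_add_const x T).sub (hd x)
      rwa [hwper, sub_self] at this) x
    simp only [intervalIntegral.integral_same, zero_add, sub_zero] at k
    show (∫ s in (0)..(x + T), w s) = (∫ s in (0)..x, w s) + ∫ s in (0)..T, w s
    linarith
  · intro x
    have k := h0 (fun x => (∫ s in (0)..(f x), w s) - ∫ s in (0)..x, w s) (fun x => by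
      have := ((hd (f x)).comp x (hf x)).sub (hd x)
      rwa [hinv, sub_self] at this) x
    simp only [intervalIntegral.integral_same, sub_zero] at k
    show (∫ s in (0)..(f x), w s) = (∫ s in (0)..x, w s) + ∫ s in (0)..(f 0), w s
    linarith

/-- If one point is three-periodic then all points are. -/
theorem three_periodic {f f' w : ℝ → ℝ} {T : ℝ} (hf : ∀ x, HasDerivAt f (f' x) x)
    (hw : Continuous w) (hpos : ∀ x, 0 < w x) (hwper : ∀ x, w (x + T) = w x)
    (hinv : ∀ x, w (f x) * f' x = w x) {x₀ : ℝ} (h3 : f (f (f x₀)) = x₀ + T) (x : ℝ) :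
    f (f (f x)) = x + T := by
  obtain ⟨h, hm, hT, r, hr⟩ := exists_conj hf hw hpos hwper hinv
  have e0 := congrArg h h3
  rw [hr, hr, hr, hT] at e0
  refine hm.injective ?_
  rw [hr, hr, hr, hT]
  linarith

/-- If one point is `n`-periodic then all points are. -/
theorem n_periodic {f f' w : ℝ → ℝ} {T : ℝ} (hf : ∀ x, HasDerivAt f (f' x) x)
    (hw : Continuous w) (hpos : ∀ x, 0 < w x) (hwper : ∀ x, w (x + T) = w x)
    (hinv : ∀ x, w (f x) * f' x = w x) {n : ℕ} {x₀ : ℝ} (h3 : f^[n] x₀ = x₀ + T) (x : ℝ) :
    f^[n] x = x + T := by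
  obtain ⟨h, hm, hT, r, hr⟩ := exists_conj hf hw hpos hwper hinv
  have key : ∀ (n : ℕ) x, h (f^[n] x) = h x + n * r := by
    intro n
    induction n with
    | zero => intro x; simp
    | succ n ih =>
      intro x
      rw [Function.iterate_succ_apply', hr, ih]
      push_cast
      ring
  have e0 := congrArg h h3
  rw [key, hT] at e0
  refine hm.injective ?_
  rw [key, hT]
  linarith

end Pool.Agent.MP_ae5b4e_an_P3
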