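import Mathlib
import Pool.Agent.Lib.MP_ae5b4e_an_ALT.TotS
import Pool.Agent.Lib.MP_ae5b4e_an_P3.Per
import Pool.Agent.Lib.MP_ae5b4e_an_P3.Ivt

/-!
In the class of a quadratic form the map preserves a smooth positive density on every leaf.  Hence
if three steps from one point of one leaf go once around the curve, then there is a leaf on which
all points are three-periodic.
-/

noncomputable section

namespace Pool.Agent.MP_ae5b4e_an_P3

open Set Filter Topology Real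
open scoped ContDiff
open Pool.Agent.MP_ae5b4e_an_hopf Pool.Agent.MP_ae5b4e_an_ALT
open Pool.Agent.MP_ae5b4e_an_hopf.Sys (nt nc)

variable {Γ : ℝ → Fin 3 → ℝ} {T : ℝ} {U : ℝ → ℝ → ℝ}

/-- the invariant density on a leaf -/
def dens (U : ℝ → ℝ → ℝ) (D : ℝ → ℝ) (c t : ℝ) : ℝ :=
  -Uc U (c, t) / (√(U c t ^ 2 + D t)) ^ 3

/-- the density is invariant -/
theorem dens_inv (h : SSys T Γ U) (hW : ∀ y, Wr Γ y = 1) {D : ℝ → ℝ}
    (hD : ∀ t s, t < s → s < t + T →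
      dd Γ s t ^ 2 * (L1 Γ s t ^ 2 + D s) = dd Γ t s ^ 2 * (L1 Γ t s ^ 2 + D t))
    {c : ℝ} (hc : c ∈ Ioo (0:ℝ) 1) (t : ℝ) (hpos : 0 < U c t ^ 2 + D t) :
    0 < U c (nxt Γ T U c t) ^ 2 + D (nxt Γ T U c t) ∧
      dens U D c (nxt Γ T U c t) * nt Γ T U c t = dens U D c t := by
  obtain ⟨a1, a2, a3⟩ := h.nxt_spec c t
  have hinv := h.invariance hc t
  have e1 : U c (nxt Γ T U c t) = L1 Γ (nxt Γ T U c t) t := h.feq' hc t
  have hA := h.curve.dd_pos_right a1 a2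
  have hB := h.curve.dd_pos_left a1 a2
  have hDD := hD t _ a1 a2
  unfold dens
  set s := nxt Γ T U c t with hs
  rw [a3, ← e1, neg_sq] at hDD
  have hV : 0 < U c s ^ 2 + D s := by
    have k : 0 < dd Γ s t ^ 2 * (U c s ^ 2 + D s) := by rw [hDD]; positivity
    exact (pos_iff_pos_of_mul_pos k).1 (by positivity)
  refine ⟨hV, ?_⟩
  have hsq : √(U c s ^ 2 + D s) * dd Γ s t = √(U c t ^ 2 + D t) * dd Γ t s := by
    have k1 : √(U c s ^ 2 + D s) * dd Γ s t = √(dd Γ s t ^ 2 * (U c s ^ 2 + D s)) := by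
      rw [Real.sqrt_mul (by positivity), Real.sqrt_sq hB.le, mul_comm]
    have k2 : √(U c t ^ 2 + D t) * dd Γ t s = √(dd Γ t s ^ 2 * (U c t ^ 2 + D t)) := by
      rw [Real.sqrt_mul (by positivity), Real.sqrt_sq hA.le, mul_comm]
    rw [k1, k2, hDD]
  have v1 : 0 < √(U c s ^ 2 + D s) := Real.sqrt_pos.2 hV
  have v2 : 0 < √(U c t ^ 2 + D t) := Real.sqrt_pos.2 hpos
  unfold KK at hinv
  rw [hW, hW, one_mul, one_mul] at hinv
  set P := √(U c s ^ 2 + D s)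
  set R := √(U c t ^ 2 + D t)
  set A := dd Γ t s
  set B := dd Γ s t
  field_simp at hinv ⊢
  have k : (Uc U (c, s) * nt Γ T U c t * R ^ 3 - P ^ 3 * Uc U (c, t)) * (B ^ 3) = 0 := by
    have e : P ^ 3 * B ^ 3 = R ^ 3 * A ^ 3 := by
      rw [← mul_pow, ← mul_pow, hsq]
    linear_combination R ^ 3 * hinv - Uc U (c, t) * e
  have k' := (mul_eq_zero.1 k).resolve_right (by positivity)
  linarith

/-- If one point of a leaf is three-periodic then all points of this leaf are. -/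
theorem leaf_three (h : SSys T Γ U) (hW : ∀ y, Wr Γ y = 1) {D : ℝ → ℝ} (hDc : Continuous D)
    (hDp : ∀ t, D (t + T) = D t)
    (hD : ∀ t s, t < s → s < t + T →
      dd Γ s t ^ 2 * (L1 Γ s t ^ 2 + D s) = dd Γ t s ^ 2 * (L1 Γ t s ^ 2 + D t))
    {c : ℝ} (hc : c ∈ Ioo (0:ℝ) 1) (hpos : ∀ t, 0 < U c t ^ 2 + D t) {t₀ : ℝ}
    (h3 : nxt Γ T U c (nxt Γ T U c (nxt Γ T U c t₀)) = t₀ + T) (t : ℝ) :
    nxt Γ T U c (nxt Γ T U c (nxt Γ T U c t)) = t + T := by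
  have cU : Continuous fun t => U c t := h.continuous_Uf hc
  refine three_periodic (w := dens U D c) (h.hasDerivAt_nxt_t hc) ?_ ?_ ?_ ?_ h3 t
  · refine (h.continuous_Uc hc).neg.div₀ ((((cU.pow 2).add hDc).sqrt).pow 3) fun t => ?_
    have := Real.sqrt_pos.2 (hpos t)
    positivity
  · intro t
    have k1 := Real.sqrt_pos.2 (hpos t)
    have k2 := h.Uc_neg hc t
    exact div_pos (by linarith) (by positivity)
  · intro t
    unfold dens
    rw [h.Uc_per hc, h.per c hc, hDp]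
  · intro t
    exact (dens_inv h hW hD hc t (hpos t)).2

/-- If three steps from one point of the leaf `c₁` go at least once around the curve, then all
points of some leaf `c ≤ c₁` are three-periodic. -/
theorem exists_leaf_three (h : SSys T Γ U) (hW : ∀ y, Wr Γ y = 1) {D : ℝ → ℝ} (hDc : Continuous D)
    (hDp : ∀ t, D (t + T) = D t)
    (hD : ∀ t s, t < s → s < t + T →
      dd Γ s t ^ 2 * (L1 Γ s t ^ 2 + D s) = dd Γ t s ^ 2 * (L1 Γ t s ^ 2 + D t))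
    {c₁ : ℝ} (hc₁ : c₁ ∈ Ioo (0:ℝ) 1) (hpos : ∀ c ∈ Ioc 0 c₁, ∀ t, 0 < U c t ^ 2 + D t) {t₀ : ℝ}
    (h3 : t₀ + T ≤ nxt Γ T U c₁ (nxt Γ T U c₁ (nxt Γ T U c₁ t₀))) :
    ∃ c ∈ Ioc 0 c₁, ∀ t, nxt Γ T U c (nxt Γ T U c (nxt Γ T U c t)) = t + T := by
  obtain ⟨c, hc, he⟩ := exists_three (f := nxt Γ T U) h.T_pos h.continuousOn_nxt.snd (fun c hc =>
    (strictMono_of_hasDerivAt_pos (h.hasDerivAt_nxt_t hc) (h.nt_pos hc)).monotone)
    h.tendsto_nxt_zero hc₁ h3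
  have hc' : c ∈ Ioo (0:ℝ) 1 := ⟨hc.1, hc.2.trans_lt hc₁.2⟩
  exact ⟨c, hc, leaf_three h hW hDc hDp hD hc' (hpos c hc) he⟩

end Pool.Agent.MP_ae5b4e_an_P3
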