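import Mathlib
import Pool.Agent.Lib.MP_ae5b4e_an_ALT.HopS

/-!
# MP_ae5b4e_an, project P3, module Tri

The leaf inequality at a 3-periodic point, for the class of a quadratic form.
-/

noncomputable section

namespace Pool.Agent.MP_ae5b4e_an_P3

open Set Filter Topology Real
open Pool.Agent.MP_ae5b4e_an_hopf
open Pool.Agent.MP_ae5b4e_an_hopf.Sys (nt nc)
open Pool.Agent.MP_ae5b4e_an_ALT

/-! ## Algebra at one corner of the triangle -/

/-- the bilinear forms -/
abbrev Bil := LinearMap.BilinForm ℝ (Fin 3 → ℝ)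

lemma cramer3 (a b c w : Fin 3 → ℝ) :
    det3 a b c • w = det3 w b c • a + det3 a w c • b + det3 a b w • c := by
  funext i
  fin_cases i <;> simp [det3] <;> ring

/-- The data at one tangency point `G` (with derivatives `G1`, `G2`): `a` and `b` are the two
adjacent vertices of the triangle, normalized by the quadratic form. -/
structure Corner (B : Bil) (G G1 G2 a b : Fin 3 → ℝ) (U r : ℝ) : Prop where
  Upos : 0 < U
  rpos : 0 < r
  haa : B a a = 1
  hbb : B b b = 1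
  hG : G = (r / (2 * U)) • (a + b)
  hG1 : G1 = (r / 2) • (a - b)
  hW : det3 G G1 G2 = 1
  h1 : B G G = 1
  h2 : B G G2 = - B G1 G1

lemma det3_smul_left (s : ℝ) (a b c : Fin 3 → ℝ) : det3 (s • a) b c = s * det3 a b c := by
  simp [det3]; ring
lemma det3_smul_mid (s : ℝ) (a b c : Fin 3 → ℝ) : det3 a (s • b) c = s * det3 a b c := by
  simp [det3]; ring
lemma det3_smul_right (s : ℝ) (a b c : Fin 3 → ℝ) : det3 a b (s • c) = s * det3 a b c := by
  simp [det3]; ring

namespace Corner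

variable {B : Bil} {G G1 G2 a b : Fin 3 → ℝ} {U r : ℝ}

lemma line (h : Corner B G G1 G2 a b U r) (V : Fin 3 → ℝ) :
    det3 V G G1 = r ^ 2 / (2 * U) * det3 V b a := by
  have hU := h.Upos.ne'
  rw [h.hG, h.hG1, det3_smul_mid, det3_smul_right]
  have : det3 V (a + b) (a - b) = 2 * det3 V b a := by simp [det3]; ring
  rw [this]
  field_simp

lemma two_U (h : Corner B G G1 G2 a b U r) (hs : ∀ x y, B x y = B y x) :
    2 * U ^ 2 = r ^ 2 * (1 + B a b) := by
  have hU := h.Upos.ne'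
  have e := h.h1
  rw [h.hG] at e
  simp only [map_add, map_smul, LinearMap.add_apply, LinearMap.smul_apply, smul_eq_mul,
    h.haa, h.hbb, hs b a] at e
  field_simp at e
  linarith

lemma main (h : Corner B G G1 G2 a b U r) (hs : ∀ x y, B x y = B y x) (o : Fin 3 → ℝ) :
    2 * U * (det3 G2 a o + det3 G2 o b) =
      -(r ^ 3 * det3 a o b * (1 - B a b) + 2 * (B a o + B b o)) := by
  have hU := h.Upos
  have hr := h.rpos
  have hg : 0 < 1 + B a b := by
    have e := h.two_U hs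
    by_contra hneg
    push Not at hneg
    nlinarith [sq_nonneg r, mul_pos hU hU]
  -- pairing with `a + b`
  have e1 : B (a + b) G2 = -(U * r * (1 - B a b)) := by
    have k1 := h.h2
    rw [h.hG, h.hG1] at k1
    simp only [map_add, map_sub, map_smul, LinearMap.add_apply, LinearMap.sub_apply,
      LinearMap.smul_apply, smul_eq_mul, h.haa, h.hbb, hs b a] at k1 ⊢
    field_simp at k1
    linarith
  have e2 : det3 a G2 b = 2 * U / r ^ 2 := by
    have k1 := h.hW
    rw [h.hG, h.hG1, det3_smul_left, det3_smul_mid] at k1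
    have k2 : det3 (a + b) (a - b) G2 = 2 * det3 a G2 b := by simp [det3]; ring
    rw [k2] at k1
    field_simp at k1 ⊢
    linarith
  have e3 := congrArg (fun v => B (a + b) v) (cramer3 a o b G2)
  simp only [map_add, map_smul, smul_eq_mul] at e3
  have e4 : B (a + b) G2 = (B a) G2 + (B b) G2 := by simp
  have e5 : det3 a o G2 = det3 G2 a o := by unfold det3; ring
  rw [e5, e2] at e3
  simp only [LinearMap.add_apply, h.haa, h.hbb, hs b a] at e3
  rw [e4] at e1
  have e6 : (1 + B a b) * (det3 G2 a o + det3 G2 o b) =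
      -(U * r * (1 - B a b)) * det3 a o b - 2 * U / r ^ 2 * (B a o + B b o) := by
    rw [← e1]
    linarith
  have e7 := h.two_U hs
  have e8 : (1 + B a b) * (2 * U * (det3 G2 a o + det3 G2 o b)) =
      (1 + B a b) * -(r ^ 3 * det3 a o b * (1 - B a b) + 2 * (B a o + B b o)) := by
    calc (1 + B a b) * (2 * U * (det3 G2 a o + det3 G2 o b))
        = 2 * U * ((1 + B a b) * (det3 G2 a o + det3 G2 o b)) := by ring
      _ = 2 * U * (-(U * r * (1 - B a b)) * det3 a o b - 2 * U / r ^ 2 * (B a o + B b o)) := by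
          rw [e6]
      _ = -(2 * U ^ 2) * (r * (1 - B a b) * det3 a o b + 2 / r ^ 2 * (B a o + B b o)) := by ring
      _ = _ := by
          rw [e7]
          field_simp
  exact mul_left_cancel₀ hg.ne' e8

variable {H H1 H2 o : Fin 3 → ℝ} {U' r' : ℝ}

lemma dd_next (h : Corner B G G1 G2 a b U r) (h' : Corner B H H1 H2 o a U' r') :
    det3 G H H1 = r * r' ^ 2 / (4 * U * U') * det3 a o b := by
  have hU := h.Upos.ne'
  have hU' := h'.Upos.ne'
  rw [h'.line, h.hG, det3_smul_left]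
  have : det3 (a + b) a o = det3 a o b := by simp [det3]; ring
  rw [this]
  field_simp
  ring

lemma dd_prev (h : Corner B G G1 G2 a b U r) (h' : Corner B H H1 H2 o a U' r') :
    det3 H G G1 = r ^ 2 * r' / (4 * U * U') * det3 a o b := by
  have hU := h.Upos.ne'
  have hU' := h'.Upos.ne'
  rw [h.line, h'.hG, det3_smul_left]
  have : det3 (o + a) b a = det3 a o b := by simp [det3]; ring
  rw [this]
  field_simp
  ring

end Corner

/-- the final algebra -/
lemma tri_final {U0 U1 U2 r0 r1 r2 Om n0 n1 n2 g0 g1 g2 : ℝ} (hU0 : 0 < U0) (hU1 : 0 < U1)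
    (hU2 : 0 < U2) (hr0 : 0 < r0) (hr1 : 0 < r1) (hr2 : 0 < r2) (hOm : 0 < Om) (hn0 : 0 < n0)
    (hn2 : 0 < n2) (hn : n0 * n1 * n2 = 1)
    (A0 : 2 * U0 ^ 2 = r0 ^ 2 * (1 + g0)) (A1 : 2 * U1 ^ 2 = r1 ^ 2 * (1 + g1))
    (R0 : n0 * (4 * U0 * U1 / (r1 ^ 3 * Om)) + 4 * U0 * U2 / (r2 ^ 3 * Om) / n2 =
      2 * r0 ^ 2 + 2 * (g1 + g2) / (r0 * Om))
    (R1 : n1 * (4 * U1 * U2 / (r2 ^ 3 * Om)) + 4 * U1 * U0 / (r0 ^ 3 * Om) / n0 =
      2 * r1 ^ 2 + 2 * (g2 + g0) / (r1 * Om)) :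
    ∃ Z > 0, 2 * Z * (r1 * U1 / n0 - r0 * U0) = Om * (r1 ^ 3 - r0 ^ 3) := by
  have hn1' : n1 = 1 / (n0 * n2) := by
    field_simp
    linarith
  set Z := U0 / r0 ^ 3 + n0 * U1 / r1 ^ 3 + U2 / (n2 * r2 ^ 3) with hZ
  have hZpos : 0 < Z := by positivity
  have k0 : (1 + g0) * r0 ^ 3 * Z = U0 * (Om * r0 ^ 3 + 1 + (g0 + g1 + g2)) := by
    have e : n0 * (4 * U0 * U1 / (r1 ^ 3 * Om)) + 4 * U0 * U2 / (r2 ^ 3 * Om) / n2 =
        4 * U0 / Om * (Z - U0 / r0 ^ 3) := by
      rw [hZ]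
      field_simp
      ring
    rw [e] at R0
    have e1 : 4 * U0 ^ 2 * (Z - U0 / r0 ^ 3) =
        U0 * (2 * r0 ^ 2 * Om + 2 * (g1 + g2) / r0) := by
      calc 4 * U0 ^ 2 * (Z - U0 / r0 ^ 3) = U0 * Om * (4 * U0 / Om * (Z - U0 / r0 ^ 3)) := by
            field_simp
        _ = _ := by
            rw [R0]
            field_simp
    have e2 : 4 * U0 ^ 2 = 2 * r0 ^ 2 * (1 + g0) := by linarith
    rw [e2] at e1
    field_simp at e1
    linarith
  have k1 : (1 + g1) * r1 ^ 3 * Z = U1 * n0 * (Om * r1 ^ 3 + 1 + (g0 + g1 + g2)) := by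
    have e : n1 * (4 * U1 * U2 / (r2 ^ 3 * Om)) + 4 * U1 * U0 / (r0 ^ 3 * Om) / n0 =
        4 * U1 / (n0 * Om) * (Z - n0 * U1 / r1 ^ 3) := by
      rw [hZ, hn1']
      field_simp
      ring
    rw [e] at R1
    have e1 : 4 * U1 ^ 2 * (Z - n0 * U1 / r1 ^ 3) =
        U1 * n0 * (2 * r1 ^ 2 * Om + 2 * (g2 + g0) / r1) := by
      calc 4 * U1 ^ 2 * (Z - n0 * U1 / r1 ^ 3)
          = U1 * n0 * Om * (4 * U1 / (n0 * Om) * (Z - n0 * U1 / r1 ^ 3)) := by
            field_simp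
        _ = _ := by
            rw [R1]
            field_simp
    have e2 : 4 * U1 ^ 2 = 2 * r1 ^ 2 * (1 + g1) := by linarith
    rw [e2] at e1
    field_simp at e1
    linarith
  refine ⟨Z, hZpos, ?_⟩
  have m0 : 2 * Z * (r0 * U0) = Om * r0 ^ 3 + 1 + (g0 + g1 + g2) := by
    have : U0 * (2 * Z * (r0 * U0)) = U0 * (Om * r0 ^ 3 + 1 + (g0 + g1 + g2)) := by
      rw [← k0]
      calc U0 * (2 * Z * (r0 * U0)) = (2 * U0 ^ 2) * Z * r0 := by ring
        _ = _ := by rw [A0]; ring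
    exact mul_left_cancel₀ hU0.ne' this
  have m1 : 2 * Z * (r1 * U1 / n0) = Om * r1 ^ 3 + 1 + (g0 + g1 + g2) := by
    have : U1 * n0 * (2 * Z * (r1 * U1 / n0)) =
        U1 * n0 * (Om * r1 ^ 3 + 1 + (g0 + g1 + g2)) := by
      rw [← k1]
      calc U1 * n0 * (2 * Z * (r1 * U1 / n0)) = (2 * U1 ^ 2) * Z * r1 := by field_simp
        _ = _ := by rw [A1]; ring
    exact mul_left_cancel₀ (mul_pos hU1 hn0).ne' this
  rw [mul_sub, m0, m1]
  ring

/-! ## The normalized curve and a bilinear form -/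

section curve

variable {T : ℝ} {Γ : ℝ → Fin 3 → ℝ} {B : Bil}

lemma bil_deriv {f g : ℝ → Fin 3 → ℝ} {f' g' : Fin 3 → ℝ} {t : ℝ} (hf : HasDerivAt f f' t)
    (hg : HasDerivAt g g' t) :
    HasDerivAt (fun s => B (f s) (g s)) (B f' (g t) + B (f t) g') t := by
  have e : ∀ x y : Fin 3 → ℝ, B x y = ∑ i, ∑ j, B (Pi.single i 1) (Pi.single j 1) * (x i * y j) := by
    intro x y
    have hx : x = ∑ i, x i • (Pi.single i 1 : Fin 3 → ℝ) := by
      funext k
      simp [Pi.single_apply]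
    have hy : y = ∑ i, y i • (Pi.single i 1 : Fin 3 → ℝ) := by
      funext k
      simp [Pi.single_apply]
    conv_lhs => rw [hx, hy]
    simp only [map_sum, map_smul, LinearMap.sum_apply, LinearMap.smul_apply, smul_eq_mul]
    rw [Finset.sum_comm]
    refine Finset.sum_congr rfl fun i _ => ?_
    rw [Finset.mul_sum]
    refine Finset.sum_congr rfl fun j _ => ?_
    ring
  rw [hasDerivAt_pi] at hf hg
  have k : HasDerivAt (fun s => ∑ i, ∑ j, B (Pi.single i 1) (Pi.single j 1) * (f s i * g s j))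
      (∑ i, ∑ j, B (Pi.single i 1) (Pi.single j 1) * (f' i * g t j + f t i * g' j)) t :=
    HasDerivAt.fun_sum fun i _ => HasDerivAt.fun_sum fun j _ => ((hf i).mul (hg j)).const_mul _
  have k2 : (fun s => B (f s) (g s)) =
      fun s => ∑ i, ∑ j, B (Pi.single i 1) (Pi.single j 1) * (f s i * g s j) :=
    funext fun s => e _ _
  rw [k2]
  refine k.congr_deriv ?_
  rw [e, e, ← Finset.sum_add_distrib]
  refine Finset.sum_congr rfl fun i _ => ?_
  rw [← Finset.sum_add_distrib]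
  refine Finset.sum_congr rfl fun j _ => ?_
  ring

variable (hC : Curve T Γ) (hs : ∀ x y, B x y = B y x) (hB1 : ∀ t, B (Γ t) (Γ t) = 1)
include hC hs hB1

lemma bil_01 (t : ℝ) : B (Γ t) (deriv Γ t) = 0 := by
  have k := bil_deriv (B := B) (hC.hd0 t) (hC.hd0 t)
  have k2 : (fun s => B (Γ s) (Γ s)) = fun _ => 1 := funext hB1
  rw [k2] at k
  have k3 := k.unique (hasDerivAt_const t (1:ℝ))
  rw [hs (deriv Γ t) (Γ t)] at k3
  linarith

lemma bil_02 (t : ℝ) : B (Γ t) (deriv (deriv Γ) t) = -B (deriv Γ t) (deriv Γ t) := by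
  have k := bil_deriv (B := B) (hC.hd0 t) (hC.hd1 t)
  have k2 : (fun s => B (Γ s) (deriv Γ s)) = fun _ => 0 := funext (bil_01 hC hs hB1)
  rw [k2] at k
  have k3 := k.unique (hasDerivAt_const t (0:ℝ))
  linarith

/-- the value of the form at a point of the tangent line -/
lemma bil_line (t X : ℝ) : B (X • Γ t + deriv Γ t) (X • Γ t + deriv Γ t) =
    X ^ 2 + B (deriv Γ t) (deriv Γ t) := by
  have k := bil_01 hC hs hB1 t
  simp only [map_add, map_smul, LinearMap.add_apply, LinearMap.smul_apply, smul_eq_mul, hB1,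
    hs (deriv Γ t) (Γ t), k]
  ring

lemma bil_line' (t X : ℝ) : B (X • Γ t - deriv Γ t) (X • Γ t - deriv Γ t) =
    X ^ 2 + B (deriv Γ t) (deriv Γ t) := by
  have k := bil_01 hC hs hB1 t
  simp only [map_sub, map_smul, LinearMap.sub_apply, LinearMap.smul_apply, smul_eq_mul, hB1,
    hs (deriv Γ t) (Γ t), k]
  ring

omit hC hs hB1 in
/-- the intersection point of two tangent lines -/
lemma vertex_eq {t s : ℝ} (h1 : dd Γ t s ≠ 0) (h2 : dd Γ s t ≠ 0) :
    dd Γ t s • ((-(L1 Γ t s)) • Γ t + deriv Γ t) = dd Γ s t • (L1 Γ s t • Γ s - deriv Γ s) := by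
  have e1 : dd Γ t s * L1 Γ t s = ddx Γ t s := by unfold L1; field_simp
  have e2 : dd Γ s t * L1 Γ s t = ddx Γ s t := by unfold L1; field_simp
  have e3 : dd Γ t s • ((-(L1 Γ t s)) • Γ t + deriv Γ t) =
      (-(ddx Γ t s)) • Γ t + dd Γ t s • deriv Γ t := by
    rw [smul_add, smul_smul, ← e1]
    congr 2
    ring
  have e4 : dd Γ s t • (L1 Γ s t • Γ s - deriv Γ s) =
      ddx Γ s t • Γ s - dd Γ s t • deriv Γ s := by
    rw [smul_sub, smul_smul, ← e2]
  rw [e3, e4]
  funext i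
  unfold dd ddx det3
  fin_cases i <;> simp <;> ring

/-- the cocycle of the form -/
lemma cocycle {t s : ℝ} (h1 : dd Γ t s ≠ 0) (h2 : dd Γ s t ≠ 0) :
    (dd Γ s t) ^ 2 * ((L1 Γ s t) ^ 2 + B (deriv Γ s) (deriv Γ s)) =
      (dd Γ t s) ^ 2 * ((L1 Γ t s) ^ 2 + B (deriv Γ t) (deriv Γ t)) := by
  have e := vertex_eq (Γ := Γ) h1 h2
  have e1 := bil_line hC hs hB1 t (-(L1 Γ t s))
  have e2 := bil_line' hC hs hB1 s (L1 Γ s t)
  rw [← e2]
  have e3 : (L1 Γ t s) ^ 2 = (-(L1 Γ t s)) ^ 2 := by ring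
  rw [e3, ← e1]
  have k : ∀ (m : ℝ) (v : Fin 3 → ℝ), m ^ 2 * B v v = B (m • v) (m • v) := by
    intro m v
    simp only [map_smul, LinearMap.smul_apply, smul_eq_mul]
    ring
  rw [k, k, e]

end curve

/-! ## The triangle on a leaf -/

section leaf

variable {T : ℝ} {Γ : ℝ → Fin 3 → ℝ} {U : ℝ → ℝ → ℝ} {B : Bil}

/-- the corner at a point of a leaf -/
lemma corner_of (hC : Curve T Γ) (hs : ∀ x y, B x y = B y x) (hB1 : ∀ t, B (Γ t) (Γ t) = 1)
    (hW : ∀ t, Wr Γ t = 1) {t X r : ℝ} (hX : 0 < X) (hr : 0 < r)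
    (hrr : r ^ 2 = X ^ 2 + B (deriv Γ t) (deriv Γ t)) {a b : Fin 3 → ℝ}
    (ha : r • a = X • Γ t + deriv Γ t) (hb : r • b = X • Γ t - deriv Γ t) :
    Corner B (Γ t) (deriv Γ t) (deriv (deriv Γ) t) a b X r where
  Upos := hX
  rpos := hr
  haa := by
    have e := bil_line hC hs hB1 t X
    rw [← ha, ← hrr] at e
    simp only [map_smul, LinearMap.smul_apply, smul_eq_mul] at e
    have : r ^ 2 * (B a a - 1) = 0 := by linarith
    rcases mul_eq_zero.1 this with h | h
    · exact absurd h (by positivity)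
    · linarith
  hbb := by
    have e := bil_line' hC hs hB1 t X
    rw [← hb, ← hrr] at e
    simp only [map_smul, LinearMap.smul_apply, smul_eq_mul] at e
    have : r ^ 2 * (B b b - 1) = 0 := by linarith
    rcases mul_eq_zero.1 this with h | h
    · exact absurd h (by positivity)
    · linarith
  hG := by
    have e : (2 * X) • Γ t = r • (a + b) := by
      rw [smul_add, ha, hb, mul_smul, two_smul]
      abel
    have : Γ t = (1 / (2 * X)) • ((2 * X) • Γ t) := by
      rw [smul_smul]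
      have : 1 / (2 * X) * (2 * X) = 1 := by field_simp
      rw [this, one_smul]
    rw [this, e, smul_smul]
    congr 1
    ring
  hG1 := by
    have e : (2:ℝ) • deriv Γ t = r • (a - b) := by
      rw [smul_sub, ha, hb, two_smul]
      abel
    have : deriv Γ t = (1 / 2 : ℝ) • ((2:ℝ) • deriv Γ t) := by
      rw [smul_smul]
      norm_num
    rw [this, e, smul_smul]
    congr 1
    ring
  hW := hW t
  h1 := hB1 t
  h2 := bil_02 hC hs hB1 t

/-- the two forms of the derivative of `U` at a corner, compared -/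
lemma rel (h : SSys T Γ U) (hW : ∀ t, Wr Γ t = 1) (hs : ∀ x y, B x y = B y x) {c t p : ℝ}
    (hn : 0 < nt Γ T U c p) (hp : L1 Γ t p = U c t)
    (hE : (Ut U (c, t) - L11 Γ t p) * nt Γ T U c p = KK Γ t p)
    {a b o : Fin 3 → ℝ} {r0 r1 r2 : ℝ}
    (C0 : Corner B (Γ t) (deriv Γ t) (deriv (deriv Γ) t) a b (U c t) r0)
    (C1 : Corner B (Γ (nxt Γ T U c t)) (deriv Γ (nxt Γ T U c t))
      (deriv (deriv Γ) (nxt Γ T U c t)) o a (U c (nxt Γ T U c t)) r1)
    (C2 : Corner B (Γ p) (deriv Γ p) (deriv (deriv Γ) p) b o (U c p) r2)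
    (hOm : 0 < det3 a o b) :
    nt Γ T U c t * (4 * U c t * U c (nxt Γ T U c t) / (r1 ^ 3 * det3 a o b)) +
      4 * U c t * U c p / (r2 ^ 3 * det3 a o b) / nt Γ T U c p =
      2 * r0 ^ 2 + 2 * (B o a + B b o) / (r0 * det3 a o b) := by
  obtain ⟨a1, a2, a3⟩ := h.nxt_spec c t
  set s := nxt Γ T U c t with hsdef
  have u0 := C0.Upos
  have u1 := C1.Upos
  have u2 := C2.Upos
  have q0 := C0.rpos
  have q1 := C1.rpos
  have q2 := C2.rpos
  set Om := det3 a o b with hOmdef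
  have hba : det3 b a o = Om := by rw [hOmdef]; unfold det3; ring
  have d1 : dd Γ t s = r0 * r1 ^ 2 / (4 * U c t * U c s) * Om := C0.dd_next C1
  have d2 : dd Γ s t = r0 ^ 2 * r1 / (4 * U c t * U c s) * Om := C0.dd_prev C1
  have d3 : dd Γ p t = r2 * r0 ^ 2 / (4 * U c p * U c t) * Om := by
    rw [← hba]; exact C2.dd_next C0
  have d4 : dd Γ t p = r2 ^ 2 * r0 / (4 * U c p * U c t) * Om := by
    rw [← hba]; exact C2.dd_prev C0
  have x1 : ddxx Γ t s = r1 ^ 2 / (2 * U c s) * det3 (deriv (deriv Γ) t) a o := C1.line _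
  have x2 : ddxx Γ t p = r2 ^ 2 / (2 * U c p) * det3 (deriv (deriv Γ) t) o b := C2.line _
  have m := C0.main hs o
  have m2 := C0.two_U hs
  have k1 : KK Γ t s = 4 * U c t * U c s / (r1 ^ 3 * Om) := by
    unfold KK
    rw [hW, d1, d2]
    field_simp
  have k2 : KK Γ t p = 4 * U c t * U c p / (r2 ^ 3 * Om) := by
    unfold KK
    rw [hW, d3, d4]
    field_simp
  have l1 : L11 Γ t s = 2 * U c t * det3 (deriv (deriv Γ) t) a o / (r0 * Om) - U c t ^ 2 := by
    have e : (ddx Γ t s / dd Γ t s) ^ 2 = U c t ^ 2 := by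
      have : ddx Γ t s / dd Γ t s = -(U c t) := a3
      rw [this]
      ring
    unfold L11
    rw [e, x1, d1]
    field_simp
    ring
  have l2 : L11 Γ t p = 2 * U c t * det3 (deriv (deriv Γ) t) o b / (r0 * Om) - U c t ^ 2 := by
    have e : (ddx Γ t p / dd Γ t p) ^ 2 = U c t ^ 2 := by
      have : ddx Γ t p / dd Γ t p = U c t := hp
      rw [this]
    unfold L11
    rw [e, x2, d4]
    field_simp
    ring
  have hK1 : KK Γ t s ≠ 0 := (h.curve.KK_pos_right a1 a2).ne'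
  have e1 : nt Γ T U c t * KK Γ t s = -(L11 Γ t s + Ut U (c, t)) := by
    unfold nt
    rw [← hsdef]
    field_simp
  have e2 : KK Γ t p / nt Γ T U c p = Ut U (c, t) - L11 Γ t p := by
    rw [← hE]
    field_simp
  rw [← k1, ← k2, e1, e2, l1, l2]
  have e3 : -(2 * U c t * det3 (deriv (deriv Γ) t) a o / (r0 * Om) - U c t ^ 2 + Ut U (c, t)) +
      (Ut U (c, t) - (2 * U c t * det3 (deriv (deriv Γ) t) o b / (r0 * Om) - U c t ^ 2)) =
      2 * U c t ^ 2 - 2 * U c t * (det3 (deriv (deriv Γ) t) a o +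
        det3 (deriv (deriv Γ) t) o b) / (r0 * Om) := by
    field_simp
    ring
  rw [e3, m, m2, hs a o]
  field_simp
  ring

end leaf

end Pool.Agent.MP_ae5b4e_an_P3
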