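import Mathlib
import Pool.Agent.Lib.MP_ae5b4e_an_P3.Tri
import Pool.Agent.Lib.MP_ae5b4e_an_P3.Reach

/-!
# MP_ae5b4e_an, project P3, module Leaf3

The leaf inequality at a 3-periodic point, on a leaf of a normalized system.
-/

noncomputable section

namespace Pool.Agent.MP_ae5b4e_an_P3

open Set Filter Topology Real
open Pool.Agent.MP_ae5b4e_an_hopf
open Pool.Agent.MP_ae5b4e_an_hopf.Sys (nt nc)
open Pool.Agent.MP_ae5b4e_an_ALT

/-- the square root of the value of the form at a point of the leaf -/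
def rv (Γ : ℝ → Fin 3 → ℝ) (U : ℝ → ℝ → ℝ) (B : Bil) (c x : ℝ) : ℝ :=
  √(U c x ^ 2 + B (deriv Γ x) (deriv Γ x))

/-- the normalized point of the leaf on the tangent line at `x` -/
def ev (Γ : ℝ → Fin 3 → ℝ) (U : ℝ → ℝ → ℝ) (B : Bil) (c x : ℝ) : Fin 3 → ℝ :=
  (rv Γ U B c x)⁻¹ • (U c x • Γ x + deriv Γ x)

section leaf

variable {T : ℝ} {Γ : ℝ → Fin 3 → ℝ} {U : ℝ → ℝ → ℝ} {B : Bil} {c : ℝ}

variable (h : SSys T Γ U) (hs : ∀ x y, B x y = B y x) (hB1 : ∀ t, B (Γ t) (Γ t) = 1)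
  (hc : c ∈ Ioo (0:ℝ) 1) (hD : ∀ x, 0 < U c x ^ 2 + B (deriv Γ x) (deriv Γ x))

lemma rv_pos (hD : ∀ x, 0 < U c x ^ 2 + B (deriv Γ x) (deriv Γ x)) (x : ℝ) :
    0 < rv Γ U B c x := Real.sqrt_pos.2 (hD x)

lemma rv_sq (hD : ∀ x, 0 < U c x ^ 2 + B (deriv Γ x) (deriv Γ x)) (x : ℝ) :
    rv Γ U B c x ^ 2 = U c x ^ 2 + B (deriv Γ x) (deriv Γ x) := Real.sq_sqrt (hD x).le

include h hs hB1 hc hD in
lemma r_match (t : ℝ) : rv Γ U B c (nxt Γ T U c t) * dd Γ (nxt Γ T U c t) t =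
    rv Γ U B c t * dd Γ t (nxt Γ T U c t) := by
  obtain ⟨a1, a2, a3⟩ := h.nxt_spec c t
  have e1 : U c (nxt Γ T U c t) = L1 Γ (nxt Γ T U c t) t := h.feq' hc t
  have hA := h.curve.dd_pos_right a1 a2
  have hB := h.curve.dd_pos_left a1 a2
  have hDD := cocycle h.curve hs hB1 hA.ne' hB.ne'
  set s := nxt Γ T U c t
  rw [a3, ← e1, neg_sq, ← rv_sq hD, ← rv_sq hD] at hDD
  have k1 := rv_pos hD t
  have k2 := rv_pos hD s
  have k3 : (rv Γ U B c s * dd Γ s t) ^ 2 = (rv Γ U B c t * dd Γ t s) ^ 2 := by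
    linear_combination hDD
  exact (pow_left_inj₀ (by positivity) (by positivity) two_ne_zero).1 k3

include h hs hB1 hc hD in
lemma ev_match (t : ℝ) : rv Γ U B c (nxt Γ T U c t) • ev Γ U B c t =
    U c (nxt Γ T U c t) • Γ (nxt Γ T U c t) - deriv Γ (nxt Γ T U c t) := by
  obtain ⟨a1, a2, a3⟩ := h.nxt_spec c t
  have e1 : U c (nxt Γ T U c t) = L1 Γ (nxt Γ T U c t) t := h.feq' hc t
  have hA := h.curve.dd_pos_right a1 a2
  have hB := h.curve.dd_pos_left a1 a2
  have k := vertex_eq (Γ := Γ) hA.ne' hB.ne'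
  have hm := r_match h hs hB1 hc hD t
  rw [a3, ← e1, neg_neg] at k
  set s := nxt Γ T U c t
  have k1 := rv_pos hD t
  have k2 := rv_pos hD s
  have k3 : U c s • Γ s - deriv Γ s = (dd Γ s t)⁻¹ • (dd Γ t s • (U c t • Γ t + deriv Γ t)) := by
    rw [k, smul_smul, inv_mul_cancel₀ hB.ne', one_smul]
  rw [k3, ev, smul_smul, smul_smul]
  congr 1
  field_simp
  exact hm

lemma rv_smul_ev (hD : ∀ x, 0 < U c x ^ 2 + B (deriv Γ x) (deriv Γ x)) (x : ℝ) :
    rv Γ U B c x • ev Γ U B c x = U c x • Γ x + deriv Γ x := by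
  rw [ev, smul_smul, mul_inv_cancel₀ (rv_pos hD x).ne', one_smul]

include h hs hB1 hc hD in
/-- the corner at the next tangency point -/
lemma corner_nxt (hW : ∀ t, Wr Γ t = 1) (hU : ∀ x, 0 < U c x) (t : ℝ) :
    Corner B (Γ (nxt Γ T U c t)) (deriv Γ (nxt Γ T U c t)) (deriv (deriv Γ) (nxt Γ T U c t))
      (ev Γ U B c (nxt Γ T U c t)) (ev Γ U B c t) (U c (nxt Γ T U c t))
      (rv Γ U B c (nxt Γ T U c t)) :=
  corner_of h.curve hs hB1 hW (hU _) (rv_pos hD _) (rv_sq hD _) (rv_smul_ev hD _)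
    (ev_match h hs hB1 hc hD t)

include h hs hB1 hc hD in
/-- **The triangle.** -/
theorem triangle (hW : ∀ t, Wr Γ t = 1) (hU : ∀ x, 0 < U c x) {t : ℝ}
    (h3 : nxt Γ T U c (nxt Γ T U c (nxt Γ T U c t)) = t + T) :
    ∃ Z > 0, ∃ Om > 0,
      2 * Z * (rv Γ U B c (nxt Γ T U c t) * U c (nxt Γ T U c t) / nt Γ T U c t -
        rv Γ U B c t * U c t) = Om * (rv Γ U B c (nxt Γ T U c t) ^ 3 - rv Γ U B c t ^ 3) ∧
      KK Γ t (nxt Γ T U c t) =
        4 * U c t * U c (nxt Γ T U c t) / (rv Γ U B c (nxt Γ T U c t) ^ 3 * Om) ∧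
      KK Γ (nxt Γ T U c t) t =
        4 * U c t * U c (nxt Γ T U c t) / (rv Γ U B c t ^ 3 * Om) := by
  obtain ⟨a1, a2, a3⟩ := h.nxt_spec c t
  set s := nxt Γ T U c t with hsdef
  set p := nxt Γ T U c s with hpdef
  have hrT : rv Γ U B c (t + T) = rv Γ U B c t := by
    unfold rv
    rw [h.per c hc, h.curve.per1]
  have heT : ev Γ U B c (t + T) = ev Γ U B c t := by
    unfold ev
    rw [hrT, h.per c hc, h.curve.per, h.curve.per1]
  have C0 : Corner B (Γ t) (deriv Γ t) (deriv (deriv Γ) t) (ev Γ U B c t) (ev Γ U B c p) (U c t)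
      (rv Γ U B c t) := by
    have k := corner_nxt h hs hB1 hc hD hW hU p
    rw [h3, h.curve.per, h.curve.per1, h.curve.per2, h.per c hc, hrT, heT] at k
    exact k
  have C1 : Corner B (Γ s) (deriv Γ s) (deriv (deriv Γ) s) (ev Γ U B c s) (ev Γ U B c t) (U c s)
      (rv Γ U B c s) := corner_nxt h hs hB1 hc hD hW hU t
  have C2 : Corner B (Γ p) (deriv Γ p) (deriv (deriv Γ) p) (ev Γ U B c p) (ev Γ U B c s) (U c p)
      (rv Γ U B c p) := corner_nxt h hs hB1 hc hD hW hU s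
  set a := ev Γ U B c t with hadef
  set o := ev Γ U B c s with hodef
  set b := ev Γ U B c p with hbdef
  have q0 := C0.rpos
  have q1 := C1.rpos
  have q2 := C2.rpos
  have u0 := C0.Upos
  have u1 := C1.Upos
  have u2 := C2.Upos
  have hOm : 0 < det3 a o b := by
    have e := C0.dd_next C1
    have hA : 0 < det3 (Γ t) (Γ s) (deriv Γ s) := h.curve.dd_pos_right a1 a2
    rw [e] at hA
    exact (pos_iff_pos_of_mul_pos hA).1 (by positivity)
  have n0 := h.nt_pos hc t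
  have n1 := h.nt_pos hc s
  have n2 := h.nt_pos hc p
  have hcoc : ∀ t s, t < s → s < t + T →
      dd Γ s t ^ 2 * (L1 Γ s t ^ 2 + B (deriv Γ s) (deriv Γ s)) =
        dd Γ t s ^ 2 * (L1 Γ t s ^ 2 + B (deriv Γ t) (deriv Γ t)) := fun t s h1 h2 =>
    cocycle h.curve hs hB1 (h.curve.dd_pos_right h1 h2).ne' (h.curve.dd_pos_left h1 h2).ne'
  -- the product of the three derivatives
  have hprod : nt Γ T U c t * nt Γ T U c s * nt Γ T U c p = 1 := by
    have d0 := (dens_inv h hW (D := fun x => B (deriv Γ x) (deriv Γ x)) hcoc hc t (hD t)).2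
    have d1 := (dens_inv h hW (D := fun x => B (deriv Γ x) (deriv Γ x)) hcoc hc s (hD s)).2
    have d2 := (dens_inv h hW (D := fun x => B (deriv Γ x) (deriv Γ x)) hcoc hc p (hD p)).2
    rw [h3] at d2
    rw [← hsdef] at d0
    rw [← hpdef] at d1
    have e : dens U (fun x => B (deriv Γ x) (deriv Γ x)) c (t + T) =
        dens U (fun x => B (deriv Γ x) (deriv Γ x)) c t := by
      unfold dens
      simp only [h.Uc_per hc, h.per c hc, h.curve.per1]
    rw [e] at d2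
    have hpos : 0 < dens U (fun x => B (deriv Γ x) (deriv Γ x)) c t := by
      unfold dens
      have k1 := h.Uc_neg hc t
      have k2 := Real.sqrt_pos.2 (hD t)
      exact div_pos (by linarith) (by positivity)
    have hpos1 : dens U (fun x => B (deriv Γ x) (deriv Γ x)) c t *
        (nt Γ T U c t * nt Γ T U c s * nt Γ T U c p) =
        dens U (fun x => B (deriv Γ x) (deriv Γ x)) c t * 1 := by
      calc dens U (fun x => B (deriv Γ x) (deriv Γ x)) c t *
          (nt Γ T U c t * nt Γ T U c s * nt Γ T U c p)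
          = (dens U (fun x => B (deriv Γ x) (deriv Γ x)) c t * nt Γ T U c p) *
            (nt Γ T U c s * nt Γ T U c t) := by ring
        _ = (dens U (fun x => B (deriv Γ x) (deriv Γ x)) c p * nt Γ T U c s) *
            nt Γ T U c t := by rw [d2]; ring
        _ = dens U (fun x => B (deriv Γ x) (deriv Γ x)) c s * nt Γ T U c t := by rw [d1]
        _ = _ := by rw [d0]; ring
    exact mul_left_cancel₀ hpos.ne' hpos1
  -- relation at t
  have R0 := rel h hW hs (c := c) (t := t) (p := p) (a := a) (b := b) (o := o)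
    (r0 := rv Γ U B c t) (r1 := rv Γ U B c s) (r2 := rv Γ U B c p) n2 (by
      have e := h.feq' hc p
      rw [h3, h.curve.L1_per_left] at e
      rw [← e]
      exact h.per c hc t) (by
      have e := h.eq_t hc p
      rw [h3, h.Ut_per hc, h.curve.L11_per_left, h.curve.KK_per_left] at e
      exact e) C0 C1 C2 hOm
  have hOm' : det3 o b a = det3 a o b := by unfold det3; ring
  have R1 := rel h hW hs (c := c) (t := s) (p := t) (a := o) (b := a) (o := b)
    (r0 := rv Γ U B c s) (r1 := rv Γ U B c p) (r2 := rv Γ U B c t) n0 (h.feq' hc t).symm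
      (h.eq_t hc t) C1 C2 C0 (by rw [hOm']; exact hOm)
  rw [hOm'] at R1
  rw [← hsdef] at R0
  rw [← hpdef] at R1
  have A0 := C0.two_U hs
  have A1 := C1.two_U hs
  have F := tri_final (g0 := B a b) (g1 := B o a) (g2 := B b o) u0 u1 u2 q0 q1 q2 hOm n0 n2 hprod
    A0 A1 R0 (by rw [R1, hs a b])
  obtain ⟨Z, hZ, hF⟩ := F
  refine ⟨Z, hZ, det3 a o b, hOm, hF, ?_, ?_⟩
  · have d1 : dd Γ t s = rv Γ U B c t * rv Γ U B c s ^ 2 / (4 * U c t * U c s) * det3 a o b :=
      C0.dd_next C1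
    have d2 : dd Γ s t = rv Γ U B c t ^ 2 * rv Γ U B c s / (4 * U c t * U c s) * det3 a o b :=
      C0.dd_prev C1
    unfold KK
    rw [hW, d1, d2]
    field_simp
  · have d1 : dd Γ t s = rv Γ U B c t * rv Γ U B c s ^ 2 / (4 * U c t * U c s) * det3 a o b :=
      C0.dd_next C1
    have d2 : dd Γ s t = rv Γ U B c t ^ 2 * rv Γ U B c s / (4 * U c t * U c s) * det3 a o b :=
      C0.dd_prev C1
    unfold KK
    rw [hW, d1, d2]
    field_simp

include h hs hB1 hc hD in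
/-- **The leaf inequality at a 3-periodic point.** -/
theorem leaf_three_le (hW : ∀ t, Wr Γ t = 1) (hU : ∀ x, 0 < U c x) {t : ℝ}
    (h3 : nxt Γ T U c (nxt Γ T U c (nxt Γ T U c t)) = t + T) :
    dl Γ t (nxt Γ T U c t) *
      (KK Γ t (nxt Γ T U c t) * U c t / (U c t ^ 2 + B (deriv Γ t) (deriv Γ t)) * nt Γ T U c t -
        KK Γ (nxt Γ T U c t) t * U c (nxt Γ T U c t) / (U c (nxt Γ T U c t) ^ 2 +
          B (deriv Γ (nxt Γ T U c t)) (deriv Γ (nxt Γ T U c t)))) ≤ 0 := by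
  obtain ⟨Z, hZ, Om, hOm, e1, e2, e3⟩ := triangle h hs hB1 hc hD hW hU h3
  obtain ⟨a1, a2, a3⟩ := h.nxt_spec c t
  have hA := h.curve.dd_pos_right a1 a2
  have hB := h.curve.dd_pos_left a1 a2
  have hm := r_match h hs hB1 hc hD t
  have n0 := h.nt_pos hc t
  set s := nxt Γ T U c t
  rw [← rv_sq hD, ← rv_sq hD, e2, e3]
  have q0 := rv_pos hD t
  have q1 := rv_pos hD s
  have u0 := hU t
  have u1 := hU s
  set r0 := rv Γ U B c t
  set r1 := rv Γ U B c s
  set n := nt Γ T U c t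
  have hdl : dl Γ t s = log r1 - log r0 := by
    have k := congrArg log hm
    rw [log_mul q1.ne' hB.ne', log_mul q0.ne' hA.ne'] at k
    unfold dl
    linarith
  have e4 : 4 * U c t * U c s / (r1 ^ 3 * Om) * U c t / r0 ^ 2 * n -
      4 * U c t * U c s / (r0 ^ 3 * Om) * U c s / r1 ^ 2 =
      -(4 * U c t * U c s * n / (r0 ^ 3 * r1 ^ 3 * Om)) * (r1 * U c s / n - r0 * U c t) := by
    field_simp
    ring
  have e5 : r1 * U c s / n - r0 * U c t = Om * (r1 ^ 3 - r0 ^ 3) / (2 * Z) := by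
    rw [← e1]
    field_simp
  rw [hdl, e4, e5]
  have hc1 : 0 < 4 * U c t * U c s * n / (r0 ^ 3 * r1 ^ 3 * Om) * (Om / (2 * Z)) := by positivity
  have e6 : (log r1 - log r0) * (-(4 * U c t * U c s * n / (r0 ^ 3 * r1 ^ 3 * Om)) *
      (Om * (r1 ^ 3 - r0 ^ 3) / (2 * Z))) =
      -((4 * U c t * U c s * n / (r0 ^ 3 * r1 ^ 3 * Om) * (Om / (2 * Z))) *
        ((log r1 - log r0) * (r1 ^ 3 - r0 ^ 3))) := by ring
  rw [e6]
  have hsgn : 0 ≤ (log r1 - log r0) * (r1 ^ 3 - r0 ^ 3) := by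
    rcases le_total r0 r1 with hle | hle
    · have k1 := Real.log_le_log q0 hle
      have k2 : r0 ^ 3 ≤ r1 ^ 3 := pow_le_pow_left₀ q0.le hle 3
      exact mul_nonneg (by linarith) (by linarith)
    · have k1 := Real.log_le_log q1 hle
      have k2 : r1 ^ 3 ≤ r0 ^ 3 := pow_le_pow_left₀ q1.le hle 3
      exact mul_nonneg_of_nonpos_of_nonpos (by linarith) (by linarith)
  have := mul_nonneg hc1.le hsgn
  linarith

end leaf

end Pool.Agent.MP_ae5b4e_an_P3
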