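import Mathlib
import Pool.Agent.Lib.MP_ae5b4e_an_P3.Leaf3
import Pool.Agent.Lib.MP_ae5b4e_an_P3.Concl

/-!
# MP_ae5b4e_an, project P3, module Core

If a leaf consists of 3-periodic points then `dd` is symmetric below this leaf.
-/

noncomputable section

namespace Pool.Agent.MP_ae5b4e_an_P3

open Set Filter Topology Real
open scoped ContDiff
open Pool.Agent.MP_ae5b4e_an_hopf
open Pool.Agent.MP_ae5b4e_an_hopf.Sys (nt nc)
open Pool.Agent.MP_ae5b4e_an_ALT

variable {T : ℝ} {Γ : ℝ → Fin 3 → ℝ} {U : ℝ → ℝ → ℝ} {B : Bil}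

lemma bil_smooth {f g : ℝ → Fin 3 → ℝ} (hf : ContDiff ℝ ∞ f) (hg : ContDiff ℝ ∞ g) :
    ContDiff ℝ ∞ fun t => B (f t) (g t) := by
  have e : ∀ x y : Fin 3 → ℝ,
      B x y = ∑ i, ∑ j, B (Pi.single i 1) (Pi.single j 1) * (x i * y j) := by
    intro x y
    have hx : x = ∑ i, x i • (Pi.single i 1 : Fin 3 → ℝ) := by
      funext k
      simp [Pi.single_apply]
    have hy : y = ∑ i, y i • (Pi.single i 1 : Fin 3 → ℝ) := by
      funext k
      simp [Pi.single_apply]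
    conv_lhs => rw [hx, hy]
    simp only [map_sum, map_smul, LinearMap.sum_apply, LinearMap.smul_apply, smul_eq_mul]
    rw [Finset.sum_comm]
    refine Finset.sum_congr rfl fun i _ => ?_
    rw [Finset.mul_sum]
    refine Finset.sum_congr rfl fun j _ => ?_
    ring
  rw [contDiff_pi] at hf hg
  have k : (fun t => B (f t) (g t)) =
      fun t => ∑ i, ∑ j, B (Pi.single i 1) (Pi.single j 1) * (f t i * g t j) :=
    funext fun t => e _ _
  rw [k]
  exact ContDiff.sum fun i _ => ContDiff.sum fun j _ => contDiff_const.mul ((hf i).mul (hg j))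

/-- the data of a bilinear form -/
lemma qd_of_bil (hC : Curve T Γ) (hs : ∀ x y, B x y = B y x) (hB1 : ∀ t, B (Γ t) (Γ t) = 1) :
    Mn.QD T Γ fun t => B (deriv Γ t) (deriv Γ t) where
  smooth := bil_smooth hC.smooth1 hC.smooth1
  per := fun t => by simp only [hC.per1]
  rel := fun _ _ h1 h2 =>
    cocycle hC hs hB1 (hC.dd_pos_right h1 h2).ne' (hC.dd_pos_left h1 h2).ne'

/-- on a leaf of 3-periodic points the coordinate is positive -/
lemma U_pos_of_three (h : SSys T Γ U) {c : ℝ} (hc : c ∈ Ioo (0:ℝ) 1)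
    (h3 : ∀ t, nxt Γ T U c (nxt Γ T U c (nxt Γ T U c t)) = t + T) (t : ℝ) : 0 < U c t := by
  by_contra hneg
  push Not at hneg
  have hTp := h.T_pos
  set p := nxt Γ T U c (nxt Γ T U c t) - T with hp
  have e0 : p + T = nxt Γ T U c (nxt Γ T U c t) := by rw [hp]; ring
  have e1 : nxt Γ T U c p = t := by
    have k := h.nxt_per hc p
    rw [e0, h3] at k
    linarith
  obtain ⟨b1, b2, -⟩ := h.nxt_spec c p
  rw [e1] at b1 b2
  -- the backward point
  have f1 : U c t = L1 Γ t p := by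
    have k : U c (nxt Γ T U c p) = L1 Γ (nxt Γ T U c p) p := h.feq' hc p
    rw [e1] at k
    exact k
  obtain ⟨a1, a2, a3⟩ := h.nxt_spec c t
  -- three steps from `t` without the last one
  have g1 : nxt Γ T U c t < p + T := by
    obtain ⟨d1, -, -⟩ := h.nxt_spec c (nxt Γ T U c t)
    rw [e0]
    exact d1
  have g2 : L1 Γ t (nxt Γ T U c t) < L1 Γ t (p + T) := by
    have hmono : StrictMonoOn (fun y => L1 Γ t y) (Ioo t (t + T)) := by
      refine strictMonoOn_of_deriv_pos (convex_Ioo _ _) ?_ ?_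
      · intro y hy
        exact (h.curve.hasDerivAt_L1_right
          (h.curve.dd_pos_right hy.1 hy.2).ne').continuousAt.continuousWithinAt
      · intro y hy
        rw [interior_Ioo] at hy
        rw [(h.curve.hasDerivAt_L1_right (h.curve.dd_pos_right hy.1 hy.2).ne').deriv]
        exact h.curve.KK_pos_right hy.1 hy.2
    exact hmono ⟨a1, a2⟩ ⟨by linarith, by linarith⟩ g1
  rw [h.curve.L1_per_right, a3, ← f1] at g2
  linarith

/-- **Core.**  Below a leaf of 3-periodic points the curve is symmetric. -/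
theorem core (h : SSys T Γ U) (hW : ∀ y, Wr Γ y = 1) (hs : ∀ x y, B x y = B y x)
    (hB1 : ∀ t, B (Γ t) (Γ t) = 1) {b : ℝ} (hb : b ≤ 1)
    (hp : ∀ c ∈ Ioo 0 b, ∀ t, 0 < U c t ^ 2 + B (deriv Γ t) (deriv Γ t)) {c₀ : ℝ}
    (hc₀ : c₀ ∈ Ioo 0 b) (h3 : ∀ t, nxt Γ T U c₀ (nxt Γ T U c₀ (nxt Γ T U c₀ t)) = t + T)
    {t s : ℝ} (h1 : t < s) (h2 : s < nxt Γ T U c₀ t) : dd Γ t s = dd Γ s t := by
  have hc1 : c₀ ∈ Ioo (0:ℝ) 1 := ⟨hc₀.1, hc₀.2.trans_le hb⟩
  refine Mn.dd_symm (D := fun t => B (deriv Γ t) (deriv Γ t)) h (qd_of_bil h.curve hs hB1) hW hb hp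
    hc₀ ?_ h1 h2
  have k := intervalIntegral.integral_nonneg (μ := MeasureTheory.volume) h.T_pos.le
    (f := fun t => -(Mn.BI Γ T U (fun t => B (deriv Γ t) (deriv Γ t)) c₀ t)) fun t _ =>
      neg_nonneg.2 (leaf_three_le h hs hB1 hc1 (hp c₀ hc₀) hW (U_pos_of_three h hc1 h3) (h3 t))
  rw [intervalIntegral.integral_neg] at k
  unfold Mn.BB
  linarith

/-- the leaves below are levels of the form -/
theorem core_level (h : SSys T Γ U) (hW : ∀ y, Wr Γ y = 1) (hs : ∀ x y, B x y = B y x)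
    (hB1 : ∀ t, B (Γ t) (Γ t) = 1) {b : ℝ} (hb : b ≤ 1)
    (hp : ∀ c ∈ Ioo 0 b, ∀ t, 0 < U c t ^ 2 + B (deriv Γ t) (deriv Γ t)) {c₀ : ℝ}
    (hc₀ : c₀ ∈ Ioo 0 b) (h3 : ∀ t, nxt Γ T U c₀ (nxt Γ T U c₀ (nxt Γ T U c₀ t)) = t + T)
    {c : ℝ} (hc : c ∈ Ioo 0 c₀) (t t' : ℝ) :
    U c t ^ 2 + B (deriv Γ t) (deriv Γ t) = U c t' ^ 2 + B (deriv Γ t') (deriv Γ t') := by
  have hc1 : c₀ ∈ Ioo (0:ℝ) 1 := ⟨hc₀.1, hc₀.2.trans_le hb⟩
  refine Mn.leaf_level (D := fun t => B (deriv Γ t) (deriv Γ t)) h (qd_of_bil h.curve hs hB1) hW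
    hb hp hc₀ ?_ hc t t'
  have k := intervalIntegral.integral_nonneg (μ := MeasureTheory.volume) h.T_pos.le
    (f := fun t => -(Mn.BI Γ T U (fun t => B (deriv Γ t) (deriv Γ t)) c₀ t)) fun t _ =>
      neg_nonneg.2 (leaf_three_le h hs hB1 hc1 (hp c₀ hc₀) hW (U_pos_of_three h hc1 h3) (h3 t))
  rw [intervalIntegral.integral_neg] at k
  unfold Mn.BB
  linarith

end Pool.Agent.MP_ae5b4e_an_P3
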