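import Mathlib
import Pool.Agent.Lib.MP_ae5b4e_an_P3.Leaf3

/-!
# MP_ae5b4e_an, project P3, module Quad

The leaf inequality on a leaf of 4-periodic points of a centrally symmetric curve, for the class
of a quadratic form: the algebra.
-/

noncomputable section

namespace Pool.Agent.MP_ae5b4e_an_P3

open Set Filter Topology Real
open Pool.Agent.MP_ae5b4e_an_hopf
open Pool.Agent.MP_ae5b4e_an_hopf.Sys (nt nc)
open Pool.Agent.MP_ae5b4e_an_ALT

/-- the central symmetry of the affine plane in homogeneous coordinates -/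
def Mc (v : Fin 3 → ℝ) : Fin 3 → ℝ := ![-(v 0), -(v 1), v 2]

/-- the center in homogeneous coordinates -/
def nv : Fin 3 → ℝ := ![0, 0, 1]

lemma Mc_eq (v : Fin 3 → ℝ) : Mc v = -v + (2 * v 2) • nv := by
  funext i
  fin_cases i <;> simp [Mc, nv] <;> ring

lemma Mc_Mc (v : Fin 3 → ℝ) : Mc (Mc v) = v := by
  funext i
  fin_cases i <;> simp [Mc]

lemma Mc_smul (s : ℝ) (v : Fin 3 → ℝ) : Mc (s • v) = s • Mc v := by
  funext i
  fin_cases i <;> simp [Mc]

lemma Mc_add (v w : Fin 3 → ℝ) : Mc (v + w) = Mc v + Mc w := by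
  funext i
  fin_cases i <;> simp [Mc] <;> ring

lemma det3_Mc (a b c : Fin 3 → ℝ) : det3 (Mc a) (Mc b) (Mc c) = det3 a b c := by
  unfold det3 Mc
  simp
  ring

/-- the center is orthogonal to the fixed plane -/
lemma bil_nv {B : Bil} (hM : ∀ x y, B (Mc x) (Mc y) = B x y) (v : Fin 3 → ℝ) :
    B nv v = B nv nv * v 2 := by
  have e := hM nv v
  have e1 : Mc nv = nv := by
    funext i
    fin_cases i <;> simp [Mc, nv]
  rw [e1, Mc_eq v] at e
  simp only [map_add, map_neg, map_smul, smul_eq_mul] at e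
  linarith

lemma bil_nv' {B : Bil} (hs : ∀ x y, B x y = B y x) (hM : ∀ x y, B (Mc x) (Mc y) = B x y)
    (v : Fin 3 → ℝ) : B v nv = B nv nv * v 2 := by rw [hs, bil_nv hM]

namespace Corner

variable {B : Bil} {G G1 G2 a b : Fin 3 → ℝ} {U r : ℝ}

/-- the two neighbouring lines of a corner of a centrally symmetric quadrangle -/
lemma main4 (h : Corner B G G1 G2 a b U r) (hs : ∀ x y, B x y = B y x)
    (hM : ∀ x y, B (Mc x) (Mc y) = B x y) (o : Fin 3 → ℝ) (hoo : B o o = 1) (hb : b = Mc o) :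
    U * (a 2 * det3 G2 a o + o 2 * det3 G2 (Mc a) b) =
      (a 2 + o 2) * (1 - B a o) - a 2 * o 2 * det3 a o nv * (r ^ 3 * (1 - B a b)) := by
  have hU := h.Upos
  have hr := h.rpos
  have e7 := h.two_U hs
  have hg : 0 < 1 + B a b := by
    by_contra hneg
    push Not at hneg
    nlinarith [sq_nonneg r, mul_pos hU hU]
  set q := B nv nv with hq
  have n1 : ∀ v, B nv v = q * v 2 := bil_nv hM
  have n2 : ∀ v, B v nv = q * v 2 := bil_nv' hs hM
  -- pairing with `a + b`
  have e1 : B (a + b) G2 = -(U * r * (1 - B a b)) := by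
    have k1 := h.h2
    rw [h.hG, h.hG1] at k1
    simp only [map_add, map_sub, map_smul, LinearMap.add_apply, LinearMap.sub_apply,
      LinearMap.smul_apply, smul_eq_mul, h.haa, h.hbb, hs b a] at k1 ⊢
    field_simp at k1
    linarith
  have e2 : det3 a G2 b = 2 * U / r ^ 2 := by
    have k1 := h.hW
    rw [h.hG, h.hG1, det3_smul_left, det3_smul_mid] at k1
    have k2 : det3 (a + b) (a - b) G2 = 2 * det3 a G2 b := by simp [det3]; ring
    rw [k2] at k1
    field_simp at k1 ⊢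
    linarith
  -- coordinates in the basis `a, o, nv`
  have e3 := congrArg (fun v => B (a + b) v) (cramer3 a o nv G2)
  simp only [map_add, map_smul, smul_eq_mul] at e3
  set Δ := det3 a o nv with hΔdef
  set A' := det3 G2 o nv with hA'
  set B' := det3 a G2 nv with hB'
  set u := det3 a o G2 with hu
  have f1 : det3 G2 a o = u := by rw [hu]; unfold det3; ring
  have f2 : det3 a G2 b = u + 2 * o 2 * B' := by
    rw [hb, Mc_eq, hu, hB']
    unfold det3 nv
    simp
    ring
  have f3 : det3 G2 (Mc a) b = u + 2 * o 2 * B' + 2 * a 2 * A' := by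
    rw [hb, Mc_eq, Mc_eq, hu, hB', hA']
    unfold det3 nv
    simp
    ring
  have g0 : B a b = 2 * q * (a 2 * o 2) - B a o := by
    rw [hb, Mc_eq]
    simp only [map_add, map_neg, map_smul, smul_eq_mul, n2]
    ring
  have gbo : B b o = -1 + 2 * q * (o 2 * o 2) := by
    rw [hb, Mc_eq]
    simp only [map_add, map_neg, map_smul, LinearMap.add_apply, LinearMap.neg_apply,
      LinearMap.smul_apply, smul_eq_mul, n1, hoo]
    ring
  have hb2 : b 2 = o 2 := by rw [hb]; simp [Mc]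
  have g3 : B (a + b) a = 1 + B a b := by
    simp only [map_add, LinearMap.add_apply, h.haa, hs b a]
  have g4 : B (a + b) o = B a o - 1 + 2 * q * (o 2 * o 2) := by
    simp only [map_add, LinearMap.add_apply, gbo]
    ring
  have g5 : B (a + b) nv = q * (a 2 + o 2) := by
    simp only [map_add, LinearMap.add_apply, n2, hb2]
    ring
  have e3' : Δ * B (a + b) G2 = A' * (1 + B a b) + B' * (B a o - 1 + 2 * q * (o 2 * o 2)) +
      u * (q * (a 2 + o 2)) := by
    rw [← g3, ← g4, ← g5]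
    simp only [map_add, LinearMap.add_apply] at e3 ⊢
    linarith
  rw [e1] at e3'
  rw [f2] at e2
  rw [f1, f3]
  set α := a 2
  set β := o 2
  set g1 := B a o
  set γ := B a b
  -- eliminate `A'`
  have e8 : (1 + γ) * (U * (α * u + β * (u + 2 * β * B' + 2 * α * A'))) =
      (1 + γ) * ((α + β) * (1 - g1) - α * β * Δ * (r ^ 3 * (1 - γ))) := by
    have k1 : (1 + γ) * (2 * α * β * A') = 2 * α * β * (-(Δ * (U * r * (1 - γ))) -
        B' * (g1 - 1 + 2 * q * (β * β)) - u * (q * (α + β))) := by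
      linear_combination (-2 * α * β) * e3'
    have k2 : 2 * β * B' = 2 * U / r ^ 2 - u := by linarith
    have k3 : 2 * U ^ 2 = r ^ 2 * (1 + γ) := e7
    have k4 : (1 + γ) * (α * u + β * (u + 2 * β * B' + 2 * α * A')) =
        (2 * U / r ^ 2) * ((α + β) * (1 - g1)) - 2 * α * β * Δ * (U * r * (1 - γ)) := by
      have k5 : (1 + γ) * (α * u + β * (u + 2 * β * B' + 2 * α * A')) =
          (1 + γ) * α * u + (1 + γ) * β * (2 * U / r ^ 2) + (1 + γ) * (2 * α * β * A') := by
        rw [← e2]; ring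
      rw [k5, k1]
      have k6 : 2 * α * β * (-(Δ * (U * r * (1 - γ))) - B' * (g1 - 1 + 2 * q * (β * β)) -
          u * (q * (α + β))) = -(2 * α * β * Δ * (U * r * (1 - γ))) -
          α * (2 * β * B') * (g1 - 1 + 2 * q * (β * β)) - 2 * q * (α * β) * (α + β) * u := by
        ring
      rw [k6, k2, g0]
      ring
    calc (1 + γ) * (U * (α * u + β * (u + 2 * β * B' + 2 * α * A')))
        = U * ((1 + γ) * (α * u + β * (u + 2 * β * B' + 2 * α * A'))) := by ring
      _ = U * ((2 * U / r ^ 2) * ((α + β) * (1 - g1)) - 2 * α * β * Δ * (U * r * (1 - γ))) := by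
          rw [k4]
      _ = (2 * U ^ 2) * ((α + β) * (1 - g1) / r ^ 2 - α * β * Δ * (r * (1 - γ))) := by
          field_simp
      _ = _ := by
          rw [k3]
          field_simp
  exact mul_left_cancel₀ hg.ne' e8

end Corner

/-- the final algebra of the quadrangle -/
lemma quad_final {U0 U1 r0 r1 h n g0 g1 : ℝ} (hr0 : 0 < r0)
    (hr1 : 0 < r1) (hh : 0 < h) (hn : 0 < n) (A0 : 2 * U0 ^ 2 = r0 ^ 2 * (1 + g0))
    (A1 : 2 * U1 ^ 2 = r1 ^ 2 * (1 + g1))
    (R0 : n * (2 * U0 * U1 * h / r1 ^ 3) = 2 * r0 ^ 2 - (1 - g1) * h / r0)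
    (R1 : 1 / n * (2 * U0 * U1 * h / r0 ^ 3) = 2 * r1 ^ 2 - (1 - g0) * h / r1) :
    (r1 * U1 / n - r0 * U0) * (n * (U0 / (n * r0 ^ 3) + U1 / r1 ^ 3) * h) = r1 ^ 3 - r0 ^ 3 := by
  have k0 : r0 ^ 3 - h = -(h * U1 / r1 ^ 3) * (r1 * U1 - n * r0 * U0) := by
    have e : g1 = 2 * U1 ^ 2 / r1 ^ 2 - 1 := by
      field_simp
      linarith
    rw [e] at R0
    field_simp at R0 ⊢
    linarith
  have k1 : r1 ^ 3 - h = (h * U0 / (n * r0 ^ 3)) * (r1 * U1 - n * r0 * U0) := by
    have e : g0 = 2 * U0 ^ 2 / r0 ^ 2 - 1 := by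
      field_simp
      linarith
    rw [e] at R1
    field_simp at R1 ⊢
    linarith
  have k2 : r1 ^ 3 - r0 ^ 3 = (r1 ^ 3 - h) - (r0 ^ 3 - h) := by ring
  rw [k2, k0, k1]
  field_simp
  ring

end Pool.Agent.MP_ae5b4e_an_P3
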