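import Mathlib
import Pool.Agent.Lib.MP_ae5b4e_an_P3.Quad
import Pool.Agent.Lib.MP_ae5b4e_an_P3.Core

/-!
# MP_ae5b4e_an, project P3, module Sym4

A leaf of 4-periodic points of a centrally symmetric curve: it is symmetric, two steps are the
symmetry, and the leaf inequality holds on it.
-/

noncomputable section

namespace Pool.Agent.MP_ae5b4e_an_P3

open Set Filter Topology Real
open Pool.Agent.MP_ae5b4e_an_total (surjective_of_shift)
open Pool.Agent.MP_ae5b4e_an_hopf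
open Pool.Agent.MP_ae5b4e_an_hopf.Sys (nt nc)
open Pool.Agent.MP_ae5b4e_an_ALT

variable {T τ : ℝ} {Γ : ℝ → Fin 3 → ℝ} {U : ℝ → ℝ → ℝ} {B : Bil} {c : ℝ}

lemma hasDerivAt_Mc {f : ℝ → Fin 3 → ℝ} {f' : Fin 3 → ℝ} {t : ℝ} (hf : HasDerivAt f f' t) :
    HasDerivAt (fun s => Mc (f s)) (Mc f') t := by
  rw [hasDerivAt_pi] at hf ⊢
  intro i
  fin_cases i
  · exact (hf 0).neg
  · exact (hf 1).neg
  · exact hf 2

section curve

variable (hC : Curve T Γ) (hM : ∀ t, Γ (t + τ) = Mc (Γ t))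
include hC hM

lemma M_deriv (t : ℝ) : deriv Γ (t + τ) = Mc (deriv Γ t) := by
  have h1 := (hC.hd0 (t + τ)).comp_add_const t τ
  have h2 := hasDerivAt_Mc (hC.hd0 t)
  have h3 : (fun s => Γ (s + τ)) = fun s => Mc (Γ s) := funext hM
  rw [h3] at h1
  exact h1.unique h2

lemma M_deriv2 (t : ℝ) : deriv (deriv Γ) (t + τ) = Mc (deriv (deriv Γ) t) := by
  have h1 := (hC.hd1 (t + τ)).comp_add_const t τ
  have h2 := hasDerivAt_Mc (hC.hd1 t)
  have h3 : (fun s => deriv Γ (s + τ)) = fun s => Mc (deriv Γ s) := funext (M_deriv hC hM)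
  rw [h3] at h1
  exact h1.unique h2

lemma dd_M (x y : ℝ) : dd Γ (x + τ) (y + τ) = dd Γ x y := by
  unfold dd
  rw [hM, hM, M_deriv hC hM, det3_Mc]

lemma L1_M (x y : ℝ) : L1 Γ (x + τ) (y + τ) = L1 Γ x y := by
  unfold L1 ddx
  rw [dd_M hC hM, hM, M_deriv hC hM, M_deriv hC hM, det3_Mc]

lemma L11_M (x y : ℝ) : L11 Γ (x + τ) (y + τ) = L11 Γ x y := by
  unfold L11 ddx ddxx
  rw [dd_M hC hM, hM, M_deriv hC hM, M_deriv hC hM, M_deriv2 hC hM, det3_Mc, det3_Mc]

lemma KK_M (x y : ℝ) : KK Γ (x + τ) (y + τ) = KK Γ x y := by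
  unfold KK Wr
  rw [dd_M hC hM, dd_M hC hM, hM, M_deriv hC hM, M_deriv2 hC hM, det3_Mc]

end curve

section leaf

variable (h : SSys T Γ U) (hτ : τ + τ = T) (hM : ∀ t, Γ (t + τ) = Mc (Γ t))
  (hc : c ∈ Ioo (0:ℝ) 1)
include h

lemma nxt_mono (hc : c ∈ Ioo (0:ℝ) 1) : StrictMono (nxt Γ T U c) :=
  strictMono_of_hasDerivAt_pos (h.hasDerivAt_nxt_t hc) (h.nt_pos hc)

lemma nxt_surj (hc : c ∈ Ioo (0:ℝ) 1) : Function.Surjective (nxt Γ T U c) :=
  surjective_of_shift h.T_pos (h.continuous_nxt hc) (h.nxt_per hc)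

include hM hc

/-- one step of the comparison of a leaf with its image under the symmetry -/
lemma step_symm {x : ℝ} (hx : U c (x + τ) < U c x) :
    U c (nxt Γ T U c (x + τ)) < U c (nxt Γ T U c (x + τ) - τ) ∧
      nxt Γ T U c x < nxt Γ T U c (x + τ) - τ := by
  obtain ⟨a1, a2, a3⟩ := h.nxt_spec c x
  obtain ⟨b1, b2, b3⟩ := h.nxt_spec c (x + τ)
  have hmono := fun t => h.curve.strictMono_L1 t
  set y := nxt Γ T U c (x + τ) - τ with hy
  have hyτ : nxt Γ T U c (x + τ) = y + τ := by rw [hy]; ring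
  rw [hyτ] at b1 b2 b3 ⊢
  rw [L1_M h.curve hM] at b3
  have hy1 : x < y := by linarith
  have hy2 : y < x + T := by linarith
  have hlt : nxt Γ T U c x < y := by
    refine ((hmono x).lt_iff_lt ⟨a1, a2⟩ ⟨hy1, hy2⟩).1 ?_
    show L1 Γ x _ < L1 Γ x y
    rw [a3, b3]
    linarith
  refine ⟨?_, hlt⟩
  obtain ⟨x', hx'⟩ := nxt_surj h hc y
  have hxx : x < x' := by
    have : nxt Γ T U c x < nxt Γ T U c x' := by rw [hx']; exact hlt
    exact (nxt_mono h hc).lt_iff_lt.1 this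
  obtain ⟨d1, d2, -⟩ := h.nxt_spec c x'
  rw [hx'] at d1 d2
  have e1 : U c (nxt Γ T U c x') = L1 Γ (nxt Γ T U c x') x' := h.feq' hc x'
  have e2 : U c (nxt Γ T U c (x + τ)) = L1 Γ (nxt Γ T U c (x + τ)) (x + τ) := h.feq' hc (x + τ)
  rw [hx'] at e1
  rw [hyτ, L1_M h.curve hM] at e2
  rw [e1, e2, ← h.curve.L1_per_right y x, ← h.curve.L1_per_right y x']
  exact (hmono y) ⟨hy2, by linarith⟩ ⟨d2, by linarith⟩ (by linarith)

include hτ in
/-- a leaf of 4-periodic points is symmetric -/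
lemma U_symm (h4 : ∀ t, nxt Γ T U c (nxt Γ T U c (nxt Γ T U c (nxt Γ T U c t))) = t + T)
    (t : ℝ) : U c (t + τ) = U c t := by
  have key : ∀ x, U c x ≤ U c (x + τ) := by
    intro x₀
    by_contra hneg
    push Not at hneg
    set f := nxt Γ T U c with hf
    have hm : StrictMono f := nxt_mono h hc
    obtain ⟨p1, q1⟩ := step_symm h hM hc hneg
    rw [← hf] at p1 q1
    set x₁ := f (x₀ + τ) - τ with hx1
    have e1 : f (x₀ + τ) = x₁ + τ := by rw [hx1]; ring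
    rw [e1] at p1
    obtain ⟨p2, q2⟩ := step_symm h hM hc p1
    rw [← hf] at p2 q2
    set x₂ := f (x₁ + τ) - τ with hx2
    have e2 : f (x₁ + τ) = x₂ + τ := by rw [hx2]; ring
    rw [e2] at p2
    obtain ⟨p3, q3⟩ := step_symm h hM hc p2
    rw [← hf] at p3 q3
    set x₃ := f (x₂ + τ) - τ with hx3
    have e3 : f (x₂ + τ) = x₃ + τ := by rw [hx3]; ring
    rw [e3] at p3
    obtain ⟨p4, q4⟩ := step_symm h hM hc p3
    rw [← hf] at p4 q4
    have k1 : f (f (f (f (x₀ + τ)))) = f (x₃ + τ) := by rw [e1, e2, e3]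
    have k2 := h4 (x₀ + τ)
    have k3 := h4 x₀
    have k4 : f (f (f (f x₀))) < f x₃ := by
      have m1 : f (f x₀) < f x₁ := hm q1
      have m2 : f (f (f x₀)) < f x₂ := (hm m1).trans (hm q2)
      have m3 : f (f (f (f x₀))) < f (f x₂) := hm m2
      exact m3.trans (hm q3)
    rw [k1] at k2
    linarith
  have k1 := key t
  have k2 := key (t + τ)
  have e : t + τ + τ = t + T := by rw [← hτ]; ring
  rw [e, h.per c hc] at k2
  exact le_antisymm k2 k1

omit hc in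
/-- the step commutes with the symmetry on a symmetric leaf -/
lemma nxt_symm (hU : ∀ t, U c (t + τ) = U c t) (t : ℝ) :
    nxt Γ T U c (t + τ) = nxt Γ T U c t + τ := by
  obtain ⟨a1, a2, a3⟩ := h.nxt_spec c t
  obtain ⟨b1, b2, b3⟩ := h.nxt_spec c (t + τ)
  refine (h.curve.strictMono_L1 (t + τ)).injOn ⟨b1, b2⟩ ⟨by linarith, by linarith⟩ ?_
  show L1 Γ (t + τ) _ = L1 Γ (t + τ) _
  rw [b3, L1_M h.curve hM, a3, hU]

include hτ in
/-- two steps are the symmetry -/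
lemma two_steps (h4 : ∀ t, nxt Γ T U c (nxt Γ T U c (nxt Γ T U c (nxt Γ T U c t))) = t + T)
    (t : ℝ) : nxt Γ T U c (nxt Γ T U c t) = t + τ := by
  have hU := U_symm h hτ hM hc h4
  have hm : StrictMono (nxt Γ T U c) := nxt_mono h hc
  have e : ∀ t, nxt Γ T U c (nxt Γ T U c (t + τ)) = nxt Γ T U c (nxt Γ T U c t) + τ := by
    intro t
    rw [nxt_symm h hM hU, nxt_symm h hM hU]
  rcases lt_trichotomy (nxt Γ T U c (nxt Γ T U c t)) (t + τ) with hlt | heq | hgt
  · exfalso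
    have k1 := hm (hm hlt)
    rw [e] at k1
    have := h4 t
    linarith
  · exact heq
  · exfalso
    have k1 := hm (hm hgt)
    rw [e] at k1
    have := h4 t
    linarith

end leaf

/-- the two forms of the derivative of `U` at a corner of a symmetric quadrangle, compared -/
lemma rel4 (h : SSys T Γ U) (hW : ∀ t, Wr Γ t = 1) (hs : ∀ x y, B x y = B y x)
    (hB : ∀ x y, B (Mc x) (Mc y) = B x y) {t p : ℝ}
    (hn : 0 < nt Γ T U c p) (hp : L1 Γ t p = U c t)
    (hE : (Ut U (c, t) - L11 Γ t p) * nt Γ T U c p = KK Γ t p)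
    {a b o : Fin 3 → ℝ} {r0 r1 r2 : ℝ}
    (C0 : Corner B (Γ t) (deriv Γ t) (deriv (deriv Γ) t) a b (U c t) r0)
    (C1 : Corner B (Γ (nxt Γ T U c t)) (deriv Γ (nxt Γ T U c t))
      (deriv (deriv Γ) (nxt Γ T U c t)) o a (U c (nxt Γ T U c t)) r1)
    (C2 : Corner B (Γ p) (deriv Γ p) (deriv (deriv Γ) p) b (Mc a) (U c p) r2)
    (hb : b = Mc o) (hOm : 0 < det3 a o b) (hOm' : 0 < det3 b a (Mc a)) :
    nt Γ T U c t * (4 * U c t * U c (nxt Γ T U c t) / (r1 ^ 3 * det3 a o b)) +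
      4 * U c t * U c p / (r2 ^ 3 * det3 b a (Mc a)) / nt Γ T U c p =
      2 * r0 ^ 2 - (1 - B a o) * ((a 2 + o 2) / (a 2 * o 2 * det3 a o nv)) / r0 := by
  obtain ⟨a1, a2, a3⟩ := h.nxt_spec c t
  set s := nxt Γ T U c t with hsdef
  have u0 := C0.Upos
  have u1 := C1.Upos
  have u2 := C2.Upos
  have q0 := C0.rpos
  have q1 := C1.rpos
  have q2 := C2.rpos
  have m := C0.main4 hs hB o C1.haa hb
  have m2 := C0.two_U hs
  have hO1 : det3 a o b = 2 * o 2 * det3 a o nv := by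
    rw [hb, Mc_eq]
    unfold det3 nv
    simp
    ring
  have hO2 : det3 b a (Mc a) = 2 * a 2 * det3 a o nv := by
    rw [hb, Mc_eq, Mc_eq]
    unfold det3 nv
    simp
    ring
  set Om := det3 a o b with hOmdef
  set Om' := det3 b a (Mc a) with hOmdef'
  set Δ := det3 a o nv with hΔ
  have hα : a 2 ≠ 0 := by
    rintro h0
    rw [hO2, h0] at hOm'
    simp at hOm'
  have hβ : o 2 ≠ 0 := by
    rintro h0
    rw [hO1, h0] at hOm
    simp at hOm
  have hΔ0 : Δ ≠ 0 := by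
    rintro h0
    rw [hO1, h0] at hOm
    simp at hOm
  have d1 : dd Γ t s = r0 * r1 ^ 2 / (4 * U c t * U c s) * Om := C0.dd_next C1
  have d2 : dd Γ s t = r0 ^ 2 * r1 / (4 * U c t * U c s) * Om := C0.dd_prev C1
  have d3 : dd Γ p t = r2 * r0 ^ 2 / (4 * U c p * U c t) * Om' := C2.dd_next C0
  have d4 : dd Γ t p = r2 ^ 2 * r0 / (4 * U c p * U c t) * Om' := C2.dd_prev C0
  have x1 : ddxx Γ t s = r1 ^ 2 / (2 * U c s) * det3 (deriv (deriv Γ) t) a o := C1.line _
  have x2 : ddxx Γ t p = r2 ^ 2 / (2 * U c p) * det3 (deriv (deriv Γ) t) (Mc a) b := C2.line _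
  have k1 : KK Γ t s = 4 * U c t * U c s / (r1 ^ 3 * Om) := by
    unfold KK
    rw [hW, d1, d2]
    field_simp
  have k2 : KK Γ t p = 4 * U c t * U c p / (r2 ^ 3 * Om') := by
    unfold KK
    rw [hW, d3, d4]
    field_simp
  have l1 : L11 Γ t s = 2 * U c t * det3 (deriv (deriv Γ) t) a o / (r0 * Om) - U c t ^ 2 := by
    have e : (ddx Γ t s / dd Γ t s) ^ 2 = U c t ^ 2 := by
      have : ddx Γ t s / dd Γ t s = -(U c t) := a3
      rw [this]
      ring
    unfold L11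
    rw [e, x1, d1]
    field_simp
    ring
  have l2 : L11 Γ t p = 2 * U c t * det3 (deriv (deriv Γ) t) (Mc a) b / (r0 * Om') -
      U c t ^ 2 := by
    have e : (ddx Γ t p / dd Γ t p) ^ 2 = U c t ^ 2 := by
      have : ddx Γ t p / dd Γ t p = U c t := hp
      rw [this]
    unfold L11
    rw [e, x2, d4]
    field_simp
    ring
  have hK1 : KK Γ t s ≠ 0 := (h.curve.KK_pos_right a1 a2).ne'
  have e1 : nt Γ T U c t * KK Γ t s = -(L11 Γ t s + Ut U (c, t)) := by
    unfold nt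
    rw [← hsdef]
    field_simp
  have e2 : KK Γ t p / nt Γ T U c p = Ut U (c, t) - L11 Γ t p := by
    rw [← hE]
    field_simp
  rw [← k1, ← k2, e1, e2, l1, l2]
  set u := det3 (deriv (deriv Γ) t) a o
  set v := det3 (deriv (deriv Γ) t) (Mc a) b
  have e3 : -(2 * U c t * u / (r0 * Om) - U c t ^ 2 + Ut U (c, t)) +
      (Ut U (c, t) - (2 * U c t * v / (r0 * Om') - U c t ^ 2)) =
      2 * U c t ^ 2 - (U c t * (a 2 * u + o 2 * v)) / (r0 * (a 2 * o 2 * Δ)) := by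
    rw [hO1, hO2]
    field_simp
    ring
  rw [e3, m, m2]
  field_simp
  ring

section leaf2

variable (h : SSys T Γ U) (hW : ∀ t, Wr Γ t = 1) (hs : ∀ x y, B x y = B y x)
  (hB1 : ∀ t, B (Γ t) (Γ t) = 1) (hB : ∀ x y, B (Mc x) (Mc y) = B x y)
  (hτ : τ + τ = T) (hM : ∀ t, Γ (t + τ) = Mc (Γ t))
  (hc : c ∈ Ioo (0:ℝ) 1) (hD : ∀ x, 0 < U c x ^ 2 + B (deriv Γ x) (deriv Γ x))
include h

lemma nt_symm (hM : ∀ t, Γ (t + τ) = Mc (Γ t)) (hc : c ∈ Ioo (0:ℝ) 1)
    (hU : ∀ t, U c (t + τ) = U c t) (t : ℝ) : nt Γ T U c (t + τ) = nt Γ T U c t := by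
  have h1 := (h.hasDerivAt_nxt_t hc (t + τ)).comp_add_const t τ
  have h2 := (h.hasDerivAt_nxt_t hc t).add_const τ
  have h3 : (fun s => nxt Γ T U c (s + τ)) = fun s => nxt Γ T U c s + τ :=
    funext (nxt_symm h hM hU)
  rw [h3] at h1
  exact h1.unique h2

include hW hs hB1 hB hτ hM hc hD

/-- **The quadrangle.** -/
theorem quadrangle (hU : ∀ x, 0 < U c x)
    (h4 : ∀ t, nxt Γ T U c (nxt Γ T U c (nxt Γ T U c (nxt Γ T U c t))) = t + T) (t : ℝ) :
    ∃ Z > 0, ∃ Om > 0,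
      2 * Z * (rv Γ U B c (nxt Γ T U c t) * U c (nxt Γ T U c t) / nt Γ T U c t -
        rv Γ U B c t * U c t) = Om * (rv Γ U B c (nxt Γ T U c t) ^ 3 - rv Γ U B c t ^ 3) ∧
      KK Γ t (nxt Γ T U c t) =
        4 * U c t * U c (nxt Γ T U c t) / (rv Γ U B c (nxt Γ T U c t) ^ 3 * Om) ∧
      KK Γ (nxt Γ T U c t) t =
        4 * U c t * U c (nxt Γ T U c t) / (rv Γ U B c t ^ 3 * Om) := by
  obtain ⟨a1, a2, a3⟩ := h.nxt_spec c t
  have hUs := U_symm h hτ hM hc h4
  have h2 := two_steps h hτ hM hc h4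
  set s := nxt Γ T U c t with hsdef
  have hns : nxt Γ T U c s = t + τ := h2 t
  set p := s - τ with hpdef
  have hpτ : p + τ = s := by rw [hpdef]; ring
  have hnp : nxt Γ T U c p = t := by
    have k := nxt_symm h hM hUs p
    rw [hpτ, hns] at k
    linarith
  have hnt : nxt Γ T U c (t - τ) = p := by
    have k := nxt_symm h hM hUs (t - τ)
    rw [sub_add_cancel, ← hsdef] at k
    rw [hpdef]
    linarith
  have hrv : ∀ x, rv Γ U B c (x + τ) = rv Γ U B c x := by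
    intro x
    unfold rv
    rw [hUs, M_deriv h.curve hM, hB]
  have hev : ∀ x, ev Γ U B c (x + τ) = Mc (ev Γ U B c x) := by
    intro x
    unfold ev
    rw [hrv, hUs, hM, M_deriv h.curve hM, Mc_smul, Mc_add, Mc_smul]
  have C0 := corner_nxt h hs hB1 hc hD hW hU p
  have C1 := corner_nxt h hs hB1 hc hD hW hU t
  have C2 := corner_nxt h hs hB1 hc hD hW hU (t - τ)
  have C3 := corner_nxt h hs hB1 hc hD hW hU s
  have hep : ev Γ U B c p = Mc (ev Γ U B c s) := by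
    have k := hev p
    rw [hpτ] at k
    rw [k, Mc_Mc]
  have het : ev Γ U B c (t - τ) = Mc (ev Γ U B c t) := by
    have k := hev (t - τ)
    rw [sub_add_cancel] at k
    rw [k, Mc_Mc]
  rw [hnp, hep] at C0
  rw [← hsdef] at C1
  rw [hnt, hep, het] at C2
  rw [hns, hev t] at C3
  set a := ev Γ U B c t with hadef
  set o := ev Γ U B c s with hodef
  have q0 := C0.rpos
  have q1 := C1.rpos
  have u0 := C0.Upos
  have u1 := C1.Upos
  have n0 := h.nt_pos hc t
  have n1 := h.nt_pos hc s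
  have n2 := h.nt_pos hc p
  have hOm : 0 < det3 a o (Mc o) := by
    have e := C0.dd_next C1
    have hA : 0 < det3 (Γ t) (Γ s) (deriv Γ s) := h.curve.dd_pos_right a1 a2
    rw [e] at hA
    exact (pos_iff_pos_of_mul_pos hA).1 (by positivity)
  have hOm' : 0 < det3 (Mc o) a (Mc a) := by
    obtain ⟨b1, b2, -⟩ := h.nxt_spec c p
    rw [hnp] at b1 b2
    have e := C2.dd_next C0
    have hA : 0 < det3 (Γ p) (Γ t) (deriv Γ t) := h.curve.dd_pos_right b1 b2
    rw [e] at hA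
    have u2 := C2.Upos
    have q2 := C2.rpos
    exact (pos_iff_pos_of_mul_pos hA).1 (by positivity)
  -- the derivatives of the steps
  have hnps : nt Γ T U c p = nt Γ T U c s := by
    have k := nt_symm h hM hc hUs p
    rw [hpτ] at k
    exact k.symm
  have hprod : nt Γ T U c s * nt Γ T U c t = 1 := by
    have k1 := (h.hasDerivAt_nxt_t hc s).comp t (h.hasDerivAt_nxt_t hc t)
    have k2 : ((fun t => nxt Γ T U c t) ∘ fun t => nxt Γ T U c t) = fun t => t + τ := funext h2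
    rw [k2] at k1
    exact k1.unique ((hasDerivAt_id t).add_const τ)
  have hfeq : L1 Γ t p = U c t := by
    have k : U c (nxt Γ T U c p) = L1 Γ (nxt Γ T U c p) p := h.feq' hc p
    rw [hnp] at k
    exact k.symm
  have R0 := rel4 h hW hs hB (c := c) (t := t) (p := p) (a := a) (b := Mc o) (o := o)
    (r0 := rv Γ U B c t) (r1 := rv Γ U B c s) (r2 := rv Γ U B c p) n2 hfeq (by
      have e := h.eq_t hc p
      rw [hnp] at e
      exact e) C0 C1 C2 rfl hOm hOm'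
  have R1 := rel4 h hW hs hB (c := c) (t := s) (p := t) (a := o) (b := a) (o := Mc a)
    (r0 := rv Γ U B c s) (r1 := rv Γ U B c (t + τ)) (r2 := rv Γ U B c t) n0 (h.feq' hc t).symm
      (h.eq_t hc t) C1 (by rw [hns]; exact C3) C0 (Mc_Mc a).symm (by
        have e : det3 o (Mc a) a = det3 (Mc o) a (Mc a) := by
          rw [← det3_Mc o (Mc a) a, Mc_Mc]
        rw [e]; exact hOm') (by
        have e : det3 a o (Mc o) = det3 a o (Mc o) := rfl
        exact hOm)
  have hrp : rv Γ U B c p = rv Γ U B c s := by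
    have k := hrv p
    rw [hpτ] at k
    exact k.symm
  have hUp : U c p = U c s := by
    have k := hUs p
    rw [hpτ] at k
    exact k.symm
  rw [← hsdef, hrp, hUp, hnps] at R0
  rw [hns, hrv, hUs] at R1
  have A0 := C0.two_U hs
  have A1 := C1.two_U hs
  have hO1 : det3 a o (Mc o) = 2 * o 2 * det3 a o nv := by
    rw [Mc_eq]
    unfold det3 nv
    simp
    ring
  have hO2 : det3 (Mc o) a (Mc a) = 2 * a 2 * det3 a o nv := by
    rw [Mc_eq, Mc_eq]
    unfold det3 nv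
    simp
    ring
  have hO3 : det3 o (Mc a) a = 2 * a 2 * det3 a o nv := by
    rw [Mc_eq]
    unfold det3 nv
    simp
    ring
  have hO4 : det3 o (Mc a) nv = det3 a o nv := by
    rw [Mc_eq]
    unfold det3 nv
    simp
    ring
  have hMa2 : (Mc a) 2 = a 2 := by simp [Mc]
  have hg : B o (Mc a) = B a (Mc o) := by
    rw [hs o (Mc a), ← hB (Mc a) o, Mc_Mc]
  set Δ := det3 a o nv with hΔ
  set α := a 2 with hαd
  set β := o 2 with hβd
  rw [hO1, hO2] at R0
  rw [hO3, hO1, hO4, hMa2, hg] at R1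
  rw [hO1] at hOm
  rw [hO2] at hOm'
  have hβΔ : 0 < β * Δ := by nlinarith
  have hαΔ : 0 < α * Δ := by nlinarith
  have hβ : β ≠ 0 := by
    rintro h0
    rw [h0] at hβΔ
    simp at hβΔ
  have hα : α ≠ 0 := by
    rintro h0
    rw [h0] at hαΔ
    simp at hαΔ
  have hΔ0 : Δ ≠ 0 := by
    rintro h0
    rw [h0] at hαΔ
    simp at hαΔ
  set H := 1 / (β * Δ) + 1 / (α * Δ) with hH
  have hHpos : 0 < H := by positivity
  have hH' : (α + β) / (α * β * Δ) = H := by
    rw [hH]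
    field_simp
  have hH'' : (β + α) / (β * α * Δ) = H := by
    rw [← hH']
    congr 1 <;> ring
  rw [hH'] at R0
  rw [hH''] at R1
  have hn1 : nt Γ T U c s = 1 / nt Γ T U c t := by
    field_simp
    linarith
  rw [hn1] at R0 R1
  set n := nt Γ T U c t with hn
  set r0 := rv Γ U B c t
  set r1 := rv Γ U B c s
  have R0' : n * (2 * U c t * U c s * H / r1 ^ 3) = 2 * r0 ^ 2 - (1 - B a o) * H / r0 := by
    rw [← R0, hH]
    field_simp
    ring
  have R1' : 1 / n * (2 * U c t * U c s * H / r0 ^ 3) =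
      2 * r1 ^ 2 - (1 - B a (Mc o)) * H / r1 := by
    rw [← R1, hH]
    field_simp
    ring
  have A1' : 2 * U c s ^ 2 = r1 ^ 2 * (1 + B a o) := by rw [A1, hs o a]
  have F := quad_final q0 q1 hHpos n0 A0 A1' R0' R1'
  refine ⟨n * (U c t / (n * r0 ^ 3) + U c s / r1 ^ 3) * H * (β * Δ), by positivity,
    2 * β * Δ, by linarith, ?_, ?_, ?_⟩
  · have e : 2 * (n * (U c t / (n * r0 ^ 3) + U c s / r1 ^ 3) * H * (β * Δ)) *
        (r1 * U c s / n - r0 * U c t) = 2 * β * Δ * ((r1 * U c s / n - r0 * U c t) *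
        (n * (U c t / (n * r0 ^ 3) + U c s / r1 ^ 3) * H)) := by ring
    rw [e, F]
  · have d1 : dd Γ t s = r0 * r1 ^ 2 / (4 * U c t * U c s) * det3 a o (Mc o) := C0.dd_next C1
    have d2 : dd Γ s t = r0 ^ 2 * r1 / (4 * U c t * U c s) * det3 a o (Mc o) := C0.dd_prev C1
    unfold KK
    rw [hW, d1, d2, hO1]
    field_simp
  · have d1 : dd Γ t s = r0 * r1 ^ 2 / (4 * U c t * U c s) * det3 a o (Mc o) := C0.dd_next C1
    have d2 : dd Γ s t = r0 ^ 2 * r1 / (4 * U c t * U c s) * det3 a o (Mc o) := C0.dd_prev C1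
    unfold KK
    rw [hW, d1, d2, hO1]
    field_simp

end leaf2

end Pool.Agent.MP_ae5b4e_an_P3
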