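import Mathlib
import Pool.Agent.Lib.MP_ae5b4e_an_P3.Sym4

/-!
# MP_ae5b4e_an, project P3, module Core4

Centrally symmetric curves: if four steps from one point of one leaf go once around the curve then
`dd` is symmetric near the diagonal.
-/

noncomputable section

namespace Pool.Agent.MP_ae5b4e_an_P3

open Set Filter Topology Real
open Pool.Agent.MP_ae5b4e_an_hopf
open Pool.Agent.MP_ae5b4e_an_hopf.Sys (nt nc)
open Pool.Agent.MP_ae5b4e_an_ALT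

variable {T τ : ℝ} {Γ : ℝ → Fin 3 → ℝ} {U : ℝ → ℝ → ℝ} {B : Bil} {c : ℝ}

/-- on a leaf of 4-periodic points the coordinate is positive -/
lemma U_pos_of_four (h : SSys T Γ U) (hc : c ∈ Ioo (0:ℝ) 1)
    (h4 : ∀ t, nxt Γ T U c (nxt Γ T U c (nxt Γ T U c (nxt Γ T U c t))) = t + T) (t : ℝ) :
    0 < U c t := by
  by_contra hneg
  push Not at hneg
  set p := nxt Γ T U c (nxt Γ T U c (nxt Γ T U c t)) - T with hp
  have e0 : p + T = nxt Γ T U c (nxt Γ T U c (nxt Γ T U c t)) := by rw [hp]; ring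
  have e1 : nxt Γ T U c p = t := by
    have k := h.nxt_per hc p
    rw [e0, h4] at k
    linarith
  obtain ⟨b1, b2, -⟩ := h.nxt_spec c p
  rw [e1] at b1 b2
  have f1 : U c t = L1 Γ t p := by
    have k : U c (nxt Γ T U c p) = L1 Γ (nxt Γ T U c p) p := h.feq' hc p
    rw [e1] at k
    exact k
  obtain ⟨a1, a2, a3⟩ := h.nxt_spec c t
  have g1 : nxt Γ T U c t < p + T := by
    obtain ⟨d1, -, -⟩ := h.nxt_spec c (nxt Γ T U c t)
    obtain ⟨d2, -, -⟩ := h.nxt_spec c (nxt Γ T U c (nxt Γ T U c t))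
    rw [e0]
    linarith
  have g2 : L1 Γ t (nxt Γ T U c t) < L1 Γ t (p + T) :=
    h.curve.strictMono_L1 t ⟨a1, a2⟩ ⟨by linarith, by linarith⟩ g1
  rw [h.curve.L1_per_right, a3, ← f1] at g2
  linarith

/-- **The leaf inequality on a leaf of 4-periodic points of a centrally symmetric curve.** -/
theorem leaf_four_le (h : SSys T Γ U) (hW : ∀ t, Wr Γ t = 1) (hs : ∀ x y, B x y = B y x)
    (hB1 : ∀ t, B (Γ t) (Γ t) = 1) (hB : ∀ x y, B (Mc x) (Mc y) = B x y) (hτ : τ + τ = T)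
    (hM : ∀ t, Γ (t + τ) = Mc (Γ t)) (hc : c ∈ Ioo (0:ℝ) 1)
    (hD : ∀ x, 0 < U c x ^ 2 + B (deriv Γ x) (deriv Γ x))
    (h4 : ∀ t, nxt Γ T U c (nxt Γ T U c (nxt Γ T U c (nxt Γ T U c t))) = t + T) (t : ℝ) :
    dl Γ t (nxt Γ T U c t) *
      (KK Γ t (nxt Γ T U c t) * U c t / (U c t ^ 2 + B (deriv Γ t) (deriv Γ t)) * nt Γ T U c t -
        KK Γ (nxt Γ T U c t) t * U c (nxt Γ T U c t) / (U c (nxt Γ T U c t) ^ 2 +
          B (deriv Γ (nxt Γ T U c t)) (deriv Γ (nxt Γ T U c t)))) ≤ 0 := by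
  have hU := U_pos_of_four h hc h4
  obtain ⟨Z, hZ, Om, hOm, e1, e2, e3⟩ := quadrangle h hW hs hB1 hB hτ hM hc hD hU h4 t
  obtain ⟨a1, a2, a3⟩ := h.nxt_spec c t
  have hA := h.curve.dd_pos_right a1 a2
  have hB' := h.curve.dd_pos_left a1 a2
  have hm := r_match h hs hB1 hc hD t
  have n0 := h.nt_pos hc t
  set s := nxt Γ T U c t
  rw [← rv_sq hD, ← rv_sq hD, e2, e3]
  have q0 := rv_pos hD t
  have q1 := rv_pos hD s
  have u0 := hU t
  have u1 := hU s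
  set r0 := rv Γ U B c t
  set r1 := rv Γ U B c s
  set n := nt Γ T U c t
  have hdl : dl Γ t s = log r1 - log r0 := by
    have k := congrArg log hm
    rw [log_mul q1.ne' hB'.ne', log_mul q0.ne' hA.ne'] at k
    unfold dl
    linarith
  have e4 : 4 * U c t * U c s / (r1 ^ 3 * Om) * U c t / r0 ^ 2 * n -
      4 * U c t * U c s / (r0 ^ 3 * Om) * U c s / r1 ^ 2 =
      -(4 * U c t * U c s * n / (r0 ^ 3 * r1 ^ 3 * Om)) * (r1 * U c s / n - r0 * U c t) := by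
    field_simp
    ring
  have e5 : r1 * U c s / n - r0 * U c t = Om * (r1 ^ 3 - r0 ^ 3) / (2 * Z) := by
    rw [← e1]
    field_simp
  rw [hdl, e4, e5]
  have hc1 : 0 < 4 * U c t * U c s * n / (r0 ^ 3 * r1 ^ 3 * Om) * (Om / (2 * Z)) := by positivity
  have e6 : (log r1 - log r0) * (-(4 * U c t * U c s * n / (r0 ^ 3 * r1 ^ 3 * Om)) *
      (Om * (r1 ^ 3 - r0 ^ 3) / (2 * Z))) =
      -((4 * U c t * U c s * n / (r0 ^ 3 * r1 ^ 3 * Om) * (Om / (2 * Z))) *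
        ((log r1 - log r0) * (r1 ^ 3 - r0 ^ 3))) := by ring
  rw [e6]
  have hsgn : 0 ≤ (log r1 - log r0) * (r1 ^ 3 - r0 ^ 3) := by
    rcases le_total r0 r1 with hle | hle
    · have k1 := Real.log_le_log q0 hle
      have k2 : r0 ^ 3 ≤ r1 ^ 3 := pow_le_pow_left₀ q0.le hle 3
      exact mul_nonneg (by linarith) (by linarith)
    · have k1 := Real.log_le_log q1 hle
      have k2 : r1 ^ 3 ≤ r0 ^ 3 := pow_le_pow_left₀ q1.le hle 3
      exact mul_nonneg_of_nonpos_of_nonpos (by linarith) (by linarith)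
  have := mul_nonneg hc1.le hsgn
  linarith

/-- **Core, central symmetry.**  Below a leaf of 4-periodic points of a centrally symmetric curve
the function `dd` is symmetric. -/
theorem core4 (h : SSys T Γ U) (hW : ∀ y, Wr Γ y = 1) (hs : ∀ x y, B x y = B y x)
    (hB1 : ∀ t, B (Γ t) (Γ t) = 1) (hB : ∀ x y, B (Mc x) (Mc y) = B x y) (hτ : τ + τ = T)
    (hM : ∀ t, Γ (t + τ) = Mc (Γ t)) {b : ℝ} (hb : b ≤ 1)
    (hp : ∀ c ∈ Ioo 0 b, ∀ t, 0 < U c t ^ 2 + B (deriv Γ t) (deriv Γ t)) {c₀ : ℝ}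
    (hc₀ : c₀ ∈ Ioo 0 b)
    (h4 : ∀ t, nxt Γ T U c₀ (nxt Γ T U c₀ (nxt Γ T U c₀ (nxt Γ T U c₀ t))) = t + T)
    {t s : ℝ} (h1 : t < s) (h2 : s < nxt Γ T U c₀ t) : dd Γ t s = dd Γ s t := by
  have hc1 : c₀ ∈ Ioo (0:ℝ) 1 := ⟨hc₀.1, hc₀.2.trans_le hb⟩
  refine Mn.dd_symm (D := fun t => B (deriv Γ t) (deriv Γ t)) h (qd_of_bil h.curve hs hB1) hW hb hp
    hc₀ ?_ h1 h2
  have k := intervalIntegral.integral_nonneg (μ := MeasureTheory.volume) h.T_pos.le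
    (f := fun t => -(Mn.BI Γ T U (fun t => B (deriv Γ t) (deriv Γ t)) c₀ t)) fun t _ =>
      neg_nonneg.2 (leaf_four_le h hW hs hB1 hB hτ hM hc1 (hp c₀ hc₀) h4 t)
  rw [intervalIntegral.integral_neg] at k
  unfold Mn.BB
  linarith

end Pool.Agent.MP_ae5b4e_an_P3
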