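import Mathlib
import Pool.Agent.Lib.MP_ae5b4e_an_ALT.TotS

/-!
# MP_ae5b4e_an, project P3 (rigidity up to rotation number 1/3), definitions

Text: `/team-store/MP_ae5b4e_P3_h87.md`.

THEOREM (P3).  Let `γ` be a smooth closed convex curve, `Q` a quadratic form, and let closed curves
`L_c` expand from `γ` which are invariant under the projective involutions of the tangent lines that
fix the tangency point and permute the zeros of `Q`.  If `Q ≠ 0` on the leaves and on one leaf three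
steps of the map from one point go around the curve (`f³(t) ≥ t + T`) then `γ` is an ellipse and the
leaves are conics of the pencil of `γ` and `Q = 0`.

Normal form (`QSys`): `det (Γ, Γ', Γ'') = 1`, `Q (Γ) = 1`; then `⟨Γ, Γ'⟩ = 0` and
`Q (u Γ + Γ') = u ^ 2 + Q (Γ')`.  For `t < s < t + T` let `cq t s = L1 t s ^ 2 + Q (Γ' t)` (the value
of `Q` at the intersection point of the tangent lines, represented on the line at `t`),
`Wq t s = L1 t s * KK t s / cq t s` (its half logarithmic derivative in `s`),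
`dl = log dd t s - log dd s t`.

Modules: `Geo`, `Qd` (the quadratic form on the tangent lines); `Green`, `MonA`, `MonB` (the leaf
integral is monotone), `Lim` (its limit at the curve), `Concl`; `Tri`, `Leaf3` (leaf of 3-periodic
points), `Per`, `Ivt`, `Reach` (existence of this leaf); `Core`; `Arc` (symmetry of `dd` and conics);
`Red`, `Pos` (from the geometric data to the normal form); `Poly`, `Fin` (the theorem).
-/

noncomputable section

namespace Pool.Agent.MP_ae5b4e_an_P3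

open Set Filter Topology Real MeasureTheory intervalIntegral
open scoped ContDiff
open Pool.Agent.MP_ae5b4e_an_hopf
open Pool.Agent.MP_ae5b4e_an_ALT (SSys)
open Pool.Agent.MP_ae5b4e_an_hopf.Sys (nt nc)

/-- A smooth family of leaves in the normal form whose involutions are those of the quadratic form
`Q`. -/
structure QSys (T : ℝ) (Γ : ℝ → Fin 3 → ℝ) (U : ℝ → ℝ → ℝ)
    (Q : QuadraticForm ℝ (Fin 3 → ℝ)) : Prop where
  sys : SSys T Γ U
  wr : ∀ y, Wr Γ y = 1
  one : ∀ t, Q (Γ t) = 1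
  Upos : ∀ c ∈ Ioo (0:ℝ) 1, ∀ t, 0 < U c t
  Qpos : ∀ c ∈ Ioo (0:ℝ) 1, ∀ t, 0 < U c t ^ 2 + Q (deriv Γ t)

/-- the value of `Q` at the intersection point of the tangent lines at `x` and `y`, represented by
`u Γ x + Γ' x` -/
def cq (Γ : ℝ → Fin 3 → ℝ) (Q : QuadraticForm ℝ (Fin 3 → ℝ)) (x y : ℝ) : ℝ :=
  L1 Γ x y ^ 2 + Q (deriv Γ x)

/-- half the logarithmic derivative of `cq x y` in `y` -/
def Wq (Γ : ℝ → Fin 3 → ℝ) (Q : QuadraticForm ℝ (Fin 3 → ℝ)) (x y : ℝ) : ℝ :=
  L1 Γ x y * KK Γ x y / cq Γ Q x y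

/-- the integrand of the leaf integral -/
def bq (Γ : ℝ → Fin 3 → ℝ) (T : ℝ) (U : ℝ → ℝ → ℝ) (Q : QuadraticForm ℝ (Fin 3 → ℝ))
    (c t : ℝ) : ℝ :=
  -(dl Γ t (nxt Γ T U c t) * (Wq Γ Q (nxt Γ T U c t) t +
    Wq Γ Q t (nxt Γ T U c t) * nt Γ T U c t))

/-- the leaf integral -/
def Bq (Γ : ℝ → Fin 3 → ℝ) (T : ℝ) (U : ℝ → ℝ → ℝ) (Q : QuadraticForm ℝ (Fin 3 → ℝ))
    (c : ℝ) : ℝ := ∫ t in (0)..T, bq Γ T U Q c t

/-- the nonnegative density -/
def Ed (Γ : ℝ → Fin 3 → ℝ) (T : ℝ) (U : ℝ → ℝ → ℝ) (c t : ℝ) : ℝ :=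
  dl Γ t (nxt Γ T U c t) * (KK Γ (nxt Γ T U c t) t - KK Γ t (nxt Γ T U c t)) * nc Γ T U c t

end Pool.Agent.MP_ae5b4e_an_P3
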