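import Mathlib
import Pool.Agent.Lib.MP_ae5b4e_an_RG.MetS

/-!
# MP_ae5b4e_an, project P3: a quadratic equation is a polynomial equation
-/

noncomputable section

namespace Pool.Agent.MP_ae5b4e_an_P3

open Polynomial
open Pool.Agent.MP_ae5b4e_an_MET (coef coef_apply QH)

/-- a quadratic equation in homogeneous coordinates is a polynomial equation -/
theorem poly_of_quad {S : QuadraticForm ℝ (Fin 3 → ℝ)} (hS : S ≠ 0) :
    ∃ P : ℝ[X][X], P ≠ 0 ∧ ∀ x y : ℝ, S ![x, y, 1] = 0 → evalEval x y P = 0 := by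
  set q := coef S with hq
  set p₀ : ℝ[X] := C (q 0) * X ^ 2 + C (q 3) * X + C (q 5) with hp₀
  set p₁ : ℝ[X] := C (q 1) * X + C (q 4) with hp₁
  set P : ℝ[X][X] := C (C (q 2)) * X ^ 2 + C p₁ * X + C p₀ with hP
  have hS' : ∀ v : Fin 3 → ℝ, S v = QH q (v 0) (v 1) (v 2) := fun v => coef_apply S v
  refine ⟨P, fun h0 => hS ?_, fun x y h => ?_⟩
  · have e0 : P.coeff 0 = 0 := by rw [h0]; simp
    have e1 : P.coeff 1 = 0 := by rw [h0]; simp
    have e2 : P.coeff 2 = 0 := by rw [h0]; simp
    have k0 : p₀ = 0 := by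
      have : P.coeff 0 = p₀ := by
        rw [hP]; simp [coeff_X, coeff_C]
      rw [← this, e0]
    have k1 : p₁ = 0 := by
      have : P.coeff 1 = p₁ := by
        rw [hP]; simp [coeff_X, coeff_C, coeff_X_pow]
      rw [← this, e1]
    have k2 : q 2 = 0 := by
      have : P.coeff 2 = C (q 2) := by
        rw [hP]; simp [coeff_X, coeff_C, coeff_X_pow]
      rw [e2] at this
      exact (C_eq_zero.1 this.symm)
    have a5 : q 5 = 0 := by
      have : p₀.coeff 0 = q 5 := by rw [hp₀]; simp [coeff_X, coeff_C, coeff_X_pow]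
      rw [← this, k0]; simp
    have a3 : q 3 = 0 := by
      have : p₀.coeff 1 = q 3 := by rw [hp₀]; simp [coeff_X, coeff_C, coeff_X_pow]
      rw [← this, k0]; simp
    have a0 : q 0 = 0 := by
      have : p₀.coeff 2 = q 0 := by rw [hp₀]; simp [coeff_X, coeff_C, coeff_X_pow]
      rw [← this, k0]; simp
    have a4 : q 4 = 0 := by
      have : p₁.coeff 0 = q 4 := by rw [hp₁]; simp [coeff_X, coeff_C, coeff_X_pow]
      rw [← this, k1]; simp
    have a1 : q 1 = 0 := by
      have : p₁.coeff 1 = q 1 := by rw [hp₁]; simp [coeff_X, coeff_C, coeff_X_pow]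
      rw [← this, k1]; simp
    ext v
    rw [hS' v, QH, a0, a1, k2, a3, a4, a5]
    simp
  · have k := hS' ![x, y, 1]
    rw [h] at k
    rw [QH] at k
    simp only [Matrix.cons_val_zero, Matrix.cons_val_one, Matrix.cons_val] at k
    rw [hP, hp₀, hp₁]
    simp only [evalEval, eval_add, eval_mul, eval_C, eval_X, eval_pow]
    linear_combination -k

end Pool.Agent.MP_ae5b4e_an_P3
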