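import Mathlib
import Pool.Agent.Lib.MP_ae5b4e_an_P3.Defs

/-!
# MP_ae5b4e_an, project P3: the quadratic form on the tangent lines
-/

noncomputable section

namespace Pool.Agent.MP_ae5b4e_an_P3

open Set Filter Topology Real MeasureTheory intervalIntegral
open scoped ContDiff
open Pool.Agent.MP_ae5b4e_an_hopf
open Pool.Agent.MP_ae5b4e_an_ALT (SSys)
open Pool.Agent.MP_ae5b4e_an_hopf.Sys (nt nc)

variable {Γ : ℝ → Fin 3 → ℝ} {T : ℝ} {U : ℝ → ℝ → ℝ} {Q : QuadraticForm ℝ (Fin 3 → ℝ)}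

/-- derivative of the polar form along two curves -/
lemma hasDerivAt_polar {f g : ℝ → Fin 3 → ℝ} {f' g' : Fin 3 → ℝ} {t : ℝ}
    (hf : HasDerivAt f f' t) (hg : HasDerivAt g g' t) :
    HasDerivAt (fun s => QuadraticMap.polar Q (f s) (g s))
      (QuadraticMap.polar Q f' (g t) + QuadraticMap.polar Q (f t) g') t := by
  have h1 := (LinearMap.toContinuousBilinearMap (QuadraticMap.polarBilin Q)).hasDerivAt_of_bilinear
    (fun _ => hf) (fun _ => hg)
  simp only [LinearMap.toContinuousBilinearMap_apply, QuadraticMap.polarBilin_apply_apply] at h1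
  rw [add_comm]
  exact h1

lemma Q_eq_polar (v : Fin 3 → ℝ) : Q v = QuadraticMap.polar Q v v / 2 := by
  rw [QuadraticMap.polar_self]
  simp

lemma Q_smul_add (u w : ℝ) (a b : Fin 3 → ℝ) :
    Q (u • a + w • b) = u ^ 2 * Q a + u * w * QuadraticMap.polar Q a b + w ^ 2 * Q b := by
  rw [QuadraticMap.map_add Q (u • a) (w • b), QuadraticMap.map_smul, QuadraticMap.map_smul,
    QuadraticMap.polar_smul_left, QuadraticMap.polar_smul_right]
  simp only [smul_eq_mul]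
  ring

/-- `⟨Γ, Γ'⟩ = 0` -/
lemma polar_one (hC : Curve T Γ) (h1 : ∀ t, Q (Γ t) = 1) (t : ℝ) :
    QuadraticMap.polar Q (Γ t) (deriv Γ t) = 0 := by
  have h2 := hasDerivAt_polar (Q := Q) (hC.hd0 t) (hC.hd0 t)
  have h3 : (fun s => QuadraticMap.polar Q (Γ s) (Γ s)) = fun _ => 2 := by
    funext s
    have := Q_eq_polar (Q := Q) (Γ s)
    rw [h1] at this
    linarith
  rw [h3] at h2
  have h4 := h2.unique (hasDerivAt_const t (2:ℝ))
  rw [QuadraticMap.polar_comm Q (deriv Γ t)] at h4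
  linarith

/-- `⟨Γ, Γ''⟩ = - Q (Γ')` -/
lemma polar_two (hC : Curve T Γ) (h1 : ∀ t, Q (Γ t) = 1) (t : ℝ) :
    QuadraticMap.polar Q (Γ t) (deriv (deriv Γ) t) = -2 * Q (deriv Γ t) := by
  have h2 := hasDerivAt_polar (Q := Q) (hC.hd0 t) (hC.hd1 t)
  have h3 : (fun s => QuadraticMap.polar Q (Γ s) (deriv Γ s)) = fun _ => 0 :=
    funext fun s => polar_one hC h1 s
  rw [h3] at h2
  have h4 := h2.unique (hasDerivAt_const t (0:ℝ))
  have h5 := Q_eq_polar (Q := Q) (deriv Γ t)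
  linarith

lemma Q_line (hC : Curve T Γ) (h1 : ∀ t, Q (Γ t) = 1) (t u : ℝ) :
    Q (u • Γ t + deriv Γ t) = u ^ 2 + Q (deriv Γ t) := by
  have h2 := Q_smul_add (Q := Q) u 1 (Γ t) (deriv Γ t)
  rw [one_smul, polar_one hC h1, h1] at h2
  rw [h2]
  ring

/-- The two representatives of the intersection point of two tangent lines. -/
lemma inter_vec (x y : ℝ) : dd Γ x y • deriv Γ x - ddx Γ x y • Γ x =
    ddx Γ y x • Γ y - dd Γ y x • deriv Γ y := by
  funext i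
  simp only [Pi.sub_apply, Pi.smul_apply, smul_eq_mul]
  unfold dd ddx det3
  fin_cases i <;> simp <;> ring

/-- The values of `Q` at the two representatives. -/
theorem cq_dd (hC : Curve T Γ) (h1 : ∀ t, Q (Γ t) = 1) {x y : ℝ} (hn : dd Γ x y ≠ 0)
    (hn' : dd Γ y x ≠ 0) : cq Γ Q x y * dd Γ x y ^ 2 = cq Γ Q y x * dd Γ y x ^ 2 := by
  have h2 : Q (dd Γ x y • deriv Γ x - ddx Γ x y • Γ x) =
      Q (ddx Γ y x • Γ y - dd Γ y x • deriv Γ y) := by rw [inter_vec]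
  have e1 : dd Γ x y • deriv Γ x - ddx Γ x y • Γ x =
      (-ddx Γ x y) • Γ x + dd Γ x y • deriv Γ x := by
    rw [neg_smul]; abel
  have e2 : ddx Γ y x • Γ y - dd Γ y x • deriv Γ y =
      ddx Γ y x • Γ y + (-dd Γ y x) • deriv Γ y := by
    rw [neg_smul]; abel
  rw [e1, e2, Q_smul_add, Q_smul_add, polar_one hC h1, polar_one hC h1, h1, h1] at h2
  unfold cq L1
  field_simp
  linarith

/-- The difference of the logarithms is half the difference of the logarithms of the values of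
`Q`. -/
theorem dl_eq (hC : Curve T Γ) (h1 : ∀ t, Q (Γ t) = 1) {x y : ℝ} (hn : 0 < dd Γ x y)
    (hn' : 0 < dd Γ y x) (hq : 0 < cq Γ Q x y) :
    0 < cq Γ Q y x ∧ dl Γ x y = (log (cq Γ Q y x) - log (cq Γ Q x y)) / 2 := by
  have h2 := cq_dd (Q := Q) hC h1 hn.ne' hn'.ne'
  have h3 : 0 < cq Γ Q y x := by
    have k1 : 0 < cq Γ Q y x * dd Γ y x ^ 2 := by rw [← h2]; positivity
    exact (pos_iff_pos_of_mul_pos k1).2 (by positivity)
  refine ⟨h3, ?_⟩
  have h4 := congrArg log h2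
  rw [log_mul hq.ne' (by positivity), log_mul h3.ne' (by positivity), log_pow, log_pow] at h4
  unfold dl
  push_cast at h4
  linarith

/-- `KK y x = exp (3 dl x y) KK x y` -/
lemma KK_exp (hW : ∀ y, Wr Γ y = 1) {x y : ℝ} (hn : 0 < dd Γ x y) (hn' : 0 < dd Γ y x) :
    KK Γ y x = exp (3 * dl Γ x y) * KK Γ x y := by
  have h1 : exp (3 * dl Γ x y) = (dd Γ x y / dd Γ y x) ^ 3 := by
    have e1 : 3 * dl Γ x y = ((3:ℕ):ℝ) * (log (dd Γ x y / dd Γ y x)) := by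
      unfold dl
      rw [log_div hn.ne' hn'.ne']
      norm_num
    rw [e1, exp_nat_mul, exp_log (div_pos hn hn')]
  rw [h1]
  unfold KK
  rw [hW, hW]
  field_simp

namespace QSys

variable (h : QSys T Γ U Q)
include h

/-- the value on the leaf -/
lemma cq_nxt {c : ℝ} (hc : c ∈ Ioo (0:ℝ) 1) (t : ℝ) :
    cq Γ Q t (nxt Γ T U c t) = U c t ^ 2 + Q (deriv Γ t) ∧
      cq Γ Q (nxt Γ T U c t) t = U c (nxt Γ T U c t) ^ 2 + Q (deriv Γ (nxt Γ T U c t)) := by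
  have h1 := (h.sys.nxt_spec c t).2.2
  have h2 := h.sys.feq' hc t
  unfold cq
  rw [h1, ← h2]
  refine ⟨by ring, rfl⟩

lemma cq_pos {c : ℝ} (hc : c ∈ Ioo (0:ℝ) 1) (t : ℝ) :
    0 < cq Γ Q t (nxt Γ T U c t) ∧ 0 < cq Γ Q (nxt Γ T U c t) t := by
  rw [(h.cq_nxt hc t).1, (h.cq_nxt hc t).2]
  exact ⟨h.Qpos c hc t, h.Qpos c hc _⟩

/-- along a leaf `dl` is a difference -/
lemma dl_nxt {c : ℝ} (hc : c ∈ Ioo (0:ℝ) 1) (t : ℝ) :
    dl Γ t (nxt Γ T U c t) = (log (U c (nxt Γ T U c t) ^ 2 + Q (deriv Γ (nxt Γ T U c t))) -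
      log (U c t ^ 2 + Q (deriv Γ t))) / 2 := by
  obtain ⟨a1, a2, -⟩ := h.sys.nxt_spec c t
  rw [(dl_eq h.sys.curve h.one (h.sys.curve.dd_pos_right a1 a2) (h.sys.curve.dd_pos_left a1 a2)
    (h.cq_pos hc t).1).2, (h.cq_nxt hc t).1, (h.cq_nxt hc t).2]

lemma Ed_nonneg {c : ℝ} (hc : c ∈ Ioo (0:ℝ) 1) (t : ℝ) : 0 ≤ Ed Γ T U c t := by
  obtain ⟨a1, a2, -⟩ := h.sys.nxt_spec c t
  have k1 := h.sys.nc_pos hc t
  have k2 := h.sys.curve.KK_pos_right a1 a2
  unfold Ed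
  rw [KK_exp h.wr (h.sys.curve.dd_pos_right a1 a2) (h.sys.curve.dd_pos_left a1 a2)]
  set d := dl Γ t (nxt Γ T U c t)
  have k3 : 0 ≤ d * (exp (3 * d) - 1) := by
    rcases le_total 0 d with hd | hd
    · have := Real.one_le_exp (by linarith : 0 ≤ 3 * d)
      exact mul_nonneg hd (by linarith)
    · have : exp (3 * d) ≤ 1 := Real.exp_le_one_iff.2 (by linarith)
      exact mul_nonneg_of_nonpos_of_nonpos hd (by linarith)
  have e : d * (exp (3 * d) * KK Γ t (nxt Γ T U c t) - KK Γ t (nxt Γ T U c t)) * nc Γ T U c t =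
      (d * (exp (3 * d) - 1)) * KK Γ t (nxt Γ T U c t) * nc Γ T U c t := by ring
  rw [e]
  positivity

lemma dl_of_Ed {c : ℝ} (hc : c ∈ Ioo (0:ℝ) 1) {t : ℝ} (h0 : Ed Γ T U c t = 0) :
    dl Γ t (nxt Γ T U c t) = 0 := by
  obtain ⟨a1, a2, -⟩ := h.sys.nxt_spec c t
  have k1 := h.sys.nc_pos hc t
  have k2 := h.sys.curve.KK_pos_right a1 a2
  unfold Ed at h0
  rw [KK_exp h.wr (h.sys.curve.dd_pos_right a1 a2) (h.sys.curve.dd_pos_left a1 a2)] at h0
  set d := dl Γ t (nxt Γ T U c t)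
  have e : d * (exp (3 * d) * KK Γ t (nxt Γ T U c t) - KK Γ t (nxt Γ T U c t)) * nc Γ T U c t =
      (d * (exp (3 * d) - 1)) * (KK Γ t (nxt Γ T U c t) * nc Γ T U c t) := by ring
  rw [e] at h0
  rcases mul_eq_zero.1 h0 with h2 | h2
  · rcases mul_eq_zero.1 h2 with h3 | h3
    · exact h3
    · have h4 : exp (3 * d) = exp 0 := by rw [exp_zero]; linarith
      have h5 := Real.exp_injective h4
      linarith
  · exact absurd h2 (mul_pos k2 k1).ne'

lemma Ed_per {c : ℝ} (hc : c ∈ Ioo (0:ℝ) 1) (t : ℝ) : Ed Γ T U c (t + T) = Ed Γ T U c t := by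
  have hC := h.sys.curve
  unfold Ed nc dl
  rw [h.sys.nxt_per hc, hC.dd_per_left, hC.dd_per_right, hC.dd_per_left, hC.dd_per_right,
    hC.KK_per_left, hC.KK_per_right, hC.KK_per_left, hC.KK_per_right, h.sys.Uc_per hc]

lemma continuous_dl {c : ℝ} (hc : c ∈ Ioo (0:ℝ) 1) :
    Continuous fun t => dl Γ t (nxt Γ T U c t) := by
  have hC := h.sys.curve
  have hn := h.sys.continuous_nxt hc
  have k1 : Continuous fun t => dd Γ t (nxt Γ T U c t) :=
    hC.contDiff_dd.continuous.comp (continuous_id.prodMk hn)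
  have k2 : Continuous fun t => dd Γ (nxt Γ T U c t) t :=
    hC.contDiff_dd'.continuous.comp (continuous_id.prodMk hn)
  unfold dl
  refine (k1.log fun t => ?_).sub (k2.log fun t => ?_)
  · exact (hC.dd_pos_right (h.sys.nxt_spec c t).1 (h.sys.nxt_spec c t).2.1).ne'
  · exact (hC.dd_pos_left (h.sys.nxt_spec c t).1 (h.sys.nxt_spec c t).2.1).ne'

lemma continuous_KK {c : ℝ} (hc : c ∈ Ioo (0:ℝ) 1) :
    (Continuous fun t => KK Γ t (nxt Γ T U c t)) ∧
      Continuous fun t => KK Γ (nxt Γ T U c t) t := by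
  have hC := h.sys.curve
  have hn := h.sys.continuous_nxt hc
  have k1 : Continuous fun t => dd Γ t (nxt Γ T U c t) :=
    hC.contDiff_dd.continuous.comp (continuous_id.prodMk hn)
  have k2 : Continuous fun t => dd Γ (nxt Γ T U c t) t :=
    hC.contDiff_dd'.continuous.comp (continuous_id.prodMk hn)
  have k3 : Continuous (Wr Γ) := hC.contDiff_Wr.continuous
  have n1 : ∀ t, dd Γ t (nxt Γ T U c t) ≠ 0 := fun t =>
    (hC.dd_pos_right (h.sys.nxt_spec c t).1 (h.sys.nxt_spec c t).2.1).ne'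
  have n2 : ∀ t, dd Γ (nxt Γ T U c t) t ≠ 0 := fun t =>
    (hC.dd_pos_left (h.sys.nxt_spec c t).1 (h.sys.nxt_spec c t).2.1).ne'
  unfold KK
  refine ⟨((k3.comp hn).mul k2).div (k1.pow 2) fun t => pow_ne_zero 2 (n1 t),
    (k3.mul k1).div (k2.pow 2) fun t => pow_ne_zero 2 (n2 t)⟩

lemma continuous_Ed {c : ℝ} (hc : c ∈ Ioo (0:ℝ) 1) : Continuous (Ed Γ T U c) := by
  have k1 := h.continuous_dl hc
  obtain ⟨k2, k3⟩ := h.continuous_KK hc
  have k4 : Continuous (nc Γ T U c) := by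
    unfold nc
    refine (h.sys.continuous_Uc hc).neg.div k2 fun t => ?_
    exact (h.sys.curve.KK_pos_right (h.sys.nxt_spec c t).1 (h.sys.nxt_spec c t).2.1).ne'
  exact (k1.mul (k3.sub k2)).mul k4

end QSys

end Pool.Agent.MP_ae5b4e_an_P3
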