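import Mathlib
import Pool.Agent.Lib.MP_ae5b4e_an_P3.Geo

/-!
# MP_ae5b4e_an, project P3: the function `t ↦ Q (Γ' t)`
-/

noncomputable section

namespace Pool.Agent.MP_ae5b4e_an_P3

open Set Filter Topology Real
open scoped ContDiff
open Pool.Agent.MP_ae5b4e_an_hopf

variable {Γ : ℝ → Fin 3 → ℝ} {T : ℝ} {Q : QuadraticForm ℝ (Fin 3 → ℝ)}

/-- the values of `Q` on the tangent vectors depend smoothly on the parameter -/
lemma contDiff_Q_deriv (hC : Curve T Γ) : ContDiff ℝ ∞ fun t => Q (deriv Γ t) := by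
  have h3 : (fun t => Q (deriv Γ t)) = fun s =>
      (LinearMap.toContinuousBilinearMap (QuadraticMap.polarBilin Q)) (deriv Γ s) (deriv Γ s) / 2 :=
    funext fun t => Q_eq_polar _
  rw [h3]
  exact ((((LinearMap.toContinuousBilinearMap (QuadraticMap.polarBilin Q)).contDiff.comp
    hC.smooth1).clm_apply hC.smooth1)).div_const 2

lemma continuous_Q_deriv (hC : Curve T Γ) : Continuous fun t => Q (deriv Γ t) :=
  (contDiff_Q_deriv hC).continuous

/-- the relation between the two representatives of the intersection point -/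
lemma rel_of_one (hC : Curve T Γ) (h1 : ∀ t, Q (Γ t) = 1) (t s : ℝ) (hts : t < s)
    (hst : s < t + T) : dd Γ s t ^ 2 * (L1 Γ s t ^ 2 + Q (deriv Γ s)) =
      dd Γ t s ^ 2 * (L1 Γ t s ^ 2 + Q (deriv Γ t)) := by
  have k := cq_dd (Q := Q) hC h1 (hC.dd_pos_right hts hst).ne' (hC.dd_pos_left hts hst).ne'
  unfold cq at k
  linarith

end Pool.Agent.MP_ae5b4e_an_P3
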