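import Mathlib
import Pool.Agent.Lib.MP_ae5b4e_an_P3.Qd
import Pool.Agent.Lib.MP_ae5b4e_an_RIG.GEx
import Pool.Agent.Lib.MP_ae5b4e_an_ALM.OfSol
import Pool.Agent.Lib.MP_ae5b4e_an_ALT.OfSol

/-!
# MP_ae5b4e_an, project P3, (E): from the geometric data to the normal form
-/

noncomputable section

namespace Pool.Agent.MP_ae5b4e_an_P3

open Set Filter Topology Real MeasureTheory intervalIntegral
open scoped ContDiff
open Pool.Agent.MP_ae5b4e_an_hopf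
open Pool.Agent.MP_ae5b4e_an_RG
open Pool.Agent.MP_ae5b4e_an_RIG (Sol Normal lift rU)
open Pool.Agent.MP_ae5b4e_an_ALT (SSys)

/-- the geometric data: smooth leaves which are invariant under the involutions of `Q` -/
structure GeoQ (γ : ConvexCurve) (Q : QuadraticForm ℝ (Fin 3 → ℝ)) (U : ℝ → ℝ → ℝ) : Prop where
  hQ : ∀ t, Q (γ.Γ t) ≠ 0
  smooth : ContDiffOn ℝ ∞ (fun q : ℝ × ℝ => U q.1 q.2) (Ioo 0 1 ×ˢ univ)
  per : ∀ c ∈ Ioo (0:ℝ) 1, ∀ t, U c (t + γ.T) = U c t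
  simple : ∀ c ∈ Ioo (0:ℝ) 1, ∀ t t', γ.pt t (U c t) = γ.pt t' (U c t') →
    ∃ n : ℤ, t' = t + n * γ.T
  mono : ∀ c ∈ Ioo (0:ℝ) 1, ∀ t, deriv (fun r => U r t) c < 0
  lim : ∀ t, Tendsto (fun c => U c t) (𝓝[>] 0) atTop
  proj : ∀ c ∈ Ioo (0:ℝ) 1, ∀ t u v, u ≠ v → γ.pt t u ∈ γ.leaf U c →
    γ.pt t v ∈ γ.leaf U c → Q (γ.hvec t u) = Q (γ.hvec t v)

/-- the center of the involution -/
def kq (γ : ConvexCurve) (Q : QuadraticForm ℝ (Fin 3 → ℝ)) (t : ℝ) : ℝ :=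
  -(QuadraticMap.polar Q (γ.Γ t) (deriv γ.Γ t) / Q (γ.Γ t))

lemma Q_hvec (γ : ConvexCurve) (Q : QuadraticForm ℝ (Fin 3 → ℝ)) (t u : ℝ) :
    Q (γ.hvec t u) = u ^ 2 * Q (γ.Γ t) + u * QuadraticMap.polar Q (γ.Γ t) (deriv γ.Γ t) +
      Q (deriv γ.Γ t) := by
  have h := Q_smul_add (Q := Q) u 1 (γ.Γ t) (deriv γ.Γ t)
  rw [one_smul] at h
  rw [γ.hvec_eq, h]
  ring

/-- The data are a solution of the problem (`Q (u Γ + Γ') = Q (v Γ + Γ')`, `u ≠ v` means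
`u + v = kq t`). -/
theorem GeoQ.sol {γ : ConvexCurve} {Q : QuadraticForm ℝ (Fin 3 → ℝ)} {U : ℝ → ℝ → ℝ}
    (h : GeoQ γ Q U) : Sol γ U (kq γ Q) where
  cont := h.smooth.continuousOn
  per := h.per
  simple := h.simple
  anti := strictAnti_of_deriv h.smooth h.mono
  lim := h.lim
  reg := Or.inr ⟨h.smooth, h.mono⟩
  proj c hc t u v huv hu hv := by
    have h1 := h.proj c hc t u v huv hu hv
    rw [Q_hvec, Q_hvec] at h1
    have h2 : (u - v) * ((u + v) * Q (γ.Γ t) + QuadraticMap.polar Q (γ.Γ t) (deriv γ.Γ t)) = 0 := by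
      linear_combination h1
    have h3 := (mul_eq_zero.1 h2).resolve_left (sub_ne_zero.2 huv)
    have h4 := h.hQ t
    unfold kq
    field_simp
    linarith

section
variable {γ : ConvexCurve} {Q : QuadraticForm ℝ (Fin 3 → ℝ)} {σ lam r m : ℝ → ℝ}

/-- the derivative of the normalized lift -/
lemma deriv_lift (hN : Normal γ (kq γ Q) σ lam r m) (x : ℝ) :
    deriv (lift γ σ lam) x = (lam x * deriv σ x) •
      ((kq γ Q (σ x) / 2) • γ.Γ (σ x) + deriv γ.Γ (σ x)) := by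
  have hC := γ.isCurve
  have hσd : HasDerivAt σ (deriv σ x) x := (hN.smooth_σ.differentiable (by simp) x).hasDerivAt
  have hld : HasDerivAt lam (lam x * (kq γ Q (σ x) / 2) * deriv σ x) x := by
    rw [← hN.eq_lam x]
    exact (hN.smooth_lam.differentiable (by simp) x).hasDerivAt
  apply HasDerivAt.deriv
  have k2 := (hC.hd0 (σ x)).scomp x hσd
  refine (hld.smul k2).congr_deriv ?_
  funext i
  simp only [Function.comp, Pi.add_apply, Pi.smul_apply, smul_eq_mul]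
  ring

/-- the points of the tangent lines in the normal form -/
lemma lift_vec (hN : Normal γ (kq γ Q) σ lam r m) (U : ℝ → ℝ → ℝ) (c x : ℝ) :
    rU (kq γ Q) σ U c x • lift γ σ lam x + deriv (lift γ σ lam) x =
      (lam x * deriv σ x) • γ.hvec (σ x) (U c (σ x)) := by
  rw [deriv_lift hN, γ.hvec_eq]
  unfold rU lift
  funext i
  simp only [Pi.add_apply, Pi.smul_apply, smul_eq_mul]
  ring

/-- the form is constant on the normalized lift -/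
lemma Q_lift (hQ : ∀ t, Q (γ.Γ t) ≠ 0) (hN : Normal γ (kq γ Q) σ lam r m) (x : ℝ) :
    Q (lift γ σ lam x) = Q (lift γ σ lam 0) := by
  have hC := γ.isCurve
  have h0 : ∀ x, HasDerivAt (lift γ σ lam) (deriv (lift γ σ lam) x) x := fun x => by
    have hσd : HasDerivAt σ (deriv σ x) x := (hN.smooth_σ.differentiable (by simp) x).hasDerivAt
    have hld : HasDerivAt lam (deriv lam x) x :=
      (hN.smooth_lam.differentiable (by simp) x).hasDerivAt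
    have k2 := (hC.hd0 (σ x)).scomp x hσd
    exact (hld.smul k2).differentiableAt.hasDerivAt
  have h1 : ∀ x, HasDerivAt (fun s => Q (lift γ σ lam s)) 0 x := fun x => by
    have h2 := (hasDerivAt_polar (Q := Q) (h0 x) (h0 x)).div_const 2
    have h3 : (fun s => QuadraticMap.polar Q (lift γ σ lam s) (lift γ σ lam s) / 2) =
        fun s => Q (lift γ σ lam s) := funext fun s => (Q_eq_polar _).symm
    rw [h3] at h2
    refine h2.congr_deriv ?_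
    rw [QuadraticMap.polar_comm Q (deriv (lift γ σ lam) x), deriv_lift hN]
    unfold lift
    rw [QuadraticMap.polar_smul_left, QuadraticMap.polar_smul_right, QuadraticMap.polar_add_right,
      QuadraticMap.polar_smul_right, QuadraticMap.polar_self]
    unfold kq
    have h4 := hQ (σ x)
    simp only [smul_eq_mul]
    field_simp
    ring
  exact is_const_of_deriv_eq_zero (fun x => (h1 x).differentiableAt) (fun x => (h1 x).deriv) x 0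

end

/-- The sign of the form on the leaves up to `c₁` is the sign on the curve. -/
lemma GeoQ.sign {γ : ConvexCurve} {Q : QuadraticForm ℝ (Fin 3 → ℝ)} {U : ℝ → ℝ → ℝ}
    (h : GeoQ γ Q U) {c₁ : ℝ} (hc₁ : c₁ ∈ Ioo (0:ℝ) 1)
    (hne : ∀ c ∈ Ioc 0 c₁, ∀ t, Q (γ.hvec t (U c t)) ≠ 0) {q : ℝ} {t : ℝ}
    (hq : 0 < q * Q (γ.Γ t)) {c : ℝ} (hc : c ∈ Ioc 0 c₁) :
    0 < q * Q (γ.hvec t (U c t)) := by
  by_contra hneg
  push Not at hneg
  have hq0 : q ≠ 0 := by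
    rintro rfl
    simp at hq
  set f : ℝ → ℝ := fun c => q * Q (γ.hvec t (U c t)) with hf
  have hfe : ∀ c, f c = q * (U c t ^ 2 * Q (γ.Γ t) +
      U c t * QuadraticMap.polar Q (γ.Γ t) (deriv γ.Γ t) + Q (deriv γ.Γ t)) := fun c => by
    show q * Q (γ.hvec t (U c t)) = _
    rw [Q_hvec]
  -- positive near the curve
  have hlim : Tendsto f (𝓝[>] 0) atTop := by
    set A := q * Q (γ.Γ t) with hA
    set B := q * QuadraticMap.polar Q (γ.Γ t) (deriv γ.Γ t) with hB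
    set D := q * Q (deriv γ.Γ t) with hD
    have k1 : Tendsto (fun u : ℝ => u * (A * u + B) + D) atTop atTop := by
      have k2 : Tendsto (fun u : ℝ => A * u + B) atTop atTop :=
        tendsto_atTop_add_const_right _ _ (tendsto_id.const_mul_atTop hq)
      exact tendsto_atTop_add_const_right _ _ (tendsto_id.atTop_mul_atTop₀ k2)
    refine (k1.comp (h.lim t)).congr fun c => ?_
    rw [hfe]
    simp only [Function.comp, hA, hB, hD]
    ring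
  have e1 : ∀ᶠ s in 𝓝[>] (0:ℝ), 0 < f s := hlim.eventually_gt_atTop _
  have e2 : ∀ᶠ s in 𝓝[>] (0:ℝ), s ∈ Ioo (0:ℝ) c₁ := Ioo_mem_nhdsGT hc₁.1
  obtain ⟨a, ha1, ha2⟩ := (e1.and e2).exists
  have cU : ContinuousOn (fun c => U c t) (Ioc 0 c₁) :=
    h.smooth.continuousOn.comp (f := fun c : ℝ => (c, t)) (by fun_prop) fun c hc =>
      ⟨⟨hc.1, hc.2.trans_lt hc₁.2⟩, mem_univ _⟩
  have hcont : ContinuousOn f (Ioc 0 c₁) := by
    have : f = fun c => q * (U c t ^ 2 * Q (γ.Γ t) +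
      U c t * QuadraticMap.polar Q (γ.Γ t) (deriv γ.Γ t) + Q (deriv γ.Γ t)) := funext hfe
    rw [this]
    fun_prop
  obtain ⟨s, hs, hs'⟩ := isPreconnected_Ioc.intermediate_value hc ⟨ha2.1, ha2.2.le⟩ hcont
    (show (0:ℝ) ∈ Icc _ _ from ⟨hneg, ha1.le⟩)
  exact hne s hs t ((mul_eq_zero.1 hs').resolve_left hq0)

/-- A continuous function which is positive up to the parameter `c₁` is positive a bit further. -/
lemma exists_larger {F : ℝ → ℝ → ℝ}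
    (hF : ContinuousOn (fun p : ℝ × ℝ => F p.1 p.2) (Ioo 0 1 ×ˢ univ))
    (hper : ∀ c ∈ Ioo (0:ℝ) 1, ∀ t, F c (t + 1) = F c t) {c₁ : ℝ} (hc₁ : c₁ ∈ Ioo (0:ℝ) 1)
    (hpos : ∀ c ∈ Ioc 0 c₁, ∀ t, 0 < F c t) :
    ∃ b ∈ Ioc c₁ 1, ∀ c ∈ Ioo 0 b, ∀ t, 0 < F c t := by
  have hO : IsOpen ((Ioo (0:ℝ) 1 ×ˢ (univ : Set ℝ)) ∩ (fun p : ℝ × ℝ => F p.1 p.2) ⁻¹' Ioi 0) :=
    hF.isOpen_inter_preimage (isOpen_Ioo.prod isOpen_univ) isOpen_Ioi
  have hsub : ({c₁} : Set ℝ) ×ˢ Icc (0:ℝ) 1 ⊆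
      (Ioo (0:ℝ) 1 ×ˢ (univ : Set ℝ)) ∩ (fun p : ℝ × ℝ => F p.1 p.2) ⁻¹' Ioi 0 := by
    rintro ⟨c, t⟩ ⟨hc, -⟩
    rw [mem_singleton_iff] at hc
    subst hc
    exact ⟨⟨hc₁, mem_univ _⟩, hpos c ⟨hc₁.1, le_rfl⟩ t⟩
  obtain ⟨u, v, hu, hv, hu1, hv1, huv⟩ :=
    generalized_tube_lemma isCompact_singleton isCompact_Icc hO hsub
  have hc₁u : c₁ ∈ u := hu1 rfl
  obtain ⟨b', hb1, hb2⟩ : ∃ b' > c₁, Ico c₁ b' ⊆ u :=
    exists_Ico_subset_of_mem_nhds (hu.mem_nhds hc₁u) ⟨c₁ + 1, by simp⟩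
  refine ⟨min b' 1, ⟨lt_min hb1 hc₁.2, min_le_right _ _⟩, fun c hc t => ?_⟩
  rcases le_or_gt c c₁ with h1 | h1
  · exact hpos c ⟨hc.1, h1⟩ t
  · have hc1 : c ∈ Ioo (0:ℝ) 1 := ⟨hc.1, hc.2.trans_le (min_le_right _ _)⟩
    have hcu : c ∈ u := hb2 ⟨h1.le, hc.2.trans_le (min_le_left _ _)⟩
    have hp : Function.Periodic (fun t => F c t) 1 := fun t => hper c hc1 t
    obtain ⟨y, hy, hy'⟩ := hp.exists_mem_Ico₀ one_pos t
    rw [show F c t = F c y from hy']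
    exact (huv (show (c, y) ∈ u ×ˢ v from ⟨hcu, hv1 ⟨hy.1, hy.2.le⟩⟩)).2

/-- (E) The normal form.

Proof.  `Sol.exists_normal` (`RIG/GEx.lean`) gives `σ, lam, r, m`.
`Q (lift x) = lam x ^ 2 * Q (γ.Γ (σ x))` is constant (derivative, `eq_lam`); let `q` be the inverse
of the constant.  For fixed `t` the function `c ↦ (q • Q) (γ.hvec t (U c t))` does not vanish and is
positive for small `c` (`U c t → ∞`, the leading coefficient is `(q • Q) (γ.Γ t) > 0`), so it is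
positive; transform by `rU • lift + lift' = lam σ' (hvec ...)`. -/
theorem GeoQ.norm {γ : ConvexCurve} {Q : QuadraticForm ℝ (Fin 3 → ℝ)} {U : ℝ → ℝ → ℝ}
    (h : GeoQ γ Q U) {c₁ : ℝ} (hc₁ : c₁ ∈ Ioo (0:ℝ) 1)
    (hne : ∀ c ∈ Ioc 0 c₁, ∀ t, Q (γ.hvec t (U c t)) ≠ 0) :
    ∃ (σ lam r m : ℝ → ℝ) (q : ℝ), Normal γ (kq γ Q) σ lam r m ∧ q ≠ 0 ∧
      SSys 1 (lift γ σ lam) (rU (kq γ Q) σ U) ∧ (∀ x, Wr (lift γ σ lam) x = 1) ∧
      (∀ x, (q • Q) (lift γ σ lam x) = 1) ∧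
      (∀ c ∈ Ioo (0:ℝ) 1, ∀ x, 0 < rU (kq γ Q) σ U c x) ∧
      ∃ b ∈ Ioc c₁ 1, ∀ c ∈ Ioo 0 b, ∀ x,
        0 < rU (kq γ Q) σ U c x ^ 2 + (q • Q) (deriv (lift γ σ lam) x) := by
  obtain ⟨σ, lam, r, m, hN⟩ := h.sol.exists_normal
  have hlift : ∀ x, Q (lift γ σ lam x) = lam x ^ 2 * Q (γ.Γ (σ x)) := fun x => by
    unfold lift
    rw [QuadraticMap.map_smul, smul_eq_mul]
    ring
  have h0 : Q (lift γ σ lam 0) ≠ 0 := by
    rw [hlift]
    exact mul_ne_zero (pow_ne_zero 2 (hN.pos_lam 0).ne') (h.hQ _)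
  set q := (Q (lift γ σ lam 0))⁻¹ with hq
  have hq0 : q ≠ 0 := inv_ne_zero h0
  have hone : ∀ x, (q • Q) (lift γ σ lam x) = 1 := fun x => by
    rw [smul_apply, Q_lift h.hQ hN x, smul_eq_mul, hq, inv_mul_cancel₀ h0]
  have hsys := Pool.Agent.MP_ae5b4e_an_ALT.ssys_of_sol h.sol h.smooth h.mono hN
  refine ⟨σ, lam, r, m, q, hN, hq0, hsys, hN.wr, hone,
    fun c hc t => Pool.Agent.MP_ae5b4e_an_ALT.rU_pos h.sol hN hc t, ?_⟩
  refine exists_larger (F := fun c x => rU (kq γ Q) σ U c x ^ 2 +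
    (q • Q) (deriv (lift γ σ lam) x)) ?_ ?_ hc₁ fun c hc x => ?_
  · have k1 : Continuous fun x => (q • Q) (deriv (lift γ σ lam) x) :=
      continuous_Q_deriv hsys.curve
    exact (hsys.continuousOn_Uf.pow 2).add (k1.comp continuous_snd).continuousOn
  · intro c hc t
    show rU (kq γ Q) σ U c (t + 1) ^ 2 + (q • Q) (deriv (lift γ σ lam) (t + 1)) = _
    rw [hsys.per c hc, hsys.curve.per1]
  · show 0 < rU (kq γ Q) σ U c x ^ 2 + (q • Q) (deriv (lift γ σ lam) x)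
    rw [← Q_line (Q := q • Q) hsys.curve hone x, lift_vec hN, QuadraticMap.map_smul,
      smul_apply, smul_eq_mul, smul_eq_mul]
    have k1 : 0 < q * Q (γ.Γ (σ x)) := by
      have k2 := hone x
      rw [smul_apply, hlift, smul_eq_mul] at k2
      have k3 : 0 < lam x ^ 2 * (q * Q (γ.Γ (σ x))) := by
        have : lam x ^ 2 * (q * Q (γ.Γ (σ x))) = q * (lam x ^ 2 * Q (γ.Γ (σ x))) := by ring
        rw [this, k2]
        exact one_pos
      exact (pos_iff_pos_of_mul_pos k3).1 (pow_pos (hN.pos_lam x) 2)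
    have k4 := h.sign hc₁ hne k1 hc
    have k5 : 0 < lam x * deriv σ x := mul_pos (hN.pos_lam x) (hN.pos_σ x)
    positivity

/-- On the leaf `c` three steps from some point go around the curve: the point of `L_c` on the
tangent line at `t₀` is on the tangent line at `t₁`, `t₀ < t₁ < t₀ + T`, the point of `L_c` on the
tangent line at `t₁` is on the tangent line at `t₂`, `t₁ < t₂ < t₁ + T`, and so on, and
`t₀ + T ≤ t₃`. -/
def Reach3 (γ : ConvexCurve) (U : ℝ → ℝ → ℝ) (c : ℝ) : Prop :=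
  ∃ t₀ t₁ t₂ t₃ v₁ v₂ v₃, t₀ < t₁ ∧ t₁ < t₀ + γ.T ∧ t₁ < t₂ ∧ t₂ < t₁ + γ.T ∧ t₂ < t₃ ∧
    t₃ < t₂ + γ.T ∧ γ.pt t₀ (U c t₀) = γ.pt t₁ v₁ ∧ γ.pt t₁ (U c t₁) = γ.pt t₂ v₂ ∧
    γ.pt t₂ (U c t₂) = γ.pt t₃ v₃ ∧ t₀ + γ.T ≤ t₃

lemma det_of_pt (γ : ConvexCurve) {t s u v : ℝ} (h : γ.pt t u = γ.pt s v) :
    det3 (γ.hvec t u) (γ.Γ s) (deriv γ.Γ s) = 0 := by
  unfold ConvexCurve.pt at h
  rw [Projectivization.mk_eq_mk_iff'] at h
  obtain ⟨a, ha⟩ := h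
  rw [← ha, γ.hvec_eq]
  unfold det3
  simp only [Pi.smul_apply, Pi.add_apply, smul_eq_mul]
  ring

/-- the condition in the normal form (compare `ALM.det_nxt`, `ALM.step2_of_reach2`) -/
theorem GeoQ.three {γ : ConvexCurve} {Q : QuadraticForm ℝ (Fin 3 → ℝ)} {U : ℝ → ℝ → ℝ}
    (h : GeoQ γ Q U) {σ lam r m : ℝ → ℝ} (hN : Normal γ (kq γ Q) σ lam r m) {c : ℝ}
    (hc : c ∈ Ioo (0:ℝ) 1) (h3 : Reach3 γ U c) :
    ∃ t, t + 1 ≤ nxt (lift γ σ lam) 1 (rU (kq γ Q) σ U) c (nxt (lift γ σ lam) 1 (rU (kq γ Q) σ U) c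
      (nxt (lift γ σ lam) 1 (rU (kq γ Q) σ U) c t)) := by
  obtain ⟨t₀, t₁, t₂, t₃, v₁, v₂, v₃, a1, a2, a3, a4, a5, a6, p1, p2, p3, hle⟩ := h3
  have hσm : StrictMono σ := strictMono_of_deriv_pos hN.pos_σ
  have hσs : Function.Surjective σ := by
    set f : ℝ → ℝ := fun s => σ (s / γ.T) with hf
    have hT := γ.T_pos
    have k1 : Continuous f := hN.smooth_σ.continuous.comp (by fun_prop)
    have k2 : ∀ s, f (s + γ.T) = f s + γ.T := fun s => by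
      show σ ((s + γ.T) / γ.T) = σ (s / γ.T) + γ.T
      rw [add_div, div_self hT.ne', hN.per_σ]
    intro t
    obtain ⟨s, hs⟩ := Pool.Agent.MP_ae5b4e_an_total.surjective_of_shift hT k1 k2 t
    exact ⟨s / γ.T, hs⟩
  obtain ⟨x₀, rfl⟩ := hσs t₀
  obtain ⟨x₁, rfl⟩ := hσs t₁
  obtain ⟨x₂, rfl⟩ := hσs t₂
  obtain ⟨x₃, rfl⟩ := hσs t₃
  rw [← hN.per_σ] at a2 a4 a6 hle
  have e1 := Pool.Agent.MP_ae5b4e_an_ALM.nxt_of_det h.sol hN hc (hσm.lt_iff_lt.1 a1)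
    (hσm.lt_iff_lt.1 a2) (det_of_pt γ p1)
  have e2 := Pool.Agent.MP_ae5b4e_an_ALM.nxt_of_det h.sol hN hc (hσm.lt_iff_lt.1 a3)
    (hσm.lt_iff_lt.1 a4) (det_of_pt γ p2)
  have e3 := Pool.Agent.MP_ae5b4e_an_ALM.nxt_of_det h.sol hN hc (hσm.lt_iff_lt.1 a5)
    (hσm.lt_iff_lt.1 a6) (det_of_pt γ p3)
  refine ⟨x₀, ?_⟩
  rw [e1, e2, e3]
  exact hσm.le_iff_le.1 hle

end Pool.Agent.MP_ae5b4e_an_P3
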