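import Mathlib
import Pool.Agent.Lib.MP_ae5b4e_an_P3.Red

/-!
# MP_ae5b4e_an, project P3: positive semidefinite forms

If `Q ≥ 0` then `Q` has no zeros on the leaves: a zero of `Q ≥ 0` on a tangent line is the second
fixed point of the involution of this line, and the leaves do not contain it.
-/

noncomputable section

namespace Pool.Agent.MP_ae5b4e_an_P3

open Set Filter Topology Real
open scoped ContDiff
open Pool.Agent.MP_ae5b4e_an_hopf

/-- A positive semidefinite form which is positive on the curve is positive on the leaves. -/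
theorem GeoQ.ne_of_nonneg {γ : ConvexCurve} {Q : QuadraticForm ℝ (Fin 3 → ℝ)} {U : ℝ → ℝ → ℝ}
    (h : GeoQ γ Q U) (hQ : ∀ v, 0 ≤ Q v) (c : ℝ) (hc : c ∈ Ioo (0:ℝ) 1) (t : ℝ) :
    Q (γ.hvec t (U c t)) ≠ 0 := by
  intro h0
  have hA : 0 < Q (γ.Γ t) := lt_of_le_of_ne (hQ _) (h.hQ t).symm
  have hf : ∀ u, 0 ≤ u ^ 2 * Q (γ.Γ t) + u * QuadraticMap.polar Q (γ.Γ t) (deriv γ.Γ t) +
      Q (deriv γ.Γ t) := fun u => by
    rw [← Q_hvec]
    exact hQ _
  rw [Q_hvec] at h0
  have hne := Pool.Agent.MP_ae5b4e_an_ALT.sol_two h.sol hc t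
  apply hne
  unfold kq
  set A := Q (γ.Γ t)
  set B := QuadraticMap.polar Q (γ.Γ t) (deriv γ.Γ t)
  set D := Q (deriv γ.Γ t)
  set u := U c t
  -- the value at the vertex of the parabola
  have h1 := hf (-(B / A) / 2)
  have h2 : (-(B / A) / 2) ^ 2 * A + -(B / A) / 2 * B + D = -(A * (u + B / A / 2) ^ 2) := by
    have : D = -(u ^ 2 * A + u * B) := by linarith
    rw [this]
    field_simp
    ring
  rw [h2] at h1
  have h3 : (u + B / A / 2) ^ 2 ≤ 0 := by
    by_contra hcon
    push Not at hcon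
    have := mul_pos hA hcon
    linarith
  have h4 : u + B / A / 2 = 0 := pow_eq_zero_iff (two_ne_zero) |>.1 (le_antisymm h3 (sq_nonneg _))
  linarith

end Pool.Agent.MP_ae5b4e_an_P3
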