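import Mathlib
import Pool.Agent.Lib.MP_ae5b4e_an_P3.Core
import Pool.Agent.Lib.MP_ae5b4e_an_P3.Reach
import Pool.Agent.Lib.MP_ae5b4e_an_P3.Arc
import Pool.Agent.Lib.MP_ae5b4e_an_P3.Red
import Pool.Agent.Lib.MP_ae5b4e_an_P3.Poly
import Pool.Agent.Lib.MP_ae5b4e_an_P3.Pos
import Pool.Agent.Lib.MP_ae5b4e_an_FA.Str

/-!
# MP_ae5b4e_an, project P3, (F): the theorem
-/

noncomputable section

namespace Pool.Agent.MP_ae5b4e_an_P3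

open Set Filter Topology Real
open scoped ContDiff
open Pool.Agent.MP_ae5b4e_an_hopf
open Pool.Agent.MP_ae5b4e_an_RG
open Pool.Agent.MP_ae5b4e_an_MET (conic)
open Pool.Agent.MP_ae5b4e_an_FA (StrictCurve)
open Pool.Agent.MP_ae5b4e_an_RIG (Normal lift rU)

/-- An arc of the curve lies on a conic. -/
theorem GeoQ.arc {γ : ConvexCurve} {Q : QuadraticForm ℝ (Fin 3 → ℝ)} {U : ℝ → ℝ → ℝ}
    (h : GeoQ γ Q U) {c₁ : ℝ} (hc₁ : c₁ ∈ Ioo (0:ℝ) 1)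
    (hne : ∀ c ∈ Ioc 0 c₁, ∀ t, Q (γ.hvec t (U c t)) ≠ 0) (h3 : Reach3 γ U c₁) :
    ∃ C : QuadraticForm ℝ (Fin 3 → ℝ), C ≠ 0 ∧ ∃ t₀, ∀ᶠ t in 𝓝 t₀, C (γ.Γ t) = 0 := by
  obtain ⟨σ, lam, r, m, q, hN, -, hS, hW, hone, -, b, hb, hp⟩ := h.norm hc₁ hne
  obtain ⟨x₀, hx₀⟩ := h.three hN hc₁ h3
  obtain ⟨c₃, hc₃, h3'⟩ := exists_leaf_three hS hW (continuous_Q_deriv (Q := q • Q) hS.curve)
    (fun t => by simp only [hS.curve.per1]) (rel_of_one hS.curve hone) hc₁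
    (fun c hc t => hp c ⟨hc.1, hc.2.trans_lt hb.1⟩ t) hx₀
  have hc₃' : c₃ ∈ Ioo (0:ℝ) 1 := ⟨hc₃.1, hc₃.2.trans_lt hc₁.2⟩
  have hs : ∀ x y, QuadraticMap.associated (R := ℝ) (q • Q) x y =
      QuadraticMap.associated (R := ℝ) (q • Q) y x := fun x y =>
    QuadraticMap.associated_isSymm ℝ (q • Q) x y
  have hQ : ∀ x, QuadraticMap.associated (R := ℝ) (q • Q) x x = (q • Q) x := fun x =>
    QuadraticMap.associated_eq_self_apply ℝ (q • Q) x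
  have hmono : StrictMono (nxt (lift γ σ lam) 1 (rU (kq γ Q) σ U) c₃) :=
    strictMono_of_deriv_pos fun t => by
      rw [(hS.hasDerivAt_nxt_t hc₃' t).deriv]
      exact hS.nt_pos hc₃' t
  have hn0 := (hS.nxt_spec c₃ 0).1
  set n₀ := nxt (lift γ σ lam) 1 (rU (kq γ Q) σ U) c₃ 0 with hn₀
  have hβ : 0 < min n₀ (1 / 2) := lt_min hn0 (by norm_num)
  obtain ⟨C, hC, hC'⟩ := arc_on_conic hS.curve (a := 0) (b := min n₀ (1 / 2)) hβ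
    (by linarith [min_le_right n₀ (1 / 2)]) fun x hx y hy hxy =>
      core hS hW hs (fun t => by rw [hQ]; exact hone t) hb.2
        (fun c hc t => by rw [hQ]; exact hp c hc t) ⟨hc₃.1, hc₃.2.trans_lt hb.1⟩ h3' hxy
        ((hy.2.trans_le (min_le_left _ _)).trans (hmono hx.1))
  set β := min n₀ (1 / 2)
  refine ⟨C, hC, σ (β / 2), ?_⟩
  have hσm : StrictMono σ := strictMono_of_deriv_pos hN.pos_σ
  have hmem : σ (β / 2) ∈ Ioo (σ 0) (σ β) := ⟨hσm (by linarith), hσm (by linarith)⟩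
  filter_upwards [isOpen_Ioo.mem_nhds hmem] with t ht
  obtain ⟨x, hx, rfl⟩ := intermediate_value_Ioo hβ.le hN.smooth_σ.continuous.continuousOn ht
  have k := hC' x hx
  unfold lift at k
  rw [QuadraticMap.map_smul, smul_eq_mul] at k
  exact (mul_eq_zero.1 k).resolve_left (mul_pos (hN.pos_lam x) (hN.pos_lam x)).ne'

/-- **Theorem P3** (curves of positive curvature). -/
theorem pencil_of_three (γ : ConvexCurve) (Q : QuadraticForm ℝ (Fin 3 → ℝ))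
    (hQ : ∀ t, Q (γ.Γ t) ≠ 0) (U : ℝ → ℝ → ℝ)
    (hsmooth : ContDiffOn ℝ ∞ (fun q : ℝ × ℝ => U q.1 q.2) (Ioo 0 1 ×ˢ univ))
    (hper : ∀ c ∈ Ioo (0:ℝ) 1, ∀ t, U c (t + γ.T) = U c t)
    (hsimple : ∀ c ∈ Ioo (0:ℝ) 1, ∀ t t', γ.pt t (U c t) = γ.pt t' (U c t') →
      ∃ n : ℤ, t' = t + n * γ.T)
    (hmono : ∀ c ∈ Ioo (0:ℝ) 1, ∀ t, deriv (fun r => U r t) c < 0)
    (hlim : ∀ t, Tendsto (fun c => U c t) (𝓝[>] 0) atTop)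
    (hproj : ∀ c ∈ Ioo (0:ℝ) 1, ∀ t u v, u ≠ v → γ.pt t u ∈ γ.leaf U c →
      γ.pt t v ∈ γ.leaf U c → Q (γ.hvec t u) = Q (γ.hvec t v))
    {c₁ : ℝ} (hc₁ : c₁ ∈ Ioo (0:ℝ) 1)
    (hne : (∀ v, 0 ≤ Q v) ∨ ∀ c ∈ Ioc 0 c₁, ∀ t, Q (γ.hvec t (U c t)) ≠ 0)
    (h3 : Reach3 γ U c₁) :
    ∃ E : QuadraticForm ℝ (Fin 3 → ℝ), E.Nondegenerate ∧ γ.trace = conic E ∧
      ∀ c ∈ Ioo (0:ℝ) 1, ∃ ρ : ℝ, (Q - ρ • E).Nondegenerate ∧ γ.leaf U c = conic (Q - ρ • E) := by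
  have hG : GeoQ γ Q U := ⟨hQ, hsmooth, hper, hsimple, hmono, hlim, hproj⟩
  have hne' : ∀ c ∈ Ioc 0 c₁, ∀ t, Q (γ.hvec t (U c t)) ≠ 0 :=
    hne.elim (fun h c hc t => hG.ne_of_nonneg h c ⟨hc.1, hc.2.trans_lt hc₁.2⟩ t) id
  obtain ⟨C, hC, t₀, hC'⟩ := hG.arc hc₁ hne' h3
  obtain ⟨P, hP, hP'⟩ := poly_of_quad hC
  have hanti := strictAnti_of_deriv hsmooth hmono
  refine met_smooth γ hP (t₀ := t₀) ?_ Q hQ U hsmooth.continuousOn hper hsimple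
    (fun c hc c' hc' hlt t => hanti t hc hc' hlt) hlim hproj
  filter_upwards [hC'] with t ht
  exact hP' _ _ ht

/-- **Theorem P3.**  The foliation of the general problem, with the involutions of a quadratic form,
and three steps from one point of one leaf go around the curve. -/
theorem strict_pencil (γ : StrictCurve) (Q : QuadraticForm ℝ (Fin 3 → ℝ))
    (hQ : ∀ t, Q (γ.Γ t) ≠ 0) (U : ℝ → ℝ → ℝ)
    (hsmooth : ContDiffOn ℝ ∞ (fun q : ℝ × ℝ => U q.1 q.2) (Ioo 0 1 ×ˢ univ))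
    (hper : ∀ c ∈ Ioo (0:ℝ) 1, ∀ t, U c (t + γ.T) = U c t)
    (hsimple : ∀ c ∈ Ioo (0:ℝ) 1, ∀ t t', γ.pt t (U c t) = γ.pt t' (U c t') →
      ∃ n : ℤ, t' = t + n * γ.T)
    (hmono : ∀ c ∈ Ioo (0:ℝ) 1, ∀ t, deriv (fun r => U r t) c < 0)
    (hlim : ∀ t, Tendsto (fun c => U c t) (𝓝[>] 0) atTop)
    (hproj : ∀ c ∈ Ioo (0:ℝ) 1, ∀ t u v, u ≠ v → γ.pt t u ∈ γ.leaf U c →
      γ.pt t v ∈ γ.leaf U c → Q (γ.hvec t u) = Q (γ.hvec t v))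
    {c₁ : ℝ} (hc₁ : c₁ ∈ Ioo (0:ℝ) 1)
    (hne : (∀ v, 0 ≤ Q v) ∨ ∀ c ∈ Ioc 0 c₁, ∀ t, Q (γ.hvec t (U c t)) ≠ 0)
    {t₀ t₁ t₂ t₃ v₁ v₂ v₃ : ℝ} (h01 : t₀ < t₁) (h01' : t₁ < t₀ + γ.T) (h12 : t₁ < t₂)
    (h12' : t₂ < t₁ + γ.T) (h23 : t₂ < t₃) (h23' : t₃ < t₂ + γ.T)
    (p1 : γ.pt t₀ (U c₁ t₀) = γ.pt t₁ v₁) (p2 : γ.pt t₁ (U c₁ t₁) = γ.pt t₂ v₂)
    (p3 : γ.pt t₂ (U c₁ t₂) = γ.pt t₃ v₃) (h30 : t₀ + γ.T ≤ t₃) :
    ∃ E : QuadraticForm ℝ (Fin 3 → ℝ), E.Nondegenerate ∧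
      γ.trace = Pool.Agent.MP_ae5b4e_an_FA.conic E ∧
      ∀ c ∈ Ioo (0:ℝ) 1, ∃ ρ : ℝ, (Q - ρ • E).Nondegenerate ∧
        γ.leaf U c = Pool.Agent.MP_ae5b4e_an_FA.conic (Q - ρ • E) := by
  -- the field
  have hv : ∀ t u, Q (γ.hvec t u) = u ^ 2 * Q (γ.Γ t) +
      u * QuadraticMap.polar Q (γ.Γ t) ![deriv γ.x t, deriv γ.y t, 0] +
      Q ![deriv γ.x t, deriv γ.y t, 0] := by
    intro t u
    have h := Q_smul_add (Q := Q) u 1 (γ.Γ t) ![deriv γ.x t, deriv γ.y t, 0]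
    have e : γ.hvec t u = u • γ.Γ t + (1:ℝ) • ![deriv γ.x t, deriv γ.y t, 0] := by
      funext i
      fin_cases i <;> simp [StrictCurve.hvec, StrictCurve.Γ]
    rw [e, h]
    ring
  have hκ : ∀ c ∈ Ioo (0:ℝ) 1, ∀ t u v, u ≠ v → γ.pt t u ∈ γ.leaf U c →
      γ.pt t v ∈ γ.leaf U c → u + v =
        -(QuadraticMap.polar Q (γ.Γ t) ![deriv γ.x t, deriv γ.y t, 0] / Q (γ.Γ t)) := by
    intro c hc t u v huv hu hv'
    have h1 := hproj c hc t u v huv hu hv'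
    rw [hv, hv] at h1
    have h2 : (u - v) * ((u + v) * Q (γ.Γ t) +
        QuadraticMap.polar Q (γ.Γ t) ![deriv γ.x t, deriv γ.y t, 0]) = 0 := by
      linear_combination h1
    have h3 := (mul_eq_zero.1 h2).resolve_left (sub_ne_zero.2 huv)
    have h4 := hQ t
    field_simp
    linarith
  have hcurv : ∀ t, 0 < γ.curv t := γ.curved hsimple hlim hsmooth hmono hκ
  exact pencil_of_three (γ.toConvex hcurv) Q hQ U hsmooth hper hsimple hmono hlim hproj hc₁ hne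
    ⟨t₀, t₁, t₂, t₃, v₁, v₂, v₃, h01, h01', h12, h12', h23, h23', p1, p2, p3, h30⟩

end Pool.Agent.MP_ae5b4e_an_P3
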