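import Mathlib
import Pool.Agent.Lib.MP_ae5b4e_an_P3.Reach

/-!
In the class of a quadratic form: if `n` steps from one point of one leaf go once around the curve,
then there is a leaf on which all points are `n`-periodic.
-/

noncomputable section

namespace Pool.Agent.MP_ae5b4e_an_P3

open Set Filter Topology Real
open scoped ContDiff
open Pool.Agent.MP_ae5b4e_an_hopf Pool.Agent.MP_ae5b4e_an_ALT
open Pool.Agent.MP_ae5b4e_an_hopf.Sys (nt nc)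

/-- Intermediate value theorem for the iterates. -/
theorem exists_iter {f : ℝ → ℝ → ℝ} {T : ℝ} (hT : 0 < T)
    (hc : ContinuousOn (fun q : ℝ × ℝ => f q.1 q.2) (Ioo 0 1 ×ˢ univ))
    (hm : ∀ c ∈ Ioo (0:ℝ) 1, Monotone (f c))
    (h0 : ∀ x, Tendsto (fun c => f c x) (𝓝[>] 0) (𝓝 x)) (n : ℕ)
    {c₁ x : ℝ} (hc₁ : c₁ ∈ Ioo (0:ℝ) 1) (h3 : x + T ≤ (f c₁)^[n] x) :
    ∃ c ∈ Ioc 0 c₁, (f c)^[n] x = x + T := by
  -- near the curve the `n`-th iterate is small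
  have key : ∀ k : ℕ, ∀ ε > 0, ∀ᶠ c in 𝓝[>] (0:ℝ), (f c)^[k] x < x + ε := by
    intro k
    induction k with
    | zero =>
      intro ε hε
      refine Eventually.of_forall fun c => ?_
      simpa using hε
    | succ k ih =>
      intro ε hε
      have k1 := ih (ε / 2) (by positivity)
      have k2 : ∀ᶠ c in 𝓝[>] (0:ℝ), f c (x + ε / 2) < x + ε / 2 + ε / 2 :=
        (h0 (x + ε / 2)).eventually (gt_mem_nhds (by linarith))
      have k3 : ∀ᶠ c in 𝓝[>] (0:ℝ), c ∈ Ioo (0:ℝ) 1 := Ioo_mem_nhdsGT one_pos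
      filter_upwards [k1, k2, k3] with c e1 e2 e3
      rw [Function.iterate_succ_apply']
      have := hm c e3 e1.le
      linarith
  obtain ⟨a, ha1, ha2⟩ := ((key n T hT).and (Ioo_mem_nhdsGT hc₁.1)).exists
  have hsub : Icc a c₁ ⊆ Ioo (0:ℝ) 1 := fun c hc => ⟨ha2.1.trans_le hc.1, hc.2.trans_lt hc₁.2⟩
  have hcont : ∀ k : ℕ, ContinuousOn (fun c => (f c)^[k] x) (Icc a c₁) := by
    intro k
    induction k with
    | zero => simpa using continuousOn_const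
    | succ k ih =>
      have := hc.comp (f := fun c : ℝ => (c, (f c)^[k] x)) (continuousOn_id.prodMk ih)
        fun c h => ⟨hsub h, mem_univ _⟩
      refine this.congr fun c _ => ?_
      rw [Function.iterate_succ_apply']
      rfl
  obtain ⟨c, hc, he⟩ := intermediate_value_Icc ha2.2.le (hcont n) ⟨ha1.le, h3⟩
  exact ⟨c, ⟨ha2.1.trans_le hc.1, hc.2⟩, he⟩

variable {Γ : ℝ → Fin 3 → ℝ} {T : ℝ} {U : ℝ → ℝ → ℝ}

/-- If one point of a leaf is `n`-periodic then all points of this leaf are. -/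
theorem leaf_iter (h : SSys T Γ U) (hW : ∀ y, Wr Γ y = 1) {D : ℝ → ℝ} (hDc : Continuous D)
    (hDp : ∀ t, D (t + T) = D t)
    (hD : ∀ t s, t < s → s < t + T →
      dd Γ s t ^ 2 * (L1 Γ s t ^ 2 + D s) = dd Γ t s ^ 2 * (L1 Γ t s ^ 2 + D t))
    {c : ℝ} (hc : c ∈ Ioo (0:ℝ) 1) (hpos : ∀ t, 0 < U c t ^ 2 + D t) {n : ℕ} {t₀ : ℝ}
    (h3 : (nxt Γ T U c)^[n] t₀ = t₀ + T) (t : ℝ) :
    (nxt Γ T U c)^[n] t = t + T := by
  have cU : Continuous fun t => U c t := h.continuous_Uf hc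
  refine n_periodic (w := dens U D c) (h.hasDerivAt_nxt_t hc) ?_ ?_ ?_ ?_ h3 t
  · refine (h.continuous_Uc hc).neg.div₀ ((((cU.pow 2).add hDc).sqrt).pow 3) fun t => ?_
    have := Real.sqrt_pos.2 (hpos t)
    positivity
  · intro t
    have k1 := Real.sqrt_pos.2 (hpos t)
    have k2 := h.Uc_neg hc t
    exact div_pos (by linarith) (by positivity)
  · intro t
    unfold dens
    rw [h.Uc_per hc, h.per c hc, hDp]
  · intro t
    exact (dens_inv h hW hD hc t (hpos t)).2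

/-- If `n` steps from one point of the leaf `c₁` go at least once around the curve, then all
points of some leaf `c ≤ c₁` are `n`-periodic. -/
theorem exists_leaf_iter (h : SSys T Γ U) (hW : ∀ y, Wr Γ y = 1) {D : ℝ → ℝ} (hDc : Continuous D)
    (hDp : ∀ t, D (t + T) = D t)
    (hD : ∀ t s, t < s → s < t + T →
      dd Γ s t ^ 2 * (L1 Γ s t ^ 2 + D s) = dd Γ t s ^ 2 * (L1 Γ t s ^ 2 + D t))
    {c₁ : ℝ} (hc₁ : c₁ ∈ Ioo (0:ℝ) 1) (hpos : ∀ c ∈ Ioc 0 c₁, ∀ t, 0 < U c t ^ 2 + D t) {n : ℕ}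
    {t₀ : ℝ} (h3 : t₀ + T ≤ (nxt Γ T U c₁)^[n] t₀) :
    ∃ c ∈ Ioc 0 c₁, ∀ t, (nxt Γ T U c)^[n] t = t + T := by
  obtain ⟨c, hc, he⟩ := exists_iter (f := nxt Γ T U) h.T_pos h.continuousOn_nxt.snd (fun c hc =>
    (strictMono_of_hasDerivAt_pos (h.hasDerivAt_nxt_t hc) (h.nt_pos hc)).monotone)
    h.tendsto_nxt_zero n hc₁ h3
  have hc' : c ∈ Ioo (0:ℝ) 1 := ⟨hc.1, hc.2.trans_lt hc₁.2⟩
  exact ⟨c, hc, leaf_iter h hW hDc hDp hD hc' (hpos c hc) he⟩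

/-- The version for four steps. -/
theorem exists_leaf_four (h : SSys T Γ U) (hW : ∀ y, Wr Γ y = 1) {D : ℝ → ℝ} (hDc : Continuous D)
    (hDp : ∀ t, D (t + T) = D t)
    (hD : ∀ t s, t < s → s < t + T →
      dd Γ s t ^ 2 * (L1 Γ s t ^ 2 + D s) = dd Γ t s ^ 2 * (L1 Γ t s ^ 2 + D t))
    {c₁ : ℝ} (hc₁ : c₁ ∈ Ioo (0:ℝ) 1) (hpos : ∀ c ∈ Ioc 0 c₁, ∀ t, 0 < U c t ^ 2 + D t)
    {t₀ : ℝ} (h3 : t₀ + T ≤
      nxt Γ T U c₁ (nxt Γ T U c₁ (nxt Γ T U c₁ (nxt Γ T U c₁ t₀)))) :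
    ∃ c ∈ Ioc 0 c₁, ∀ t, nxt Γ T U c (nxt Γ T U c (nxt Γ T U c (nxt Γ T U c t))) = t + T :=
  exists_leaf_iter h hW hDc hDp hD hc₁ hpos (n := 4) h3

end Pool.Agent.MP_ae5b4e_an_P3
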