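import Mathlib
import Pool.Agent.Lib.MP_ae5b4e_an_P3.Core4
import Pool.Agent.Lib.MP_ae5b4e_an_P3.ReachN
import Pool.Agent.Lib.MP_ae5b4e_an_P3.Pos
import Pool.Agent.Lib.MP_ae5b4e_an_P3.Fin

/-!
# MP_ae5b4e_an, project P3, module Fin4: centrally symmetric curves, four steps
-/

noncomputable section

namespace Pool.Agent.MP_ae5b4e_an_P3

open Set Filter Topology Real
open scoped ContDiff
open Pool.Agent.MP_ae5b4e_an_hopf
open Pool.Agent.MP_ae5b4e_an_RG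
open Pool.Agent.MP_ae5b4e_an_MET (conic)
open Pool.Agent.MP_ae5b4e_an_FA (StrictCurve)
open Pool.Agent.MP_ae5b4e_an_RIG (Normal lift rU)

section normal

variable {γ : ConvexCurve} {Q : QuadraticForm ℝ (Fin 3 → ℝ)} {σ lam r m : ℝ → ℝ} {ϑ : ℝ}

lemma Γ_half (hx : ∀ t, γ.x (t + ϑ) = -γ.x t) (hy : ∀ t, γ.y (t + ϑ) = -γ.y t) (t : ℝ) :
    γ.Γ (t + ϑ) = Mc (γ.Γ t) := by
  funext i
  fin_cases i <;> simp [ConvexCurve.Γ, Mc, hx, hy]

lemma Wr_half (hx : ∀ t, γ.x (t + ϑ) = -γ.x t) (hy : ∀ t, γ.y (t + ϑ) = -γ.y t) (t : ℝ) :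
    Wr γ.Γ (t + ϑ) = Wr γ.Γ t := by
  have hM := Γ_half hx hy
  have hC := γ.isCurve
  unfold Wr
  rw [hM, M_deriv hC hM, M_deriv2 hC hM, det3_Mc]

/-- the determinant of the normalized lift -/
lemma Wr_lift (hN : Normal γ (kq γ Q) σ lam r m) (x : ℝ) :
    (lam x * deriv σ x) ^ 3 * Wr γ.Γ (σ x) = 1 := by
  have hC := γ.isCurve
  have hσd : ∀ x, HasDerivAt σ (deriv σ x) x := fun x =>
    (hN.smooth_σ.differentiable (by simp) x).hasDerivAt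
  have hσ2 : HasDerivAt (deriv σ) (deriv (deriv σ) x) x :=
    (((contDiff_infty_iff_deriv.1 hN.smooth_σ).2).differentiable (by simp) x).hasDerivAt
  have hld : ∀ x, HasDerivAt lam (deriv lam x) x := fun x =>
    (hN.smooth_lam.differentiable (by simp) x).hasDerivAt
  have hl2 : HasDerivAt (deriv lam) (deriv (deriv lam) x) x :=
    (((contDiff_infty_iff_deriv.1 hN.smooth_lam).2).differentiable (by simp) x).hasDerivAt
  have e1 : ∀ x, deriv (lift γ σ lam) x =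
      deriv lam x • γ.Γ (σ x) + (lam x * deriv σ x) • deriv γ.Γ (σ x) := by
    intro x
    apply HasDerivAt.deriv
    have k2 := (hC.hd0 (σ x)).scomp x (hσd x)
    refine ((hld x).smul k2).congr_deriv ?_
    funext i
    simp only [Function.comp, Pi.add_apply, Pi.smul_apply, smul_eq_mul]
    ring
  have e2 : deriv (deriv (lift γ σ lam)) x =
      deriv (deriv lam) x • γ.Γ (σ x) + (2 * deriv lam x * deriv σ x + lam x *
        deriv (deriv σ) x) • deriv γ.Γ (σ x) +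
        (lam x * deriv σ x ^ 2) • deriv (deriv γ.Γ) (σ x) := by
    have e3 : deriv (lift γ σ lam) = fun x =>
        deriv lam x • γ.Γ (σ x) + (lam x * deriv σ x) • deriv γ.Γ (σ x) := funext e1
    rw [e3]
    apply HasDerivAt.deriv
    have k1 := (hC.hd0 (σ x)).scomp x (hσd x)
    have k2 := (hC.hd1 (σ x)).scomp x (hσd x)
    refine ((hl2.smul k1).add (((hld x).mul hσ2).smul k2)).congr_deriv ?_
    funext i
    simp only [Function.comp, Pi.add_apply, Pi.smul_apply, smul_eq_mul, Pi.mul_apply]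
    ring
  have hw := hN.wr x
  rw [e1, e2] at hw
  unfold lift at hw
  rw [← hw]
  unfold Wr det3
  simp only [Pi.add_apply, Pi.smul_apply, smul_eq_mul]
  ring

/-- **The normal form of a centrally symmetric curve is symmetric.** -/
theorem lift_half (hQ : ∀ t, Q (γ.Γ t) ≠ 0) (hN : Normal γ (kq γ Q) σ lam r m)
    (hϑ : ϑ + ϑ = γ.T) (hx : ∀ t, γ.x (t + ϑ) = -γ.x t) (hy : ∀ t, γ.y (t + ϑ) = -γ.y t)
    (hQM : ∀ v, Q (Mc v) = Q v) (x : ℝ) :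
    lift γ σ lam (x + 1 / 2) = Mc (lift γ σ lam x) := by
  have hC := γ.isCurve
  have hM := Γ_half hx hy
  have hlift : ∀ x, Q (lift γ σ lam x) = lam x ^ 2 * Q (γ.Γ (σ x)) := fun x => by
    unfold lift
    rw [QuadraticMap.map_smul, smul_eq_mul]
    ring
  set C0 := Q (lift γ σ lam 0) with hC0
  have hconst : ∀ x, lam x ^ 2 * Q (γ.Γ (σ x)) = C0 := fun x => by
    rw [← hlift, Q_lift hQ hN x]
  have hσm : StrictMono σ := strictMono_of_deriv_pos hN.pos_σ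
  have hσs : Function.Surjective σ := by
    set f : ℝ → ℝ := fun s => σ (s / γ.T) with hf
    have hT := γ.T_pos
    have k1 : Continuous f := hN.smooth_σ.continuous.comp (by fun_prop)
    have k2 : ∀ s, f (s + γ.T) = f s + γ.T := fun s => by
      show σ ((s + γ.T) / γ.T) = σ (s / γ.T) + γ.T
      rw [add_div, div_self hT.ne', hN.per_σ]
    intro t
    obtain ⟨s, hs⟩ := Pool.Agent.MP_ae5b4e_an_total.surjective_of_shift hT k1 k2 t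
    exact ⟨s / γ.T, hs⟩
  -- the density of the normal parameter
  set w : ℝ → ℝ := fun t => √(C0 / Q (γ.Γ t)) * (Wr γ.Γ t) ^ ((1:ℝ) / 3) with hw
  have hratio : ∀ t, 0 < C0 / Q (γ.Γ t) := by
    intro t
    obtain ⟨y, rfl⟩ := hσs t
    rw [← hconst y, mul_div_assoc, div_self (hQ _), mul_one]
    exact pow_pos (hN.pos_lam y) 2
  have hQc : Continuous fun t => Q (γ.Γ t) := by
    have h3 : (fun t => Q (γ.Γ t)) = fun s =>
        (LinearMap.toContinuousBilinearMap (QuadraticMap.polarBilin Q)) (γ.Γ s) (γ.Γ s) / 2 :=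
      funext fun t => Q_eq_polar _
    rw [h3]
    exact (((((LinearMap.toContinuousBilinearMap (QuadraticMap.polarBilin Q)).contDiff.comp
      hC.smooth).clm_apply hC.smooth)).div_const 2).continuous
  have hwc : Continuous w := by
    have k1 : Continuous fun t => √(C0 / Q (γ.Γ t)) := (continuous_const.div hQc hQ).sqrt
    have k2 : Continuous fun t => (Wr γ.Γ t) ^ ((1:ℝ) / 3) :=
      hC.contDiff_Wr.continuous.rpow_const fun t => Or.inr (by norm_num)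
    exact k1.mul k2
  have hwpos : ∀ t, 0 < w t := fun t =>
    mul_pos (Real.sqrt_pos.2 (hratio t)) (Real.rpow_pos_of_pos (hC.Wr_pos t) _)
  have hwper : ∀ t, w (t + ϑ) = w t := fun t => by
    simp only [hw]
    rw [Wr_half hx hy, hM, hQM]
  have hwσ : ∀ x, w (σ x) * deriv σ x = 1 := by
    intro x
    have hl := hN.pos_lam x
    have hs := hN.pos_σ x
    have e1 : √(C0 / Q (γ.Γ (σ x))) = lam x := by
      rw [← hconst x, mul_div_assoc, div_self (hQ _), mul_one, Real.sqrt_sq hl.le]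
    have hW := hC.Wr_pos (σ x)
    have e2 : ((Wr γ.Γ (σ x)) ^ ((1:ℝ) / 3)) ^ 3 = Wr γ.Γ (σ x) := by
      rw [← Real.rpow_natCast, ← Real.rpow_mul hW.le]
      norm_num
    have e3 : (w (σ x) * deriv σ x) ^ 3 = 1 ^ 3 := by
      have hWl := Wr_lift hN x
      rw [mul_pow] at hWl
      show (√(C0 / Q (γ.Γ (σ x))) * (Wr γ.Γ (σ x)) ^ ((1:ℝ) / 3) * deriv σ x) ^ 3 = 1 ^ 3
      rw [e1, one_pow, mul_pow, mul_pow, e2]
      linarith
    have hpos : 0 < w (σ x) * deriv σ x := mul_pos (hwpos _) hs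
    exact (pow_left_inj₀ hpos.le zero_le_one three_ne_zero).1 e3
  -- its primitive
  set I : ℝ → ℝ := fun t => ∫ s in (0)..t, w s with hI
  have hId : ∀ t, HasDerivAt I (w t) t := fun t =>
    intervalIntegral.integral_hasDerivAt_right (hwc.intervalIntegrable _ _)
      (hwc.stronglyMeasurableAtFilter _ _) hwc.continuousAt
  have hIm : StrictMono I := strictMono_of_hasDerivAt_pos hId hwpos
  have h0 : ∀ g : ℝ → ℝ, (∀ x, HasDerivAt g 0 x) → ∀ x, g x = g 0 := fun g hg x =>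
    is_const_of_deriv_eq_zero (fun x => (hg x).differentiableAt) (fun x => (hg x).deriv) x 0
  have hIσ : ∀ x, I (σ x) = x + I (σ 0) := by
    intro x
    have k := h0 (fun x => I (σ x) - x) (fun x => by
      have hσd : HasDerivAt σ (deriv σ x) x := (hN.smooth_σ.differentiable (by simp) x).hasDerivAt
      have k1 := ((hId (σ x)).comp x hσd).sub (hasDerivAt_id x)
      rw [hwσ, sub_self] at k1
      exact k1) x
    simp only [sub_zero] at k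
    linarith
  have hIϑ : ∀ t, I (t + ϑ) = I t + (I ϑ - I 0) := by
    intro t
    have k := h0 (fun t => I (t + ϑ) - I t) (fun t => by
      have k1 := ((hId (t + ϑ)).comp_add_const t ϑ).sub (hId t)
      rw [hwper, sub_self] at k1
      exact k1) t
    simp only [zero_add] at k
    linarith
  set K := I ϑ - I 0 with hK
  have hσK : ∀ x, σ x + ϑ = σ (x + K) := by
    intro x
    refine hIm.injective ?_
    rw [hIϑ (σ x), hIσ x, hIσ (x + K)]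
    ring
  have hK2 : K = 1 / 2 := by
    have e1 : σ (0 + K + K) = σ (0 + 1) := by
      rw [← hσK, ← hσK, hN.per_σ, add_assoc, hϑ]
    have e2 := hσm.injective e1
    linarith
  have hσh : σ (x + 1 / 2) = σ x + ϑ := by rw [hσK, hK2]
  have hlam : lam (x + 1 / 2) = lam x := by
    have e1 := hconst (x + 1 / 2)
    have e2 := hconst x
    rw [hσh, hM, hQM] at e1
    have e3 : lam (x + 1 / 2) ^ 2 = lam x ^ 2 :=
      mul_right_cancel₀ (hQ (σ x)) (e1.trans e2.symm)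
    exact (pow_left_inj₀ (hN.pos_lam _).le (hN.pos_lam _).le two_ne_zero).1 e3
  unfold lift
  rw [hlam, hσh, hM, Mc_smul]

end normal

/-- On the leaf `c` four steps from some point go around the curve. -/
def Reach4 (γ : ConvexCurve) (U : ℝ → ℝ → ℝ) (c : ℝ) : Prop :=
  ∃ t₀ t₁ t₂ t₃ t₄ v₁ v₂ v₃ v₄, t₀ < t₁ ∧ t₁ < t₀ + γ.T ∧ t₁ < t₂ ∧ t₂ < t₁ + γ.T ∧ t₂ < t₃ ∧
    t₃ < t₂ + γ.T ∧ t₃ < t₄ ∧ t₄ < t₃ + γ.T ∧ γ.pt t₀ (U c t₀) = γ.pt t₁ v₁ ∧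
    γ.pt t₁ (U c t₁) = γ.pt t₂ v₂ ∧ γ.pt t₂ (U c t₂) = γ.pt t₃ v₃ ∧
    γ.pt t₃ (U c t₃) = γ.pt t₄ v₄ ∧ t₀ + γ.T ≤ t₄

/-- the condition in the normal form -/
theorem GeoQ.four {γ : ConvexCurve} {Q : QuadraticForm ℝ (Fin 3 → ℝ)} {U : ℝ → ℝ → ℝ}
    (h : GeoQ γ Q U) {σ lam r m : ℝ → ℝ} (hN : Normal γ (kq γ Q) σ lam r m) {c : ℝ}
    (hc : c ∈ Ioo (0:ℝ) 1) (h4 : Reach4 γ U c) :
    ∃ t, t + 1 ≤ nxt (lift γ σ lam) 1 (rU (kq γ Q) σ U) c (nxt (lift γ σ lam) 1 (rU (kq γ Q) σ U) c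
      (nxt (lift γ σ lam) 1 (rU (kq γ Q) σ U) c (nxt (lift γ σ lam) 1 (rU (kq γ Q) σ U) c t))) := by
  obtain ⟨t₀, t₁, t₂, t₃, t₄, v₁, v₂, v₃, v₄, a1, a2, a3, a4, a5, a6, a7, a8, p1, p2, p3, p4,
    hle⟩ := h4
  have hσm : StrictMono σ := strictMono_of_deriv_pos hN.pos_σ
  have hσs : Function.Surjective σ := by
    set f : ℝ → ℝ := fun s => σ (s / γ.T) with hf
    have hT := γ.T_pos
    have k1 : Continuous f := hN.smooth_σ.continuous.comp (by fun_prop)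
    have k2 : ∀ s, f (s + γ.T) = f s + γ.T := fun s => by
      show σ ((s + γ.T) / γ.T) = σ (s / γ.T) + γ.T
      rw [add_div, div_self hT.ne', hN.per_σ]
    intro t
    obtain ⟨s, hs⟩ := Pool.Agent.MP_ae5b4e_an_total.surjective_of_shift hT k1 k2 t
    exact ⟨s / γ.T, hs⟩
  obtain ⟨x₀, rfl⟩ := hσs t₀
  obtain ⟨x₁, rfl⟩ := hσs t₁
  obtain ⟨x₂, rfl⟩ := hσs t₂
  obtain ⟨x₃, rfl⟩ := hσs t₃
  obtain ⟨x₄, rfl⟩ := hσs t₄
  rw [← hN.per_σ] at a2 a4 a6 a8 hle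
  have e1 := Pool.Agent.MP_ae5b4e_an_ALM.nxt_of_det h.sol hN hc (hσm.lt_iff_lt.1 a1)
    (hσm.lt_iff_lt.1 a2) (det_of_pt γ p1)
  have e2 := Pool.Agent.MP_ae5b4e_an_ALM.nxt_of_det h.sol hN hc (hσm.lt_iff_lt.1 a3)
    (hσm.lt_iff_lt.1 a4) (det_of_pt γ p2)
  have e3 := Pool.Agent.MP_ae5b4e_an_ALM.nxt_of_det h.sol hN hc (hσm.lt_iff_lt.1 a5)
    (hσm.lt_iff_lt.1 a6) (det_of_pt γ p3)
  have e4 := Pool.Agent.MP_ae5b4e_an_ALM.nxt_of_det h.sol hN hc (hσm.lt_iff_lt.1 a7)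
    (hσm.lt_iff_lt.1 a8) (det_of_pt γ p4)
  refine ⟨x₀, ?_⟩
  rw [e1, e2, e3, e4]
  exact hσm.le_iff_le.1 hle

/-- An arc of the curve lies on a conic. -/
theorem GeoQ.arc4 {γ : ConvexCurve} {Q : QuadraticForm ℝ (Fin 3 → ℝ)} {U : ℝ → ℝ → ℝ} {ϑ : ℝ}
    (h : GeoQ γ Q U) (hϑ : ϑ + ϑ = γ.T) (hx : ∀ t, γ.x (t + ϑ) = -γ.x t)
    (hy : ∀ t, γ.y (t + ϑ) = -γ.y t) (hQM : ∀ v, Q (Mc v) = Q v) {c₁ : ℝ}
    (hc₁ : c₁ ∈ Ioo (0:ℝ) 1)
    (hne : ∀ c ∈ Ioc 0 c₁, ∀ t, Q (γ.hvec t (U c t)) ≠ 0) (h4 : Reach4 γ U c₁) :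
    ∃ C : QuadraticForm ℝ (Fin 3 → ℝ), C ≠ 0 ∧ ∃ t₀, ∀ᶠ t in 𝓝 t₀, C (γ.Γ t) = 0 := by
  obtain ⟨σ, lam, r, m, q, hN, -, hS, hW, hone, -, b, hb, hp⟩ := h.norm hc₁ hne
  obtain ⟨x₀, hx₀⟩ := h.four hN hc₁ h4
  obtain ⟨c₃, hc₃, h4'⟩ := exists_leaf_four hS hW (continuous_Q_deriv (Q := q • Q) hS.curve)
    (fun t => by simp only [hS.curve.per1]) (rel_of_one hS.curve hone) hc₁
    (fun c hc t => hp c ⟨hc.1, hc.2.trans_lt hb.1⟩ t) hx₀
  have hc₃' : c₃ ∈ Ioo (0:ℝ) 1 := ⟨hc₃.1, hc₃.2.trans_lt hc₁.2⟩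
  have hs : ∀ x y, QuadraticMap.associated (R := ℝ) (q • Q) x y =
      QuadraticMap.associated (R := ℝ) (q • Q) y x := fun x y =>
    QuadraticMap.associated_isSymm ℝ (q • Q) x y
  have hQ : ∀ x, QuadraticMap.associated (R := ℝ) (q • Q) x x = (q • Q) x := fun x =>
    QuadraticMap.associated_eq_self_apply ℝ (q • Q) x
  have hBM : ∀ x y, QuadraticMap.associated (R := ℝ) (q • Q) (Mc x) (Mc y) =
      QuadraticMap.associated (R := ℝ) (q • Q) x y := by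
    intro x y
    rw [QuadraticMap.associated_apply, QuadraticMap.associated_apply, ← Mc_add]
    simp only [smul_apply, hQM]
  have hmono : StrictMono (nxt (lift γ σ lam) 1 (rU (kq γ Q) σ U) c₃) :=
    strictMono_of_deriv_pos fun t => by
      rw [(hS.hasDerivAt_nxt_t hc₃' t).deriv]
      exact hS.nt_pos hc₃' t
  have hn0 := (hS.nxt_spec c₃ 0).1
  set n₀ := nxt (lift γ σ lam) 1 (rU (kq γ Q) σ U) c₃ 0 with hn₀
  have hβ : 0 < min n₀ (1 / 2) := lt_min hn0 (by norm_num)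
  obtain ⟨C, hC, hC'⟩ := arc_on_conic hS.curve (a := 0) (b := min n₀ (1 / 2)) hβ
    (by linarith [min_le_right n₀ (1 / 2)]) fun x hx' y hy' hxy =>
      core4 (τ := 1 / 2) hS hW hs (fun t => by rw [hQ]; exact hone t) hBM (by norm_num)
        (lift_half h.hQ hN hϑ hx hy hQM) hb.2
        (fun c hc t => by rw [hQ]; exact hp c hc t) ⟨hc₃.1, hc₃.2.trans_lt hb.1⟩ h4' hxy
        ((hy'.2.trans_le (min_le_left _ _)).trans (hmono hx'.1))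
  set β := min n₀ (1 / 2)
  refine ⟨C, hC, σ (β / 2), ?_⟩
  have hσm : StrictMono σ := strictMono_of_deriv_pos hN.pos_σ
  have hmem : σ (β / 2) ∈ Ioo (σ 0) (σ β) := ⟨hσm (by linarith), hσm (by linarith)⟩
  filter_upwards [isOpen_Ioo.mem_nhds hmem] with t ht
  obtain ⟨x, hx', rfl⟩ := intermediate_value_Ioo hβ.le hN.smooth_σ.continuous.continuousOn ht
  have k := hC' x hx'
  unfold lift at k
  rw [QuadraticMap.map_smul, smul_eq_mul] at k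
  exact (mul_eq_zero.1 k).resolve_left (mul_pos (hN.pos_lam x) (hN.pos_lam x)).ne'

/-- **Theorem P4** (curves of positive curvature). -/
theorem pencil_of_four (γ : ConvexCurve) {ϑ : ℝ} (hϑ : ϑ + ϑ = γ.T)
    (hx : ∀ t, γ.x (t + ϑ) = -γ.x t) (hy : ∀ t, γ.y (t + ϑ) = -γ.y t)
    (Q : QuadraticForm ℝ (Fin 3 → ℝ)) (hQM : ∀ v, Q (Mc v) = Q v)
    (hQ : ∀ t, Q (γ.Γ t) ≠ 0) (U : ℝ → ℝ → ℝ)
    (hsmooth : ContDiffOn ℝ ∞ (fun q : ℝ × ℝ => U q.1 q.2) (Ioo 0 1 ×ˢ univ))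
    (hper : ∀ c ∈ Ioo (0:ℝ) 1, ∀ t, U c (t + γ.T) = U c t)
    (hsimple : ∀ c ∈ Ioo (0:ℝ) 1, ∀ t t', γ.pt t (U c t) = γ.pt t' (U c t') →
      ∃ n : ℤ, t' = t + n * γ.T)
    (hmono : ∀ c ∈ Ioo (0:ℝ) 1, ∀ t, deriv (fun r => U r t) c < 0)
    (hlim : ∀ t, Tendsto (fun c => U c t) (𝓝[>] 0) atTop)
    (hproj : ∀ c ∈ Ioo (0:ℝ) 1, ∀ t u v, u ≠ v → γ.pt t u ∈ γ.leaf U c →
      γ.pt t v ∈ γ.leaf U c → Q (γ.hvec t u) = Q (γ.hvec t v))
    {c₁ : ℝ} (hc₁ : c₁ ∈ Ioo (0:ℝ) 1)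
    (hne : (∀ v, 0 ≤ Q v) ∨ ∀ c ∈ Ioc 0 c₁, ∀ t, Q (γ.hvec t (U c t)) ≠ 0)
    (h4 : Reach4 γ U c₁) :
    ∃ E : QuadraticForm ℝ (Fin 3 → ℝ), E.Nondegenerate ∧ γ.trace = conic E ∧
      ∀ c ∈ Ioo (0:ℝ) 1, ∃ ρ : ℝ, (Q - ρ • E).Nondegenerate ∧ γ.leaf U c = conic (Q - ρ • E) := by
  have hG : GeoQ γ Q U := ⟨hQ, hsmooth, hper, hsimple, hmono, hlim, hproj⟩
  have hne' := hne.elim (fun h c hc t => hG.ne_of_nonneg h c ⟨hc.1, hc.2.trans_lt hc₁.2⟩ t) id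
  obtain ⟨C, hC, t₀, hC'⟩ := hG.arc4 hϑ hx hy hQM hc₁ hne' h4
  obtain ⟨P, hP, hP'⟩ := poly_of_quad hC
  have hanti := strictAnti_of_deriv hsmooth hmono
  refine met_smooth γ hP (t₀ := t₀) ?_ Q hQ U hsmooth.continuousOn hper hsimple
    (fun c hc c' hc' hlt t => hanti t hc hc' hlt) hlim hproj
  filter_upwards [hC'] with t ht
  exact hP' _ _ ht

/-- **Theorem P4.**  Centrally symmetric curves: four steps from one point of one leaf go around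
the curve. -/
theorem strict_pencil4 (γ : StrictCurve) {ϑ : ℝ} (hϑ : ϑ + ϑ = γ.T)
    (hx : ∀ t, γ.x (t + ϑ) = -γ.x t) (hy : ∀ t, γ.y (t + ϑ) = -γ.y t)
    (Q : QuadraticForm ℝ (Fin 3 → ℝ)) (hQM : ∀ a b c : ℝ, Q ![-a, -b, c] = Q ![a, b, c])
    (hQ : ∀ t, Q (γ.Γ t) ≠ 0) (U : ℝ → ℝ → ℝ)
    (hsmooth : ContDiffOn ℝ ∞ (fun q : ℝ × ℝ => U q.1 q.2) (Ioo 0 1 ×ˢ univ))
    (hper : ∀ c ∈ Ioo (0:ℝ) 1, ∀ t, U c (t + γ.T) = U c t)
    (hsimple : ∀ c ∈ Ioo (0:ℝ) 1, ∀ t t', γ.pt t (U c t) = γ.pt t' (U c t') →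
      ∃ n : ℤ, t' = t + n * γ.T)
    (hmono : ∀ c ∈ Ioo (0:ℝ) 1, ∀ t, deriv (fun r => U r t) c < 0)
    (hlim : ∀ t, Tendsto (fun c => U c t) (𝓝[>] 0) atTop)
    (hproj : ∀ c ∈ Ioo (0:ℝ) 1, ∀ t u v, u ≠ v → γ.pt t u ∈ γ.leaf U c →
      γ.pt t v ∈ γ.leaf U c → Q (γ.hvec t u) = Q (γ.hvec t v))
    {c₁ : ℝ} (hc₁ : c₁ ∈ Ioo (0:ℝ) 1)
    (hne : (∀ v, 0 ≤ Q v) ∨ ∀ c ∈ Ioc 0 c₁, ∀ t, Q (γ.hvec t (U c t)) ≠ 0)
    {t₀ t₁ t₂ t₃ t₄ v₁ v₂ v₃ v₄ : ℝ} (h01 : t₀ < t₁) (h01' : t₁ < t₀ + γ.T) (h12 : t₁ < t₂)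
    (h12' : t₂ < t₁ + γ.T) (h23 : t₂ < t₃) (h23' : t₃ < t₂ + γ.T) (h34 : t₃ < t₄)
    (h34' : t₄ < t₃ + γ.T)
    (p1 : γ.pt t₀ (U c₁ t₀) = γ.pt t₁ v₁) (p2 : γ.pt t₁ (U c₁ t₁) = γ.pt t₂ v₂)
    (p3 : γ.pt t₂ (U c₁ t₂) = γ.pt t₃ v₃) (p4 : γ.pt t₃ (U c₁ t₃) = γ.pt t₄ v₄)
    (h40 : t₀ + γ.T ≤ t₄) :
    ∃ E : QuadraticForm ℝ (Fin 3 → ℝ), E.Nondegenerate ∧
      γ.trace = Pool.Agent.MP_ae5b4e_an_FA.conic E ∧
      ∀ c ∈ Ioo (0:ℝ) 1, ∃ ρ : ℝ, (Q - ρ • E).Nondegenerate ∧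
        γ.leaf U c = Pool.Agent.MP_ae5b4e_an_FA.conic (Q - ρ • E) := by
  -- the field
  have hv : ∀ t u, Q (γ.hvec t u) = u ^ 2 * Q (γ.Γ t) +
      u * QuadraticMap.polar Q (γ.Γ t) ![deriv γ.x t, deriv γ.y t, 0] +
      Q ![deriv γ.x t, deriv γ.y t, 0] := by
    intro t u
    have h := Q_smul_add (Q := Q) u 1 (γ.Γ t) ![deriv γ.x t, deriv γ.y t, 0]
    have e : γ.hvec t u = u • γ.Γ t + (1:ℝ) • ![deriv γ.x t, deriv γ.y t, 0] := by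
      funext i
      fin_cases i <;> simp [StrictCurve.hvec, StrictCurve.Γ]
    rw [e, h]
    ring
  have hκ : ∀ c ∈ Ioo (0:ℝ) 1, ∀ t u v, u ≠ v → γ.pt t u ∈ γ.leaf U c →
      γ.pt t v ∈ γ.leaf U c → u + v =
        -(QuadraticMap.polar Q (γ.Γ t) ![deriv γ.x t, deriv γ.y t, 0] / Q (γ.Γ t)) := by
    intro c hc t u v huv hu hv'
    have h1 := hproj c hc t u v huv hu hv'
    rw [hv, hv] at h1
    have h2 : (u - v) * ((u + v) * Q (γ.Γ t) +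
        QuadraticMap.polar Q (γ.Γ t) ![deriv γ.x t, deriv γ.y t, 0]) = 0 := by
      linear_combination h1
    have h3 := (mul_eq_zero.1 h2).resolve_left (sub_ne_zero.2 huv)
    have h4 := hQ t
    field_simp
    linarith
  have hcurv : ∀ t, 0 < γ.curv t := γ.curved hsimple hlim hsmooth hmono hκ
  refine pencil_of_four (γ.toConvex hcurv) hϑ hx hy Q ?_ hQ U hsmooth hper hsimple hmono hlim
    hproj hc₁ hne ⟨t₀, t₁, t₂, t₃, t₄, v₁, v₂, v₃, v₄, h01, h01', h12, h12', h23, h23', h34,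
      h34', p1, p2, p3, p4, h40⟩
  intro v
  have e : v = ![v 0, v 1, v 2] := by
    funext i
    fin_cases i <;> rfl
  show Q ![-(v 0), -(v 1), v 2] = Q v
  rw [hQM, ← e]

end Pool.Agent.MP_ae5b4e_an_P3
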