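import Mathlib
import Pool.Agent.Lib.MP_ae5b4e_an_P3.Fin4

/-!
# Theorems P3 and P4 in one statement

`m` steps of the map of one leaf, from one point, go around the curve, where `m = 3`, or `m = 4` and
the curve and the quadratic form are invariant under `x ↦ -x` of the plane.
-/

noncomputable section

namespace Pool.Agent.MP_ae5b4e_an_P3

open Real Set Filter Topology
open scoped ContDiff
open Pool.Agent.MP_ae5b4e_an_FA (StrictCurve conic)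

/-- **Theorem P3 and P4.**  A smooth closed strictly convex curve with a smooth foliation which
induces on its tangent lines the involutions of a quadratic form `Q` is an ellipse, and the leaves
are conics of one pencil, if three steps of the map of one leaf, from one point, go around the
curve, or if the curve and `Q` are centrally symmetric and four steps go around. -/
theorem strict_pencil34 (γ : StrictCurve) (Q : QuadraticForm ℝ (Fin 3 → ℝ))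
    (hQ : ∀ t, Q (γ.Γ t) ≠ 0) (U : ℝ → ℝ → ℝ)
    (hsmooth : ContDiffOn ℝ ∞ (fun q : ℝ × ℝ => U q.1 q.2) (Ioo 0 1 ×ˢ univ))
    (hper : ∀ c ∈ Ioo (0:ℝ) 1, ∀ t, U c (t + γ.T) = U c t)
    (hsimple : ∀ c ∈ Ioo (0:ℝ) 1, ∀ t t', γ.pt t (U c t) = γ.pt t' (U c t') →
      ∃ n : ℤ, t' = t + n * γ.T)
    (hmono : ∀ c ∈ Ioo (0:ℝ) 1, ∀ t, deriv (fun r => U r t) c < 0)
    (hlim : ∀ t, Tendsto (fun c => U c t) (𝓝[>] 0) atTop)
    (hproj : ∀ c ∈ Ioo (0:ℝ) 1, ∀ t u v, u ≠ v → γ.pt t u ∈ γ.leaf U c →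
      γ.pt t v ∈ γ.leaf U c → Q (γ.hvec t u) = Q (γ.hvec t v))
    {c₁ : ℝ} (hc₁ : c₁ ∈ Ioo (0:ℝ) 1)
    (hne : (∀ v, 0 ≤ Q v) ∨ ∀ c ∈ Ioc 0 c₁, ∀ t, Q (γ.hvec t (U c t)) ≠ 0)
    {m : ℕ} (hm : m = 3 ∨ m = 4 ∧
      (∃ ϑ, ϑ + ϑ = γ.T ∧ ∀ t, γ.x (t + ϑ) = -γ.x t ∧ γ.y (t + ϑ) = -γ.y t) ∧
      ∀ a b c : ℝ, Q ![-a, -b, c] = Q ![a, b, c])
    (t v : ℕ → ℝ) (hlt : ∀ i < m, t i < t (i + 1)) (hlt' : ∀ i < m, t (i + 1) < t i + γ.T)
    (hstep : ∀ i < m, γ.pt (t i) (U c₁ (t i)) = γ.pt (t (i + 1)) (v i))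
    (hgo : t 0 + γ.T ≤ t m) :
    ∃ E : QuadraticForm ℝ (Fin 3 → ℝ), E.Nondegenerate ∧ γ.trace = conic E ∧
      ∀ c ∈ Ioo (0:ℝ) 1, ∃ ρ : ℝ, (Q - ρ • E).Nondegenerate ∧
        γ.leaf U c = conic (Q - ρ • E) := by
  rcases hm with rfl | ⟨rfl, ⟨ϑ, hϑ, hxy⟩, hQM⟩
  · exact strict_pencil γ Q hQ U hsmooth hper hsimple hmono hlim hproj hc₁ hne
      (hlt 0 (by norm_num)) (hlt' 0 (by norm_num)) (hlt 1 (by norm_num)) (hlt' 1 (by norm_num))
      (hlt 2 (by norm_num)) (hlt' 2 (by norm_num)) (hstep 0 (by norm_num)) (hstep 1 (by norm_num))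
      (hstep 2 (by norm_num)) hgo
  · exact strict_pencil4 γ hϑ (fun t => (hxy t).1) (fun t => (hxy t).2) Q hQM hQ U hsmooth hper
      hsimple hmono hlim hproj hc₁ hne
      (hlt 0 (by norm_num)) (hlt' 0 (by norm_num)) (hlt 1 (by norm_num)) (hlt' 1 (by norm_num))
      (hlt 2 (by norm_num)) (hlt' 2 (by norm_num)) (hlt 3 (by norm_num)) (hlt' 3 (by norm_num))
      (hstep 0 (by norm_num)) (hstep 1 (by norm_num)) (hstep 2 (by norm_num))
      (hstep 3 (by norm_num)) hgo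

end Pool.Agent.MP_ae5b4e_an_P3
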