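import Mathlib
import Pool.Agent.Lib.MP_ae5b4e_an_P3.Defs
import Pool.Agent.Lib.MP_ae5b4e_an_P3.Leaf3

/-!
# MP_ae5b4e_an, project P3, (C): the leaf of the 3-periodic points
-/

noncomputable section

namespace Pool.Agent.MP_ae5b4e_an_P3

open Set Filter Topology Real MeasureTheory intervalIntegral
open scoped ContDiff
open Pool.Agent.MP_ae5b4e_an_hopf
open Pool.Agent.MP_ae5b4e_an_ALT (SSys)
open Pool.Agent.MP_ae5b4e_an_hopf.Sys (nt nc)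

variable {Γ : ℝ → Fin 3 → ℝ} {T : ℝ} {U : ℝ → ℝ → ℝ} {Q : QuadraticForm ℝ (Fin 3 → ℝ)}

/-- The pointwise inequality on the leaf of the 3-periodic points.

Proof.  `t₀ = t`, `t₁ = nxt t₀`, `t₂ = nxt t₁`, `nxt t₂ = t₀ + T`; `X i = U c (t i)`,
`c i = X i ^ 2 + Q (Γ' (t i))`, `λ i = nt (t i)`, `λ₀ λ₁ λ₂ = 1` (derivative of `f³ = id + T`).
`U' (t i) = - L11 (t i, t (i+1)) - λ i * KK (t i, t (i+1))` (definition of `nt`) and
`U' (t i) = L11 (t i, t (i-1)) + KK (t i, t (i-1)) / λ (i-1)` (`SSys.eq_t`), hence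
`-(L11 (t i, t (i+1)) + L11 (t i, t (i-1))) = λ i * KK (i, i+1) + KK (i, i-1) / λ (i-1)`.
Let `V i = X i • Γ + Γ'` at `t i` (the vertex between `i` and `i+1`, `Q (V i) = c i`), then
`X i • Γ - Γ' = r • V (i-1)` at `t i` with `r = dd (i-1, i) / dd (i, i-1) = √ (c i / c (i-1))`; so
`Γ (t i) = (V i + r V (i-1)) / (2 X i)`, `Γ' (t i) = (V i - r V (i-1)) / 2`.  Expand
`Γ'' (t i) = x V i + y V (i-1) + z V (i+1)`; `z` from `Wr = 1`, `x + y` from `⟨Γ, Γ''⟩ = - Q (Γ')`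
(`polar_two`), and the ratios `Γ'' · ℓ (i+1) / Γ · ℓ (i+1)`, `Γ'' · ℓ (i-1) / Γ · ℓ (i-1)`
(`L11 x y = det (Γ'' x, Γ y, Γ' y) / dd x y - L1 x y ^ 2`) give the hypothesis of
`triangle_algebra` with the unit vertices `e i = V i / √ (c i)`, `1 + g i = 2 X i ^ 2 / c i`,
`Ω = det (e)`, `KK (i, i+1) = 4 X i X (i+1) / (s (i+1) Ω)`, `KK (i+1, i) = 4 X i X (i+1) / (s i Ω)`,
`s i = c i ^ (3/2)`, `w i = X i ξ i`, `ξ₀ = 1`, `ξ₁ = λ₀`, `ξ₂ = λ₀ λ₁`.  Its conclusion is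
`2 Z (√ c₁ X₁ / ξ₁ - √ c₀ X₀ / ξ₀) = Ω (s₁ - s₀)`, so `√ (c₁ / c₀) X₁ - X₀ λ₀` has the sign of
`c₁ - c₀`, i.e. of `dl t₀ t₁` (`dl_nxt`); and
`bq = (KK t₀ t₁ / c₀) * dl * (X₀ λ₀ - X₁ √ (c₁ / c₀))` (`KK_exp`, `L1 t₀ t₁ = - X₀`,
`L1 t₁ t₀ = X₁`, `c₁ = c₀ exp (2 dl)`). -/
theorem QSys.bq_three_pt (h : QSys T Γ U Q) {c : ℝ} (hc : c ∈ Ioo (0:ℝ) 1) {t : ℝ}
    (h3 : nxt Γ T U c (nxt Γ T U c (nxt Γ T U c t)) = t + T) :
    bq Γ T U Q c t ≤ 0 := by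
  have hs : ∀ x y, QuadraticMap.associated (R := ℝ) Q x y =
      QuadraticMap.associated (R := ℝ) Q y x := fun x y =>
    QuadraticMap.associated_isSymm ℝ Q x y
  have hQ : ∀ x, QuadraticMap.associated (R := ℝ) Q x x = Q x := fun x =>
    QuadraticMap.associated_eq_self_apply ℝ Q x
  have k := leaf_three_le (B := QuadraticMap.associated (R := ℝ) Q) h.sys hs
    (fun t => by rw [hQ]; exact h.one t) hc (fun x => by rw [hQ]; exact h.Qpos c hc x) h.wr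
    (h.Upos c hc) h3
  obtain ⟨-, -, a3⟩ := h.sys.nxt_spec c t
  have e1 : U c (nxt Γ T U c t) = L1 Γ (nxt Γ T U c t) t := h.sys.feq' hc t
  rw [hQ, hQ] at k
  unfold bq Wq cq
  rw [a3, ← e1, neg_sq]
  refine le_trans (le_of_eq ?_) k
  ring

/-- The pointwise inequality on the leaf of the 3-periodic points. -/
theorem QSys.bq_three (h : QSys T Γ U Q) {c : ℝ} (hc : c ∈ Ioo (0:ℝ) 1)
    (h3 : ∀ t, nxt Γ T U c (nxt Γ T U c (nxt Γ T U c t)) = t + T) (t : ℝ) :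
    bq Γ T U Q c t ≤ 0 := h.bq_three_pt hc (h3 t)

/-- (C) -/
theorem QSys.Bq_three (h : QSys T Γ U Q) {c : ℝ} (hc : c ∈ Ioo (0:ℝ) 1)
    (h3 : ∀ t, nxt Γ T U c (nxt Γ T U c (nxt Γ T U c t)) = t + T) : Bq Γ T U Q c ≤ 0 := by
  unfold Bq
  have h1 := intervalIntegral.integral_nonneg (μ := volume) h.sys.T_pos.le
    (f := fun t => -(bq Γ T U Q c t)) fun t _ => neg_nonneg.2 (h.bq_three hc h3 t)
  rw [intervalIntegral.integral_neg] at h1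
  linarith

end Pool.Agent.MP_ae5b4e_an_P3
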